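import Pool.Agent.Lib.MP_afd523_nt_W.WDefs

set_option autoImplicit false

/-!
Project W: geometric sums and spaced points on the circle.
-/

namespace Pool.Agent.NVW

open Finset Complex MeasureTheory Pool.Agent.NV

/-- `gb` is nonnegative and at most `L`. -/
theorem gb_nonneg {L : ℝ} (hL : 0 ≤ L) (w : ℂ) : 0 ≤ gb L w ∧ gb L w ≤ L := by
  unfold gb
  split_ifs with h
  · exact ⟨hL, le_refl _⟩
  · push Not at h
    have h0 : 0 < ‖1 - w‖ := by
      rcases (norm_nonneg (1 - w)).eq_or_lt with h1 | h1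
      · rw [← h1, zero_mul] at h; linarith
      · exact h1
    exact ⟨by positivity, by rw [div_le_iff₀ h0]; linarith⟩

/-- A geometric sum with at most `L` terms.

Proof. Trivial bound, and `(1 - w) ∑ = w^α - w^β` (so the norm is at most `2 / ‖1 - w‖` if
`w ≠ 1`); if `‖1 - w‖ * L > 2` then `w ≠ 1`. -/
theorem geo_le {w : ℂ} (hw : ‖w‖ = 1) (n : ℕ) {L : ℝ} (hL : (n : ℝ) ≤ L) :
    ‖∑ t ∈ range n, w ^ t‖ ≤ gb L w := by
  have hL0 : 0 ≤ L := le_trans (Nat.cast_nonneg n) hL
  unfold gb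
  split_ifs with h
  · refine le_trans (norm_sum_le _ _) (le_trans ?_ hL)
    simp [norm_pow, hw]
  · push Not at h
    have h0 : 0 < ‖1 - w‖ := by
      rcases (norm_nonneg (1 - w)).eq_or_lt with h1 | h1
      · rw [← h1, zero_mul] at h; linarith
      · exact h1
    rw [le_div_iff₀ h0, ← norm_mul]
    have h2 : (∑ t ∈ range n, w ^ t) * (1 - w) = 1 - w ^ n := by
      have := geom_sum_mul w n
      linear_combination -this
    rw [h2]
    calc ‖1 - w ^ n‖ ≤ ‖(1 : ℂ)‖ + ‖w ^ n‖ := norm_sub_le _ _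
      _ = 2 := by rw [norm_one, norm_pow, hw, one_pow]; norm_num

/-- `gb` for `w ≠ 1`. -/
private lemma WSpace_gb_le {L : ℝ} {w : ℂ} (h0 : 0 < ‖1 - w‖) : gb L w ≤ 2 / ‖1 - w‖ := by
  unfold gb
  split_ifs with h
  · rw [le_div_iff₀ h0]; linarith
  · exact le_refl _

/-- The distance to `1` on the circle. -/
private lemma WSpace_norm (x : ℝ) :
    ‖1 - cexp (2 * Real.pi * x * I)‖ = 2 * |Real.sin (Real.pi * x)| := by
  have h1 : 1 - cexp (2 * Real.pi * x * I) =
      -2 * I * Complex.sin (Real.pi * x) * cexp (Real.pi * x * I) := by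
    rw [Complex.sin]
    have e1 : cexp (2 * Real.pi * x * I) = cexp (Real.pi * x * I) * cexp (Real.pi * x * I) := by
      rw [← Complex.exp_add]; congr 1; ring
    have e2 : cexp (-(Real.pi * x) * I) * cexp (Real.pi * x * I) = 1 := by
      rw [← Complex.exp_add, show -(Real.pi * x : ℂ) * I + Real.pi * x * I = 0 by ring,
        Complex.exp_zero]
    rw [e1]
    linear_combination (-(1 : ℂ)) * e2 +
      (cexp (-(Real.pi * x) * I) * cexp (Real.pi * x * I) -
      cexp (Real.pi * x * I) * cexp (Real.pi * x * I)) * I_mul_I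
  rw [h1, norm_mul, norm_mul, norm_mul]
  have e3 : ‖cexp (Real.pi * x * I)‖ = 1 := by
    have := Complex.norm_exp_ofReal_mul_I (Real.pi * x)
    push_cast at this
    exact this
  have e4 : Complex.sin (Real.pi * x) = ((Real.sin (Real.pi * x) : ℝ) : ℂ) := by
    push_cast; rfl
  rw [e3, e4, Complex.norm_real, Real.norm_eq_abs]
  simp

/-- A lower bound for the distance to `1`. -/
private lemma WSpace_low {x : ℝ} (h0 : 0 < x) (h1 : x < 1) :
    0 < ‖1 - cexp (2 * Real.pi * x * I)‖ ∧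
    2 / ‖1 - cexp (2 * Real.pi * x * I)‖ ≤ (1 / x + 1 / (1 - x)) / 2 := by
  have hpi := Real.pi_pos
  have hs : 0 < Real.sin (Real.pi * x) := by
    refine Real.sin_pos_of_pos_of_lt_pi (by positivity) ?_
    nlinarith
  rw [WSpace_norm, abs_of_pos hs]
  refine ⟨by positivity, ?_⟩
  have h1x : 0 < 1 - x := by linarith
  rcases le_total x (1 / 2) with h | h
  · have h2 : 2 * x ≤ Real.sin (Real.pi * x) := by
      have := Real.mul_le_sin (x := Real.pi * x) (by positivity) (by nlinarith)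
      calc 2 * x = 2 / Real.pi * (Real.pi * x) := by field_simp
        _ ≤ _ := this
    calc 2 / (2 * Real.sin (Real.pi * x)) ≤ 2 / (2 * (2 * x)) := by gcongr
      _ = 1 / x / 2 := by field_simp; try norm_num
      _ ≤ _ := by
        have : 0 < 1 / (1 - x) := by positivity
        linarith
  · have h2 : 2 * (1 - x) ≤ Real.sin (Real.pi * x) := by
      have := Real.mul_le_sin (x := Real.pi * (1 - x)) (by positivity) (by nlinarith)
      have e : Real.sin (Real.pi * (1 - x)) = Real.sin (Real.pi * x) := by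
        rw [mul_sub, mul_one, Real.sin_pi_sub]
      rw [e] at this
      calc 2 * (1 - x) = 2 / Real.pi * (Real.pi * (1 - x)) := by field_simp
        _ ≤ _ := this
    calc 2 / (2 * Real.sin (Real.pi * x)) ≤ 2 / (2 * (2 * (1 - x))) := by gcongr
      _ = 1 / (1 - x) / 2 := by field_simp; try norm_num
      _ ≤ _ := by
        have : 0 < 1 / x := by positivity
        linarith

/-- Sums over the powers of a primitive root. -/
private lemma WSpace_sum {M : ℕ} (hM : 0 < M) {ζ : ℂ} (hζ : IsPrimitiveRoot ζ M)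
    (F : ℂ → ℝ) :
    ∑ r ∈ range M, F (ζ ^ r) = ∑ x ∈ Polynomial.nthRootsFinset M (1 : ℂ), F x := by
  classical
  have hinj : Set.InjOn (fun r => ζ ^ r) (range M : Set ℕ) := by
    intro a ha b hb hab
    exact hζ.pow_inj (by simpa using ha) (by simpa using hb) hab
  have himg : (range M).image (fun r => ζ ^ r) = Polynomial.nthRootsFinset M (1 : ℂ) := by
    refine Finset.eq_of_subset_of_card_le ?_ ?_
    · intro x hx
      obtain ⟨r, -, rfl⟩ := Finset.mem_image.1 hx
      rw [Polynomial.mem_nthRootsFinset hM, ← pow_mul, mul_comm, pow_mul, hζ.pow_eq_one, one_pow]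
    · rw [Finset.card_image_of_injOn hinj, hζ.card_nthRootsFinset, Finset.card_range]
  rw [← himg, Finset.sum_image hinj]

/-- Points on a coset of the `M`-th roots of unity.

Proof. Write `z = exp (2 π i φ)`, `ζ = exp (2 π i a / M)` with `a` coprime to `M`
(`IsPrimitiveRoot`, `Complex.mem_rootsOfUnity` ...); the points `z ζ^r`, `r < M`, are the points
`exp (2 π i (φ + r / M))` in another order, and by a shift of the index `0 ≤ φ < 1 / M`. For
`1 ≤ r ≤ M - 2` the distance of `φ + r / M` to the nearest integer is at least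
`min (r / M) ((M - 1 - r) / M)`, and `‖1 - exp (2 π i x)‖ = 2 |sin (π x)| ≥ 4 dist (x, ℤ)`. So the
term is at most `M / (2 r) + M / (2 (M - 1 - r))`; the terms `r = 0`, `r = M - 1` are at most `L`;
`∑_{r < M} 1 / r ≤ 1 + log M` (`harmonic_le_one_add_log`). -/
theorem space {M : ℕ} (hM : 0 < M) {z ζ : ℂ} (hz : ‖z‖ = 1) (hζ : IsPrimitiveRoot ζ M) {L : ℝ}
    (hL : 0 ≤ L) :
    ∑ r ∈ range M, gb L (z * ζ ^ r) ≤ 2 * L + M * (1 + Real.log M) := by
  classical
  have hMR : (0 : ℝ) < M := by exact_mod_cast hM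
  have hMC : (M : ℂ) ≠ 0 := by exact_mod_cast hM.ne'
  set ζ0 : ℂ := cexp (2 * Real.pi * I / M) with hζ0
  have hp0 : IsPrimitiveRoot ζ0 M := Complex.isPrimitiveRoot_exp M hM.ne'
  -- the argument of `z`
  obtain ⟨θ, hθ0, hzθ⟩ : ∃ θ : ℝ, 0 ≤ θ ∧ z = cexp (2 * Real.pi * θ * I) := by
    refine ⟨Complex.arg z / (2 * Real.pi) + 1, ?_, ?_⟩
    · have h1 := Complex.neg_pi_lt_arg z
      have h2 : -1 ≤ Complex.arg z / (2 * Real.pi) := by
        rw [le_div_iff₀ (by positivity)]
        nlinarith [Real.pi_pos]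
      linarith
    · have h1 := Complex.norm_mul_exp_arg_mul_I z
      rw [hz, Complex.ofReal_one, one_mul] at h1
      have e : (2 * Real.pi * ((Complex.arg z / (2 * Real.pi) + 1 : ℝ) : ℂ) * I : ℂ) =
          Complex.arg z * I + 2 * Real.pi * I := by
        push_cast
        have : (Real.pi : ℂ) ≠ 0 := by exact_mod_cast Real.pi_ne_zero
        field_simp
        try ring
      rw [e, Complex.exp_add, Complex.exp_two_pi_mul_I, mul_one, h1]
  set k : ℕ := ⌊θ * M⌋₊ with hk
  set φ : ℝ := θ - k / M with hφ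
  have hk1 : (k : ℝ) ≤ θ * M := Nat.floor_le (by positivity)
  have hk2 : θ * M < k + 1 := Nat.lt_floor_add_one _
  have hφ0 : 0 ≤ φ := by
    rw [hφ, sub_nonneg, div_le_iff₀ hMR]; exact hk1
  have hφ1 : φ < 1 / M := by
    rw [hφ, sub_lt_iff_lt_add, ← add_div, lt_div_iff₀ hMR]; linarith
  set z0 : ℂ := cexp (2 * Real.pi * φ * I) with hz0
  have hpow : ∀ s : ℕ, ζ0 ^ s = cexp (2 * Real.pi * (s / M : ℝ) * I) := by
    intro s
    rw [hζ0, ← Complex.exp_nat_mul]
    congr 1
    push_cast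
    field_simp
  have hzz : z = z0 * ζ0 ^ k := by
    rw [hpow, hz0, ← Complex.exp_add, hzθ]
    congr 1
    rw [hφ]
    push_cast
    ring
  have hsum : ∑ r ∈ range M, gb L (z * ζ ^ r) = ∑ s ∈ range M, gb L (z0 * ζ0 ^ s) := by
    rw [WSpace_sum hM hζ (fun x => gb L (z * x)), WSpace_sum hM hp0 (fun x => gb L (z0 * x))]
    have hne : ζ0 ^ k ≠ 0 := pow_ne_zero _ (Complex.exp_ne_zero _)
    refine Finset.sum_bij (fun x _ => ζ0 ^ k * x) ?_ ?_ ?_ ?_
    · intro x hx
      rw [Polynomial.mem_nthRootsFinset hM] at hx ⊢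
      rw [mul_pow, hx, mul_one, ← pow_mul, mul_comm, pow_mul, hp0.pow_eq_one, one_pow]
    · intro x _ y _ hxy
      exact mul_left_cancel₀ hne hxy
    · intro y hy
      refine ⟨(ζ0 ^ k)⁻¹ * y, ?_, ?_⟩
      · rw [Polynomial.mem_nthRootsFinset hM] at hy ⊢
        rw [mul_pow, hy, mul_one, inv_pow, ← pow_mul, mul_comm, pow_mul, hp0.pow_eq_one, one_pow,
          inv_one]
      · rw [mul_inv_cancel_left₀ hne]
    · intro x _
      rw [hzz, mul_assoc]
  rw [hsum]
  -- the single terms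
  have hterm : ∀ s ∈ range M, gb L (z0 * ζ0 ^ s) ≤
      (if s = 0 then L else 0) + (if s = M - 1 then L else 0) +
        (M / 2) * ((s : ℝ)⁻¹ + ((M - 1 - s : ℕ) : ℝ)⁻¹) := by
    intro s hs
    have hsM : s < M := Finset.mem_range.1 hs
    have hnn : 0 ≤ ((M : ℝ) / 2) * ((s : ℝ)⁻¹ + ((M - 1 - s : ℕ) : ℝ)⁻¹) := by positivity
    by_cases h0 : s = 0
    · have := (gb_nonneg hL (z0 * ζ0 ^ s)).2
      have h3 : 0 ≤ (if s = M - 1 then L else 0) := by split_ifs <;> linarith
      rw [if_pos h0]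
      linarith
    by_cases h1 : s = M - 1
    · have := (gb_nonneg hL (z0 * ζ0 ^ s)).2
      rw [if_neg h0, if_pos h1]
      linarith
    rw [if_neg h0, if_neg h1, zero_add, zero_add]
    have hw : z0 * ζ0 ^ s = cexp (2 * Real.pi * (φ + s / M : ℝ) * I) := by
      rw [hpow, hz0, ← Complex.exp_add]
      congr 1
      push_cast
      ring
    have hspos : (0 : ℝ) < s := by exact_mod_cast Nat.pos_of_ne_zero h0
    have hcast : ((M - 1 - s : ℕ) : ℝ) = M - 1 - s := by
      have : s ≤ M - 1 := by omega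
      rw [Nat.cast_sub this, Nat.cast_sub (by omega)]
      simp
    have hrest : (0 : ℝ) < (M : ℝ) - 1 - s := by
      rw [← hcast]
      have : 0 < M - 1 - s := by omega
      exact_mod_cast this
    have hx0 : (s : ℝ) / M ≤ φ + s / M := by linarith
    have hx1 : ((M : ℝ) - 1 - s) / M ≤ 1 - (φ + s / M) := by
      have e : ((M : ℝ) - 1 - s) / M = 1 - 1 / M - s / M := by field_simp
      rw [e]; linarith
    have hx0' : 0 < (s : ℝ) / M := by positivity
    have hx1' : 0 < ((M : ℝ) - 1 - s) / M := by positivity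
    obtain ⟨g1, g2⟩ := WSpace_low (x := φ + s / M) (by linarith) (by linarith)
    rw [hw]
    refine (WSpace_gb_le g1).trans (g2.trans ?_)
    have i1 : 1 / (φ + s / M) ≤ M * (s : ℝ)⁻¹ := by
      calc 1 / (φ + s / M) ≤ 1 / ((s : ℝ) / M) := by gcongr
        _ = M * (s : ℝ)⁻¹ := by field_simp
    have i2 : 1 / (1 - (φ + s / M)) ≤ M * ((M : ℝ) - 1 - s)⁻¹ := by
      calc 1 / (1 - (φ + s / M)) ≤ 1 / (((M : ℝ) - 1 - s) / M) := by gcongr
        _ = M * ((M : ℝ) - 1 - s)⁻¹ := by field_simp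
    rw [hcast]
    calc (1 / (φ + s / M) + 1 / (1 - (φ + s / M))) / 2
        ≤ (M * (s : ℝ)⁻¹ + M * ((M : ℝ) - 1 - s)⁻¹) / 2 := by gcongr
      _ = _ := by ring
  refine (Finset.sum_le_sum hterm).trans ?_
  rw [Finset.sum_add_distrib, Finset.sum_add_distrib, ← Finset.mul_sum, Finset.sum_add_distrib]
  have s1 : ∑ s ∈ range M, (if s = 0 then L else 0) ≤ L := by
    rw [Finset.sum_ite_eq' (range M) 0 (fun _ => L)]
    split_ifs <;> linarith
  have s2 : ∑ s ∈ range M, (if s = M - 1 then L else 0) ≤ L := by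
    rw [Finset.sum_ite_eq' (range M) (M - 1) (fun _ => L)]
    split_ifs <;> linarith
  have s3 : ∑ s ∈ range M, ((M - 1 - s : ℕ) : ℝ)⁻¹ = ∑ s ∈ range M, (s : ℝ)⁻¹ :=
    Finset.sum_range_reflect (fun s : ℕ => (s : ℝ)⁻¹) M
  have s4 : ∑ s ∈ range M, (s : ℝ)⁻¹ ≤ 1 + Real.log M := by
    obtain ⟨N, rfl⟩ : ∃ N, M = N + 1 := ⟨M - 1, by omega⟩
    rw [Finset.sum_range_succ']
    have h1 := harmonic_le_one_add_log N
    have h2 : ((harmonic N : ℚ) : ℝ) = ∑ s ∈ range N, (((s + 1 : ℕ) : ℝ))⁻¹ := by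
      rw [harmonic]
      push_cast
      rfl
    rw [h2] at h1
    have h3 : Real.log N ≤ Real.log ((N + 1 : ℕ) : ℝ) := by
      rcases Nat.eq_zero_or_pos N with rfl | hN
      · simp
      · exact Real.log_le_log (by exact_mod_cast hN) (by push_cast; linarith)
    simp only [Nat.cast_zero, inv_zero, add_zero]
    linarith
  rw [s3]
  have s5 : (M : ℝ) / 2 * (∑ s ∈ range M, (s : ℝ)⁻¹ + ∑ s ∈ range M, (s : ℝ)⁻¹) ≤
      M * (1 + Real.log M) := by
    calc (M : ℝ) / 2 * (∑ s ∈ range M, (s : ℝ)⁻¹ + ∑ s ∈ range M, (s : ℝ)⁻¹)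
        = M * ∑ s ∈ range M, (s : ℝ)⁻¹ := by ring
      _ ≤ _ := by gcongr
  linarith

end Pool.Agent.NVW
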