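import Pool.Agent.Lib.MP_afd523_nt_W.WChar

set_option autoImplicit false

/-!
Project W: roots of unity and twists.
-/

namespace Pool.Agent.NVW

open Finset Complex MeasureTheory Pool.Agent.NV

private theorem WTw_pk {p k : ℕ} : (p : ZMod (p ^ k)) ^ k = 0 := by
  rw [← Nat.cast_pow, ZMod.natCast_self]

/-- The value at `1 + p^s` is a primitive root of unity.

Proof. `ζ = ψ (1 + p^s)` satisfies `ζ ^ x = ψ (1 + p^s x)` (`psi_pow` with `a = 1`), so
`ζ ^ (p ^ (k - s)) = 1` and (if `s < k`) `ζ ^ (p ^ (k - s - 1)) = ψ (1 + p^(k-1)) ≠ 1`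
(`prim_iff`); `IsPrimitiveRoot` from `orderOf` (`orderOf_eq_prime_pow`). -/
theorem psi_root {p k s : ℕ} [Fact p.Prime] (hk : 2 ≤ k) (hs : k ≤ 2 * s) (hsk : s ≤ k)
    {ψ : DirichletCharacter ℂ (p ^ k)} (hψ : ψ.IsPrimitive) :
    IsPrimitiveRoot (ψ (1 + (p : ZMod (p ^ k)) ^ s)) (p ^ (k - s)) := by
  have h0 : (p : ZMod (p ^ k)) ^ k = 0 := WTw_pk
  have hpow : ∀ n : ℕ, ψ (1 + (p : ZMod (p ^ k)) ^ s * (n : ZMod (p ^ k))) =
      ψ (1 + (p : ZMod (p ^ k)) ^ s) ^ n := by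
    intro n
    have := psi_pow hs ψ 1 n
    simpa using this
  rcases hsk.eq_or_lt with h | h
  · subst h
    simp [h0]
  · obtain ⟨m, rfl⟩ : ∃ m, k = s + (m + 1) := ⟨k - s - 1, by omega⟩
    have e1 : s + (m + 1) - s = m + 1 := by omega
    rw [e1]
    have hord : orderOf (ψ (1 + (p : ZMod (p ^ (s + (m + 1)))) ^ s)) = p ^ (m + 1) := by
      apply orderOf_eq_prime_pow
      · rw [← hpow (p ^ m)]
        have h1 := (prim_iff hk ψ).1 hψ
        have e2 : s + (m + 1) - 1 = s + m := by omega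
        rw [e2, pow_add (p : ZMod (p ^ (s + (m + 1)))) s m] at h1
        simpa using h1
      · rw [← hpow (p ^ (m + 1))]
        have h2 : (p : ZMod (p ^ (s + (m + 1)))) ^ s *
            ((p ^ (m + 1) : ℕ) : ZMod (p ^ (s + (m + 1)))) = 0 := by
          rw [Nat.cast_pow, ← pow_add]
          exact h0
        rw [h2]
        simp
    have := IsPrimitiveRoot.orderOf (ψ (1 + (p : ZMod (p ^ (s + (m + 1)))) ^ s))
    rwa [hord] at this

/-- The twists are primitive. Proof. `prim_iff`: `1 + p^(k-1)` is `1` modulo `p ^ j`, so the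
character `changeLevel _ ξ` is `1` there (`DirichletCharacter.changeLevel_eq_cast_of_dvd`). -/
theorem tw_prim {p j k : ℕ} [Fact p.Prime] (hk : 2 ≤ k) (hjk : j < k)
    {ψ : DirichletCharacter ℂ (p ^ k)} (hψ : ψ.IsPrimitive) (ξ : DirichletCharacter ℂ (p ^ j)) :
    (tw hjk.le ψ ξ).IsPrimitive := by
  rw [prim_iff hk]
  have h1 := (prim_iff hk ψ).1 hψ
  have hv : DirichletCharacter.changeLevel (pow_dvd_pow p hjk.le) ξ
      (1 + (p : ZMod (p ^ k)) ^ (k - 1)) = 1 := by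
    have hc : IsCoprime (1 + (p : ℤ) ^ (k - 1)) ((p ^ k : ℕ) : ℤ) := by
      rw [Nat.cast_pow]
      apply IsCoprime.pow_right
      obtain ⟨m, hm⟩ : ∃ m, k - 1 = m + 1 := ⟨k - 2, by omega⟩
      rw [hm]
      exact ⟨1, -(p : ℤ) ^ m, by ring⟩
    have h2 := DirichletCharacter.changeLevel_eq_cast_of_dvd' ξ (pow_dvd_pow p hjk.le) hc
    have e1 : ((1 + (p : ℤ) ^ (k - 1) : ℤ) : ZMod (p ^ k)) =
        1 + (p : ZMod (p ^ k)) ^ (k - 1) := by push_cast; ring
    have e2 : ((1 + (p : ℤ) ^ (k - 1) : ℤ) : ZMod (p ^ j)) = 1 := by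
      push_cast
      obtain ⟨m, hm⟩ : ∃ m, k - 1 = j + m := ⟨k - 1 - j, by omega⟩
      rw [hm, pow_add, WTw_pk]
      ring
    rw [e1, e2, map_one] at h2
    exact h2
  intro h
  apply h1
  rw [tw, MulChar.mul_apply, hv, mul_one] at h
  exact h

/-- Values of a twist at integers. Proof. `DirichletCharacter.changeLevel_eq_cast_of_dvd` for
`n` coprime to `p`; otherwise both sides are `0` (`j ≥ 1` is not needed as `ψ n = 0`). -/
theorem tw_apply {p j k : ℕ} [Fact p.Prime] (hjk : j ≤ k) (hk : 1 ≤ k)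
    (ψ : DirichletCharacter ℂ (p ^ k)) (ξ : DirichletCharacter ℂ (p ^ j)) (n : ℤ) :
    tw hjk ψ ξ (n : ZMod (p ^ k)) = ψ (n : ZMod (p ^ k)) * ξ (n : ZMod (p ^ j)) := by
  rw [tw, MulChar.mul_apply]
  by_cases hc : IsCoprime n ((p ^ k : ℕ) : ℤ)
  · rw [DirichletCharacter.changeLevel_eq_cast_of_dvd' ξ (pow_dvd_pow p hjk) hc]
  · have hu : ¬ IsUnit (n : ZMod (p ^ k)) := by
      rwa [ZMod.coe_int_isUnit_iff_isCoprime, isCoprime_comm]
    rw [MulChar.map_nonunit ψ hu, zero_mul, zero_mul]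

end Pool.Agent.NVW
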