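import Pool.Agent.Lib.MP_afd523_nt_W.WDefs

set_option autoImplicit false

/-!
Project W: characters modulo `p ^ k` near `1`.
-/

namespace Pool.Agent.NVW

open Finset Complex MeasureTheory Pool.Agent.NV

private theorem WChar_zero {p k m : ℕ} (h : k ≤ m) : (p : ZMod (p ^ k)) ^ m = 0 := by
  rw [← Nat.cast_pow, ZMod.natCast_eq_zero_iff]
  exact pow_dvd_pow p h

/-- Additivity. Proof. `(1 + p^s a) (1 + p^s b) = 1 + p^s (a + b)` as `p ^ (2 s) = 0` in
`ZMod (p ^ k)`. -/
theorem psi_add {p k s : ℕ} (hs : k ≤ 2 * s) (ψ : DirichletCharacter ℂ (p ^ k))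
    (a b : ZMod (p ^ k)) : ψ (1 + (p : ZMod (p ^ k)) ^ s * (a + b)) =
      ψ (1 + (p : ZMod (p ^ k)) ^ s * a) * ψ (1 + (p : ZMod (p ^ k)) ^ s * b) := by
  rw [← map_mul]
  congr 1
  have h1 : (p : ZMod (p ^ k)) ^ s * (p : ZMod (p ^ k)) ^ s = 0 := by
    rw [← pow_add, ← two_mul]
    exact WChar_zero hs
  linear_combination (- a * b) * h1

/-- Powers. Proof. Induction with `psi_add`; `ψ 1 = 1`. -/
theorem psi_pow {p k s : ℕ} (hs : k ≤ 2 * s) (ψ : DirichletCharacter ℂ (p ^ k))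
    (a : ZMod (p ^ k)) (n : ℕ) : ψ (1 + (p : ZMod (p ^ k)) ^ s * (a * n)) =
      ψ (1 + (p : ZMod (p ^ k)) ^ s * a) ^ n := by
  induction n with
  | zero => simp
  | succ n ih =>
    rw [pow_succ, ← ih, ← psi_add hs]
    congr 3
    push_cast
    ring

private theorem WChar_factors {p k : ℕ} [Fact p.Prime] (hk : 2 ≤ k)
    (χ : DirichletCharacter ℂ (p ^ k)) :
    χ.FactorsThrough (p ^ (k - 1)) ↔ χ (1 + (p : ZMod (p ^ k)) ^ (k - 1)) = 1 := by
  have hp : p.Prime := Fact.out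
  have hne : NeZero (p ^ k) := ⟨(pow_pos hp.pos k).ne'⟩
  have hd : p ^ (k - 1) ∣ p ^ k := pow_dvd_pow p (Nat.sub_le k 1)
  have hx : (p : ZMod (p ^ k)) ^ (k - 1) * (p : ZMod (p ^ k)) ^ (k - 1) = 0 := by
    rw [← pow_add]
    exact WChar_zero (by omega)
  rw [DirichletCharacter.factorsThrough_iff_ker_unitsMap hd]
  constructor
  · intro h
    let u : (ZMod (p ^ k))ˣ := ⟨1 + (p : ZMod (p ^ k)) ^ (k - 1),
      1 - (p : ZMod (p ^ k)) ^ (k - 1), by linear_combination (-1) * hx,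
      by linear_combination (-1) * hx⟩
    have hu : u ∈ (ZMod.unitsMap hd).ker := by
      rw [MonoidHom.mem_ker]
      ext
      rw [ZMod.unitsMap_val, Units.val_one]
      show ZMod.cast (1 + (p : ZMod (p ^ k)) ^ (k - 1)) = (1 : ZMod (p ^ (k - 1)))
      rw [ZMod.cast_add hd, ZMod.cast_one hd, ZMod.cast_pow hd, ZMod.cast_natCast hd,
        ← Nat.cast_pow, ZMod.natCast_self, add_zero]
    have h1 := h hu
    rw [MonoidHom.mem_ker, Units.ext_iff, MulChar.coe_toUnitHom, Units.val_one] at h1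
    exact h1
  · intro h v hv
    rw [MonoidHom.mem_ker, Units.ext_iff, ZMod.unitsMap_val, Units.val_one,
      ← ZMod.natCast_val] at hv
    have hv1 : (((v : ZMod (p ^ k)).val : ℕ) : ZMod (p ^ (k - 1))) =
        ((1 : ℕ) : ZMod (p ^ (k - 1))) := by
      rw [hv, Nat.cast_one]
    rw [ZMod.natCast_eq_natCast_iff] at hv1
    rw [MonoidHom.mem_ker, Units.ext_iff, MulChar.coe_toUnitHom, Units.val_one]
    have h2 : 1 < p ^ k := Nat.one_lt_pow (by omega) hp.one_lt
    have hw : 1 ≤ (v : ZMod (p ^ k)).val := by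
      have : Fact (1 < p ^ k) := ⟨h2⟩
      rcases Nat.eq_zero_or_pos (v : ZMod (p ^ k)).val with h3 | h3
      · exact absurd ((ZMod.val_eq_zero _).1 h3) v.ne_zero
      · exact h3
    obtain ⟨n, hn⟩ := (Nat.modEq_iff_dvd' hw).1 hv1.symm
    have h4 : (v : ZMod (p ^ k)) = 1 + (p : ZMod (p ^ k)) ^ (k - 1) * (1 * n) := by
      have h5 : (v : ZMod (p ^ k)).val = 1 + p ^ (k - 1) * n := by omega
      rw [← ZMod.natCast_zmod_val (v : ZMod (p ^ k)), h5]
      push_cast
      ring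
    rw [h4, psi_pow (by omega), mul_one, h, one_pow]

/-- A character is primitive iff it is not trivial on `1 + p^(k-1)`.

Proof. The conductor divides `p ^ k`, so it is `p ^ i` (`Nat.dvd_prime_pow`). If `i < k` then
the character factors through `p ^ (k - 1)` (`DirichletCharacter.factorsThrough_iff_ker_unitsMap`,
or the factorisation through the conductor), and `1 + p^(k-1)` is `1` modulo `p ^ (k - 1)`; so
`χ (1 + p^(k-1)) = 1`. Conversely, if `χ (1 + p^(k-1)) = 1`, then by `psi_pow` (`2 (k - 1) ≥ k`)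
`χ` is `1` on all units `≡ 1` modulo `p ^ (k - 1)`, so it factors through `p ^ (k - 1)` and the
conductor divides `p ^ (k - 1)`. -/
theorem prim_iff {p k : ℕ} [Fact p.Prime] (hk : 2 ≤ k) (χ : DirichletCharacter ℂ (p ^ k)) :
    χ.IsPrimitive ↔ χ (1 + (p : ZMod (p ^ k)) ^ (k - 1)) ≠ 1 := by
  have hp : p.Prime := Fact.out
  have hne : NeZero (p ^ k) := ⟨(pow_pos hp.pos k).ne'⟩
  rw [Ne, ← WChar_factors hk χ, DirichletCharacter.isPrimitive_def]
  constructor
  · intro h h1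
    have h2 : χ.conductor ≤ p ^ (k - 1) := Nat.sInf_le h1
    rw [h] at h2
    exact absurd (Nat.pow_lt_pow_right hp.one_lt (by omega : k - 1 < k)) (not_lt.2 h2)
  · intro h
    obtain ⟨i, hi, h1⟩ := (Nat.dvd_prime_pow hp).1 χ.conductor_dvd_level
    by_contra h2
    have h3 : i ≤ k - 1 := by
      by_contra h4
      have h5 : i = k := by omega
      rw [h5] at h1
      exact h2 h1
    refine h (DirichletCharacter.FactorsThrough.mono χ χ.factorsThrough_conductor ?_
      (pow_dvd_pow p (Nat.sub_le k 1)))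
    rw [h1]
    exact pow_dvd_pow p h3

end Pool.Agent.NVW
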