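import Mathlib

set_option autoImplicit false

/-!
Project W: partial summation.
-/

namespace Pool.Agent.NVW

open Finset Complex

private theorem WAbel_parts {R : Type*} [CommRing R] (W S : ℕ → R) (hS : S 0 = 0) (n : ℕ) :
    ∑ t ∈ range n, W t * (S (t + 1) - S t) =
      W n * S n + ∑ t ∈ range n, (W t - W (t + 1)) * S (t + 1) := by
  induction n with
  | zero => rw [range_zero, sum_empty, sum_empty, hS, mul_zero, add_zero]
  | succ n ih =>
    rw [sum_range_succ, sum_range_succ, ih]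
    ring

private theorem WAbel_term {d : ℝ} (hd : 0 < d) (t : ℕ) :
    1 / √(d * (t + 1)) * (√(d * ((t + 1 : ℕ) : ℝ)) - √(d * (t : ℝ))) ≤ 1 / ((t : ℝ) + 1) := by
  have ht : (0 : ℝ) < (t : ℝ) + 1 := by positivity
  have ht0 : (0 : ℝ) ≤ (t : ℝ) := by positivity
  push_cast
  rw [Real.sqrt_mul hd.le, Real.sqrt_mul hd.le]
  have h1 : 0 < √d := Real.sqrt_pos.2 hd
  have h2 : 0 < √((t : ℝ) + 1) := Real.sqrt_pos.2 ht
  have h3 : √((t : ℝ) + 1) * √((t : ℝ) + 1) = t + 1 := Real.mul_self_sqrt ht.le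
  have h4 : √(t : ℝ) * √(t : ℝ) = t := Real.mul_self_sqrt ht0
  have h5 : √(t : ℝ) ≤ √((t : ℝ) + 1) := Real.sqrt_le_sqrt (by linarith)
  have h6 : 0 ≤ √(t : ℝ) := Real.sqrt_nonneg _
  have e : 1 / (√d * √((t : ℝ) + 1)) * (√d * √((t : ℝ) + 1) - √d * √(t : ℝ)) =
      (√((t : ℝ) + 1) - √(t : ℝ)) / √((t : ℝ) + 1) := by
    field_simp
  rw [e, div_le_div_iff₀ h2 ht]
  nlinarith

/-- Partial summation.

Proof. With `S t = ∑_{s < t} f s`:
`∑_{t < N} W t f t = W N S N + ∑_{t < N} (W t - W (t+1)) S (t+1)`, so the norm is at most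
`η √d (W N √N + ∑_{t < N} (W t - W (t+1)) √(t+1)) = η √d ∑_{t < N} W t (√(t+1) - √t)`
(partial summation again), and `W t (√(t+1) - √t) ≤ 1 / (√d (t + 1))` as
`√(t+1) - √t ≤ 1 / √(t+1)`; `harmonic_le_one_add_log`. -/
theorem abel_le (f : ℕ → ℂ) (W : ℕ → ℝ) {d η : ℝ} (hd : 0 < d) (hη : 0 ≤ η) (N : ℕ)
    (hW0 : ∀ t, 0 ≤ W t) (hW1 : Antitone W) (hW : ∀ t : ℕ, W t ≤ 1 / √(d * (t + 1)))
    (hS : ∀ t, t ≤ N → ‖∑ s ∈ range t, f s‖ ≤ η * √(d * t)) :
    ‖∑ t ∈ range N, (W t : ℂ) * f t‖ ≤ η * (1 + Real.log N) := by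
  obtain ⟨S, hSdef⟩ : ∃ S : ℕ → ℂ, S = fun t => ∑ s ∈ range t, f s := ⟨_, rfl⟩
  have hS0 : S 0 = 0 := by rw [hSdef]; simp
  have hSd : ∀ t, S (t + 1) - S t = f t := by
    intro t
    rw [hSdef]
    change ∑ s ∈ range (t + 1), f s - ∑ s ∈ range t, f s = f t
    rw [sum_range_succ, add_sub_cancel_left]
  have hSn : ∀ t, t ≤ N → ‖S t‖ ≤ η * √(d * t) := by
    intro t ht
    rw [hSdef]
    exact hS t ht
  have h1 := WAbel_parts (fun t => (W t : ℂ)) S hS0 N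
  have h2 := WAbel_parts W (fun t : ℕ => √(d * (t : ℝ))) (by simp) N
  have e1 : ∑ t ∈ range N, (W t : ℂ) * f t = (W N : ℂ) * S N +
      ∑ t ∈ range N, ((W t : ℂ) - (W (t + 1) : ℂ)) * S (t + 1) := by
    rw [← h1]
    exact sum_congr rfl fun t _ => by rw [hSd]
  rw [e1]
  calc ‖(W N : ℂ) * S N + ∑ t ∈ range N, ((W t : ℂ) - (W (t + 1) : ℂ)) * S (t + 1)‖
      ≤ ‖(W N : ℂ) * S N‖ + ∑ t ∈ range N, ‖((W t : ℂ) - (W (t + 1) : ℂ)) * S (t + 1)‖ :=
        (norm_add_le _ _).trans (add_le_add le_rfl (norm_sum_le _ _))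
    _ ≤ W N * (η * √(d * N)) +
        ∑ t ∈ range N, (W t - W (t + 1)) * (η * √(d * ((t + 1 : ℕ) : ℝ))) := by
        refine add_le_add ?_ (sum_le_sum fun t ht => ?_)
        · rw [norm_mul, Complex.norm_real, Real.norm_of_nonneg (hW0 N)]
          exact mul_le_mul_of_nonneg_left (hSn N le_rfl) (hW0 N)
        · have h3 : 0 ≤ W t - W (t + 1) := sub_nonneg.2 (hW1 (Nat.le_succ t))
          rw [norm_mul, ← Complex.ofReal_sub, Complex.norm_real, Real.norm_of_nonneg h3]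
          exact mul_le_mul_of_nonneg_left (hSn _ (mem_range.1 ht)) h3
    _ = η * ∑ t ∈ range N, W t * (√(d * ((t + 1 : ℕ) : ℝ)) - √(d * (t : ℝ))) := by
        rw [h2, mul_add, mul_sum]
        refine congrArg₂ (· + ·) (by ring) (sum_congr rfl fun t _ => by ring)
    _ ≤ η * ∑ t ∈ range N, 1 / ((t : ℝ) + 1) := by
        refine mul_le_mul_of_nonneg_left (sum_le_sum fun t _ => ?_) hη
        refine le_trans (mul_le_mul_of_nonneg_right (hW t) ?_) (WAbel_term hd t)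
        refine sub_nonneg.2 (Real.sqrt_le_sqrt (mul_le_mul_of_nonneg_left ?_ hd.le))
        push_cast
        linarith
    _ ≤ η * (1 + Real.log N) := by
        refine mul_le_mul_of_nonneg_left ?_ hη
        have h3 := harmonic_le_one_add_log N
        refine le_trans (le_of_eq ?_) h3
        unfold harmonic
        push_cast
        exact sum_congr rfl fun t _ => by rw [one_div]

end Pool.Agent.NVW
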