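import Pool.Agent.Lib.MP_afd523_nt_W.WTheta
import Pool.Agent.Lib.MP_afd523_nt_W.WMel
import Pool.Agent.Lib.MP_afd523_nt.Afe

set_option autoImplicit false

/-!
Project W: the approximate functional equation of a primitive character of any modulus.
-/

namespace Pool.Agent.NVW

open Finset Complex MeasureTheory Pool.Agent.NV

/-- the integral of a theta series from `t` to infinity -/
private theorem WAfe_theta {q : ℕ} [NeZero q] (hq : 1 < q) (ξ : DirichletCharacter ℂ q) (e : ℕ)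
    (he : e ≤ 1) {t : ℝ} (ht : 0 < t) :
    ∫ s in Set.Ioi t, theta ξ e s * (s : ℂ) ^ (bet e - 1 : ℂ) =
      ((Real.pi / q : ℝ) : ℂ) ^ (-(bet e) : ℂ) * Complex.Gamma (bet e) *
        ∑' n : ℕ, ((nu e).real (Set.Ioi (n * √(t / q))) : ℂ) * ξ (n : ZMod q) /
          (Real.sqrt n : ℂ) := by
  have hq0 : (0 : ℝ) < q := by exact_mod_cast (zero_lt_one.trans hq)
  have hb := Afe_bet_pos e
  have hb1 := Afe_bet_lt e he
  have hpi := Real.pi_pos
  have hξ0 : ξ ((0 : ℕ) : ZMod q) = 0 := by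
    have : Fact (1 < q) := ⟨hq⟩
    rw [Nat.cast_zero]
    exact ξ.map_zero
  let F : ℕ → ℝ → ℂ := fun n s => ξ (n : ZMod q) * (n : ℂ) ^ e *
    Complex.exp (-(Real.pi * n ^ 2 * s / q)) * (s : ℂ) ^ (bet e - 1 : ℂ)
  have hF0 : F 0 = fun _ => 0 := by
    funext s
    simp only [F]
    rw [hξ0]; simp
  -- real form
  have hFr : ∀ n : ℕ, ∀ s ∈ Set.Ioi t, F n s = (ξ (n : ZMod q) * (n : ℂ) ^ e) *
      ((s ^ (bet e - 1) * Real.exp (-Real.pi * ((n : ℝ) ^ 2 / q) * s) : ℝ) : ℂ) := by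
    intro n s hs
    have hs0 : (0 : ℝ) < s := lt_trans ht hs
    simp only [F]
    rw [Complex.ofReal_mul, Complex.ofReal_cpow hs0.le, Complex.ofReal_exp]
    push_cast
    have : (-(Real.pi * (n : ℂ) ^ 2 * s / q) : ℂ) = -Real.pi * ((n : ℂ) ^ 2 / q) * s := by ring
    rw [this]
    ring
  have hFi : ∀ n : ℕ, Integrable (F n) (volume.restrict (Set.Ioi t)) := by
    intro n
    rcases Nat.eq_zero_or_pos n with h0 | hn
    · rw [h0, hF0]; exact integrable_zero _ _ _
    · have hc : (0 : ℝ) < (n : ℝ) ^ 2 / q := by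
        have : (0 : ℝ) < n := by exact_mod_cast hn
        positivity
      have h1 := (Afe_exp_integrable (b := bet e) hc ht hb1.le).1
      have h2 : IntegrableOn (fun s : ℝ => (ξ (n : ZMod q) * (n : ℂ) ^ e) *
        ((s ^ (bet e - 1) * Real.exp (-Real.pi * ((n : ℝ) ^ 2 / q) * s) : ℝ) : ℂ)) (Set.Ioi t) :=
        h1.ofReal.const_mul _
      exact h2.congr_fun (fun s hs => (hFr n s hs).symm) measurableSet_Ioi
  have hFn : ∀ n : ℕ, ∫ s in Set.Ioi t, ‖F n s‖ ≤
      q / Real.pi * t ^ (bet e - 1) * (Real.exp (-Real.pi * t / q)) ^ n := by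
    intro n
    rcases Nat.eq_zero_or_pos n with h0 | hn
    · rw [h0, hF0]
      simp only [norm_zero, integral_zero]
      positivity
    · have hn0 : (0 : ℝ) < n := by exact_mod_cast hn
      have hn1 : (1 : ℝ) ≤ n := by exact_mod_cast hn
      have hc : (0 : ℝ) < (n : ℝ) ^ 2 / q := by positivity
      have h1 := (Afe_exp_integrable (b := bet e) hc ht hb1.le).2
      have h2 : ∫ s in Set.Ioi t, ‖F n s‖ = ‖ξ (n : ZMod q) * (n : ℂ) ^ e‖ *
          ∫ s in Set.Ioi t, s ^ (bet e - 1) * Real.exp (-Real.pi * ((n : ℝ) ^ 2 / q) * s) := by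
        rw [← integral_const_mul]
        refine setIntegral_congr_fun measurableSet_Ioi fun s hs => ?_
        have hs0 : (0 : ℝ) < s := lt_trans ht hs
        rw [hFr n s hs, norm_mul, Complex.norm_real, Real.norm_of_nonneg (by positivity)]
      rw [h2]
      have h3 : ‖ξ (n : ZMod q) * (n : ℂ) ^ e‖ ≤ n := by
        rw [norm_mul, norm_pow, Complex.norm_natCast]
        have h4 : ‖ξ (n : ZMod q)‖ ≤ 1 := ξ.norm_le_one _
        have h5 : (n : ℝ) ^ e ≤ n := by
          calc (n : ℝ) ^ e ≤ (n : ℝ) ^ 1 := pow_le_pow_right₀ hn1 he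
            _ = n := pow_one _
        calc ‖ξ (n : ZMod q)‖ * (n : ℝ) ^ e ≤ 1 * n := by gcongr
          _ = n := one_mul _
      have h6 : Real.exp (-Real.pi * ((n : ℝ) ^ 2 / q) * t) ≤
          (Real.exp (-Real.pi * t / q)) ^ n := by
        rw [← Real.exp_nat_mul]
        apply Real.exp_le_exp.2
        have h7 : (n : ℝ) ≤ (n : ℝ) ^ 2 := by nlinarith
        have h8 : 0 ≤ Real.pi * t / q := by positivity
        calc -Real.pi * ((n : ℝ) ^ 2 / q) * t = -((n : ℝ) ^ 2 * (Real.pi * t / q)) := by ring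
          _ ≤ -((n : ℝ) * (Real.pi * t / q)) := by
            apply neg_le_neg
            gcongr
          _ = n * (-Real.pi * t / q) := by ring
      have hint0 : 0 ≤ ∫ s in Set.Ioi t, s ^ (bet e - 1) *
          Real.exp (-Real.pi * ((n : ℝ) ^ 2 / q) * s) := by
        refine setIntegral_nonneg measurableSet_Ioi fun s hs => ?_
        have hs0 : (0 : ℝ) < s := lt_trans ht hs
        positivity
      calc ‖ξ (n : ZMod q) * (n : ℂ) ^ e‖ *
            ∫ s in Set.Ioi t, s ^ (bet e - 1) * Real.exp (-Real.pi * ((n : ℝ) ^ 2 / q) * s)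
          ≤ n * (t ^ (bet e - 1) * (Real.exp (-Real.pi * ((n : ℝ) ^ 2 / q) * t) /
              (Real.pi * ((n : ℝ) ^ 2 / q)))) := by
            exact mul_le_mul h3 h1 hint0 hn0.le
        _ ≤ n * (t ^ (bet e - 1) * ((Real.exp (-Real.pi * t / q)) ^ n /
              (Real.pi * ((n : ℝ) ^ 2 / q)))) := by
            gcongr
        _ = q / Real.pi * t ^ (bet e - 1) * (Real.exp (-Real.pi * t / q)) ^ n * (1 / n) := by
            field_simp
        _ ≤ q / Real.pi * t ^ (bet e - 1) * (Real.exp (-Real.pi * t / q)) ^ n * 1 := by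
            gcongr
            rw [div_le_one hn0]; exact hn1
        _ = _ := mul_one _
  have hsum : Summable fun n : ℕ => ∫ s in Set.Ioi t, ‖F n s‖ := by
    refine Summable.of_nonneg_of_le (fun n => integral_nonneg fun s => norm_nonneg _) hFn ?_
    refine (summable_geometric_of_lt_one (Real.exp_pos _).le ?_).mul_left _
    rw [Real.exp_lt_one_iff]
    have : 0 < Real.pi * t / q := by positivity
    have h : -Real.pi * t / q = -(Real.pi * t / q) := by ring
    rw [h]; linarith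
  have hmain := hasSum_integral_of_summable_integral_norm hFi hsum
  have hL : ∫ s in Set.Ioi t, theta ξ e s * (s : ℂ) ^ (bet e - 1 : ℂ) =
      ∫ s in Set.Ioi t, ∑' n, F n s := by
    congr 1
    funext s
    simp only [F, theta]
    rw [tsum_mul_right]
  rw [hL, ← hmain.tsum_eq, ← tsum_mul_left]
  refine tsum_congr fun n => ?_
  rcases Nat.eq_zero_or_pos n with h0 | hn
  · rw [h0, hF0, hξ0]
    simp
  · have hn0 : (0 : ℝ) < n := by exact_mod_cast hn
    have hc : (0 : ℝ) < (n : ℝ) ^ 2 / q := by positivity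
    have h1 : ∫ s in Set.Ioi t, F n s = (ξ (n : ZMod q) * (n : ℂ) ^ e) *
        ((∫ s in Set.Ioi t, s ^ (bet e - 1) * Real.exp (-Real.pi * ((n : ℝ) ^ 2 / q) * s) : ℝ) :
          ℂ) := by
      rw [setIntegral_congr_fun measurableSet_Ioi (hFr n), integral_const_mul]
      congr 1
      exact integral_ofReal
    rw [h1, Afe_int e hc ht]
    have h2 : √((n : ℝ) ^ 2 / q * t) = n * √(t / q) := by
      rw [show (n : ℝ) ^ 2 / q * t = (n : ℝ) ^ 2 * (t / q) by ring,
        Real.sqrt_mul (by positivity), Real.sqrt_sq hn0.le]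
    rw [h2]
    have h3 : (((Real.pi / q : ℝ) : ℂ) ^ (-(bet e) : ℂ) * Complex.Gamma (bet e)) =
        (((Real.pi / q) ^ (-bet e) * Real.Gamma (bet e) : ℝ) : ℂ) := by
      rw [Complex.ofReal_mul, Complex.ofReal_cpow (by positivity), Complex.Gamma_ofReal]
      push_cast
      rfl
    rw [h3]
    have h4 : ((n : ℝ) ^ 2 / q) ^ (-bet e) * (Real.Gamma (bet e) * Real.pi ^ (-bet e)) *
        (n : ℝ) ^ e = (Real.pi / q) ^ (-bet e) * Real.Gamma (bet e) * (1 / √n) := by
      have h5 : (n : ℝ) ^ e * ((n : ℝ) ^ 2) ^ (-bet e) = 1 / √n := by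
        rw [← Real.rpow_natCast (n : ℝ) e, ← Real.rpow_natCast (n : ℝ) 2, ← Real.rpow_mul hn0.le,
          ← Real.rpow_add hn0, Real.sqrt_eq_rpow, one_div, ← Real.rpow_neg hn0.le]
        congr 1
        unfold bet
        push_cast
        ring
      rw [Real.div_rpow (by positivity) hq0.le, Real.div_rpow hpi.le hq0.le]
      rw [← h5]
      ring
    have h6 : ((((n : ℝ) ^ 2 / q) ^ (-bet e) * (Real.Gamma (bet e) * Real.pi ^ (-bet e)) *
        (n : ℝ) ^ e : ℝ) : ℂ) =
        (((Real.pi / q) ^ (-bet e) * Real.Gamma (bet e) * (1 / √n) : ℝ) : ℂ) := by rw [h4]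
    push_cast at h6 ⊢
    linear_combination (ξ (n : ZMod q) * ((nu e).real (Set.Ioi (n * √(t / q))) : ℂ)) * h6

/-- The approximate functional equation of a primitive character, with the explicit root number. -/
theorem afe' {q : ℕ} [NeZero q] (hq : 1 < q) (χ : DirichletCharacter ℂ q) (hχ : χ.IsPrimitive)
    {e : ℕ} (he : e ≤ 1) (hpar : χ (-1) = (-1) ^ e) {T : ℝ} (hT : 0 < T) :
    DirichletCharacter.LFunction χ (1 / 2) =
      ∑' n : ℕ, ((nu e).real (Set.Ioi (n / T)) : ℂ) * χ (n : ZMod q) / (Real.sqrt n : ℂ) +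
      eps χ e * ∑' n : ℕ, ((nu e).real (Set.Ioi (n * T / q)) : ℂ) *
        (starRingEnd ℂ) (χ (n : ZMod q)) / (Real.sqrt n : ℂ) := by
  have hfe := fun (t : ℝ) (ht : 0 < t) => theta_fe' hq χ hχ he hpar t ht
  have hε := norm_eps χ hχ e
  have hχ1 : χ ≠ 1 := by
    intro h
    have h1 := DirichletCharacter.eq_one_iff_conductor_eq_one.1 h
    rw [DirichletCharacter.isPrimitive_def] at hχ
    omega
  have hq0 : (0 : ℝ) < q := by exact_mod_cast (zero_lt_one.trans hq)
  have hpi := Real.pi_pos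
  obtain ⟨hint, hmel⟩ := mellin_half' hq χ hχ1 e he (eps χ e) hε hfe
  have ht : (0 : ℝ) < q / T ^ 2 := by positivity
  have hsplit : ∫ t in Set.Ioi (0 : ℝ), theta χ e t * (t : ℂ) ^ (bet e - 1 : ℂ) =
      (∫ s in Set.Ioc 0 (q / T ^ 2), theta χ e s * (s : ℂ) ^ (bet e - 1 : ℂ)) +
        ∫ s in Set.Ioi (q / T ^ 2), theta χ e s * (s : ℂ) ^ (bet e - 1 : ℂ) := by
    rw [← setIntegral_union (Set.Ioc_disjoint_Ioi le_rfl) measurableSet_Ioi
      (hint.mono_set Set.Ioc_subset_Ioi_self) (hint.mono_set (Set.Ioi_subset_Ioi ht.le)),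
      Set.Ioc_union_Ioi_eq_Ioi ht.le]
  rw [hsplit, Afe_low χ e (eps χ e) hfe ht,
    WAfe_theta hq χ⁻¹ e he (by positivity : (0 : ℝ) < 1 / (q / T ^ 2)),
    WAfe_theta hq χ e he ht] at hmel
  have h1 : √(q / T ^ 2 / q) = 1 / T := by
    rw [show (q : ℝ) / T ^ 2 / q = (1 / T) ^ 2 by field_simp, Real.sqrt_sq (by positivity)]
  have h2 : √(1 / (q / T ^ 2) / q) = T / q := by
    rw [show (1 : ℝ) / (q / T ^ 2) / q = (T / q) ^ 2 by field_simp, Real.sqrt_sq (by positivity)]
  rw [h1, h2] at hmel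
  have h3 : (((Real.pi / q : ℝ) : ℂ) ^ (-(bet e) : ℂ) * Complex.Gamma (bet e)) ≠ 0 := by
    have hb := Afe_bet_pos e
    apply mul_ne_zero
    · rw [Complex.cpow_ne_zero_iff]
      left
      exact_mod_cast (by positivity : (Real.pi / q) ≠ 0)
    · rw [Complex.Gamma_ofReal]
      exact_mod_cast (Real.Gamma_pos_of_pos hb).ne'
  have h4 : ∀ n : ℕ, (n : ℝ) * (1 / T) = n / T := fun n => by ring
  have h5 : ∀ n : ℕ, (n : ℝ) * (T / q) = n * T / q := fun n => by ring
  have h6 : ∀ n : ℕ, χ⁻¹ (n : ZMod q) = (starRingEnd ℂ) (χ (n : ZMod q)) := by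
    intro n
    rw [← MulChar.star_eq_inv, MulChar.star_apply]
    rfl
  simp only [h4, h5, h6] at hmel
  refine mul_left_cancel₀ h3 ?_
  rw [hmel]
  ring

end Pool.Agent.NVW
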