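import Pool.Agent.Lib.MP_afd523_nt_W.WDefs
import Pool.Agent.Lib.MP_afd523_nt.Cut

set_option autoImplicit false

/-!
Project W: the weights `PW`.
-/

namespace Pool.Agent.NVW

open Finset Complex MeasureTheory Pool.Agent.NV

private theorem WTail_markov {ν : Measure ℝ} {C : ℝ} (hν : Cut ν C) (B : ℕ) (x : ℝ)
    (hx : 0 < x) : ν.real (Set.Ioi x) ≤ (∫ r, r ^ (2 * B) ∂ν) / x ^ (2 * B) := by
  have := hν.prob
  have h := mul_meas_ge_le_integral_of_nonneg (μ := ν) (f := fun r : ℝ => r ^ (2 * B))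
    (Filter.Eventually.of_forall fun r => Even.pow_nonneg (even_two_mul B) r) (hν.mom (2 * B))
    (x ^ (2 * B))
  have h2 : ν.real (Set.Ioi x) ≤ ν.real {r : ℝ | x ^ (2 * B) ≤ r ^ (2 * B)} := by
    refine measureReal_mono (fun r hr => ?_)
    exact pow_le_pow_left₀ hx.le (le_of_lt hr) (2 * B)
  rw [le_div_iff₀ (by positivity), mul_comm]
  exact le_trans (mul_le_mul_of_nonneg_left h2 (by positivity)) h

private theorem WTail_VV_nonneg (e : ℕ) (x : ℝ) : 0 ≤ VV e x := by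
  unfold VV
  exact measureReal_nonneg

private theorem WTail_VV_le {e : ℕ} (he : e ≤ 1) (x : ℝ) : VV e x ≤ 1 := by
  obtain ⟨C, hC⟩ := cut_nu
  have := (hC e he).prob
  unfold VV
  exact measureReal_le_one

/-- the moment constant -/
private theorem WTail_mom (B : ℕ) : ∃ M : ℝ, 0 < M ∧ ∀ e : ℕ, e ≤ 1 → ∀ x : ℝ, 0 < x →
    VV e x ≤ M / x ^ (2 * B) := by
  obtain ⟨C, hC⟩ := cut_nu
  have hn : ∀ e : ℕ, 0 ≤ ∫ r, r ^ (2 * B) ∂(nu e) := fun e =>
    integral_nonneg fun r => Even.pow_nonneg (even_two_mul B) r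
  refine ⟨(∫ r, r ^ (2 * B) ∂(nu 0)) + (∫ r, r ^ (2 * B) ∂(nu 1)) + 1, ?_, fun e he x hx => ?_⟩
  · have h0 := hn 0
    have h1 := hn 1
    linarith
  · refine (WTail_markov (hC e he) B x hx).trans ?_
    refine div_le_div_of_nonneg_right ?_ (by positivity)
    have h0 := hn 0
    have h1 := hn 1
    interval_cases e
    · linarith
    · linarith

private theorem WTail_PW_le_VV {q e n : ℕ} (hn : 1 ≤ n) : PW q e n ≤ VV e (n / √q) := by
  unfold PW
  have h1 : (1 : ℝ) ≤ √n := by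
    rw [Real.one_le_sqrt]
    exact_mod_cast hn
  exact div_le_self (WTail_VV_nonneg e _) h1

/-- Proof. `nu e` is a probability measure (`cut_nu`, `Cut.prob`). -/
theorem PW_nonneg (q e n : ℕ) : 0 ≤ PW q e n := by
  unfold PW
  exact div_nonneg (WTail_VV_nonneg e _) (Real.sqrt_nonneg _)

theorem PW_le {q e : ℕ} (he : e ≤ 1) (n : ℕ) : PW q e n ≤ 1 / √n := by
  unfold PW
  exact div_le_div_of_nonneg_right (WTail_VV_le he _) (Real.sqrt_nonneg _)

/-- Proof. `VV e` is antitone, `1 / √n` is antitone for `n ≥ 1`. -/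
theorem PW_anti {q e : ℕ} (he : e ≤ 1) {m n : ℕ} (hm : 1 ≤ m) (hmn : m ≤ n) :
    PW q e n ≤ PW q e m := by
  obtain ⟨C, hC⟩ := cut_nu
  have := (hC e he).prob
  have hmn' : (m : ℝ) ≤ n := by exact_mod_cast hmn
  have hm' : (0 : ℝ) < m := by exact_mod_cast hm
  have h1 : VV e (n / √q) ≤ VV e (m / √q) := by
    unfold VV
    refine measureReal_mono (Set.Ioi_subset_Ioi ?_)
    exact div_le_div_of_nonneg_right hmn' (Real.sqrt_nonneg _)
  unfold PW
  exact div_le_div₀ (WTail_VV_nonneg e _) h1 (Real.sqrt_pos.2 hm') (Real.sqrt_le_sqrt hmn')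

/-- The weight at `1` and `2` is almost `1 / √n`.

Proof. `VV e x = 1 - (nu e).real (Iic x) ≥ 1 - C √x` for `0 < x ≤ 1` (`cut_nu`, `Cut.ball`), with
`x = n / √q`, `n ≤ 2`. -/
theorem PW_ge : ∃ q₀ : ℕ, ∀ q : ℕ, q₀ ≤ q → ∀ e : ℕ, e ≤ 1 → ∀ n : ℕ, 1 ≤ n → n ≤ 2 →
    99 / 100 / √n ≤ PW q e n := by
  obtain ⟨C, hC⟩ := cut_nu
  obtain ⟨K, hK⟩ : ∃ K : ℝ, K = 100 * (|C| + 1) := ⟨_, rfl⟩
  have hK0 : 0 < K := by rw [hK]; positivity
  have hK1 : 1 ≤ K := by rw [hK]; linarith [abs_nonneg C]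
  refine ⟨⌈4 * K ^ 4⌉₊, fun q hq e he n hn1 hn2 => ?_⟩
  have := (hC e he).prob
  have hq' : 4 * K ^ 4 ≤ q := (Nat.le_ceil _).trans (by exact_mod_cast hq)
  have hsq : 2 * K ^ 2 ≤ √q := by
    refine Real.le_sqrt_of_sq_le ?_
    have h1 : (2 * K ^ 2) ^ 2 = 4 * K ^ 4 := by ring
    rw [h1]
    exact hq'
  have hsq0 : 0 < √(q : ℝ) := lt_of_lt_of_le (by positivity) hsq
  have hn1' : (1 : ℝ) ≤ n := by exact_mod_cast hn1
  have hn2' : (n : ℝ) ≤ 2 := by exact_mod_cast hn2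
  have hx0 : 0 < (n : ℝ) / √q := div_pos (by linarith) hsq0
  have hx1 : (n : ℝ) / √q ≤ (1 / K) ^ 2 := by
    rw [div_le_iff₀ hsq0]
    have h1 : (1 / K) ^ 2 * (2 * K ^ 2) = 2 := by
      field_simp
    have h2 : (1 / K) ^ 2 * (2 * K ^ 2) ≤ (1 / K) ^ 2 * √q :=
      mul_le_mul_of_nonneg_left hsq (by positivity)
    linarith
  have hK2 : 1 / K ≤ 1 := by
    rw [div_le_one hK0]
    exact hK1
  have hx2 : (n : ℝ) / √q ≤ 1 := hx1.trans (pow_le_one₀ (by positivity) hK2)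
  have hb := (hC e he).ball _ hx0 hx2
  have hs : √((n : ℝ) / √q) ≤ 1 / K := by
    rw [Real.sqrt_le_left (by positivity)]
    exact hx1
  have hb2 : (nu e).real (Set.Iic ((n : ℝ) / √q)) ≤ 1 / 100 := by
    refine hb.trans ?_
    have h1 : C * √((n : ℝ) / √q) ≤ |C| * (1 / K) :=
      mul_le_mul (le_abs_self C) hs (Real.sqrt_nonneg _) (abs_nonneg C)
    have h2 : |C| * (1 / K) ≤ 1 / 100 := by
      rw [mul_one_div, div_le_iff₀ hK0, hK]
      linarith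
    linarith
  have hV : 99 / 100 ≤ VV e (n / √q) := by
    unfold VV
    have h1 := probReal_compl_eq_one_sub (μ := nu e) (s := Set.Iic ((n : ℝ) / √q))
      measurableSet_Iic
    rw [Set.compl_Iic] at h1
    rw [h1]
    linarith
  unfold PW
  exact div_le_div_of_nonneg_right hV (Real.sqrt_nonneg _)

/-- The far tail.

Proof. Markov: `VV e x ≤ M_A / x ^ A` with `M_A = ∫ r^A d(nu e)` (`Cut.mom`, as in `First_markov`;
take the maximum for `e = 0, 1`). For `n ≥ q^(1/2+θ)` and `A ≥ 2 + (1 + θ) / θ + ...`: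
`PW q e n ≤ M_A (√q / n)^A ≤ M_A (√q / n)^(A-2) q / n² ≤ M_A q^(-θ (A-2)) q / n²
≤ M_A q^(-1/2) / n²` if `θ (A - 2) ≥ 3 / 2`; `∑ 1 / n² ≤ 2`. -/
theorem far {θ : ℝ} (hθ : 0 < θ) : ∃ C : ℝ, 0 < C ∧ ∀ q e : ℕ, 1 ≤ q → e ≤ 1 →
    Summable (fun n : ℕ => if (q : ℝ) ^ (1 / 2 + θ) ≤ n then PW q e n else 0) ∧
    ∑' n : ℕ, (if (q : ℝ) ^ (1 / 2 + θ) ≤ n then PW q e n else 0) ≤
      C * (q : ℝ) ^ (-(1 / 2) : ℝ) := by
  obtain ⟨B, hB⟩ : ∃ B : ℕ, 3 / 2 ≤ θ * (2 * (B : ℝ)) := by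
    obtain ⟨B, hB⟩ := exists_nat_ge (3 / 4 / θ)
    refine ⟨B, ?_⟩
    rw [div_le_iff₀ hθ] at hB
    linarith
  obtain ⟨M, hM, hVM⟩ := WTail_mom (B + 1)
  refine ⟨2 * M, by positivity, fun q e hq he => ?_⟩
  have hq1 : (1 : ℝ) ≤ q := by exact_mod_cast hq
  have hq0 : (0 : ℝ) < q := by linarith
  have hsq : 0 < √(q : ℝ) := Real.sqrt_pos.2 hq0
  have key : ∀ n : ℕ, (if (q : ℝ) ^ (1 / 2 + θ) ≤ n then PW q e n else 0) ≤
      M * (q : ℝ) ^ (-(1 / 2) : ℝ) * (1 / (n : ℝ) ^ 2) := by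
    intro n
    split_ifs with h
    · have hn0 : (0 : ℝ) < n := lt_of_lt_of_le (by positivity) h
      have hn1 : 1 ≤ n := by
        have : 0 < n := by exact_mod_cast hn0
        omega
      refine (WTail_PW_le_VV hn1).trans ?_
      refine (hVM e he _ (by positivity)).trans ?_
      have e1 : M / ((n : ℝ) / √q) ^ (2 * (B + 1)) =
          M * ((√q / n) ^ 2 * (√q / n) ^ (2 * B)) := by
        have e2 : 2 * (B + 1) = 2 + 2 * B := by ring
        rw [e2, ← pow_add, div_eq_mul_inv, ← inv_pow, inv_div]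
      have e3 : (√(q : ℝ) / n) ^ 2 = q * (1 / (n : ℝ) ^ 2) := by
        rw [div_pow, Real.sq_sqrt hq0.le]
        ring
      have e4 : √(q : ℝ) / n ≤ (q : ℝ) ^ (-θ) := by
        rw [div_le_iff₀ hn0]
        have e5 : (q : ℝ) ^ (-θ) * (q : ℝ) ^ (1 / 2 + θ) = √q := by
          rw [← Real.rpow_add hq0, Real.sqrt_eq_rpow]
          congr 1
          ring
        rw [← e5]
        exact mul_le_mul_of_nonneg_left h (by positivity)
      have e6 : (√(q : ℝ) / n) ^ (2 * B) ≤ (q : ℝ) ^ (-(3 / 2) : ℝ) := by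
        refine (pow_le_pow_left₀ (by positivity) e4 (2 * B)).trans ?_
        rw [← Real.rpow_natCast, ← Real.rpow_mul hq0.le]
        refine Real.rpow_le_rpow_of_exponent_le hq1 ?_
        push_cast
        linarith
      rw [e1, e3]
      have e7 : (q : ℝ) ^ (-(1 / 2) : ℝ) = q * (q : ℝ) ^ (-(3 / 2) : ℝ) := by
        nth_rewrite 2 [← Real.rpow_one (q : ℝ)]
        rw [← Real.rpow_add hq0]
        congr 1
        norm_num
      rw [e7]
      have e8 : (q : ℝ) * (1 / (n : ℝ) ^ 2) * (√(q : ℝ) / n) ^ (2 * B) ≤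
          q * (1 / (n : ℝ) ^ 2) * (q : ℝ) ^ (-(3 / 2) : ℝ) :=
        mul_le_mul_of_nonneg_left e6 (by positivity)
      calc M * (q * (1 / (n : ℝ) ^ 2) * (√(q : ℝ) / n) ^ (2 * B))
          ≤ M * (q * (1 / (n : ℝ) ^ 2) * (q : ℝ) ^ (-(3 / 2) : ℝ)) :=
            mul_le_mul_of_nonneg_left e8 hM.le
        _ = M * (q * (q : ℝ) ^ (-(3 / 2) : ℝ)) * (1 / (n : ℝ) ^ 2) := by ring
    · positivity
  have hpos : ∀ n : ℕ, 0 ≤ (if (q : ℝ) ^ (1 / 2 + θ) ≤ n then PW q e n else 0) := by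
    intro n
    split_ifs
    · exact PW_nonneg q e n
    · exact le_rfl
  have hz := hasSum_zeta_two
  have hs2 : Summable fun n : ℕ => M * (q : ℝ) ^ (-(1 / 2) : ℝ) * (1 / (n : ℝ) ^ 2) :=
    hz.summable.mul_left _
  have hs1 := Summable.of_nonneg_of_le hpos key hs2
  refine ⟨hs1, ?_⟩
  refine (Summable.tsum_le_tsum key hs1 hs2).trans ?_
  rw [tsum_mul_left, hz.tsum_eq]
  have hpi : Real.pi ^ 2 / 6 ≤ 2 := by
    have h1 := Real.pi_lt_d2
    have h2 := Real.pi_pos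
    nlinarith
  have h3 : 0 ≤ M * (q : ℝ) ^ (-(1 / 2) : ℝ) := by positivity
  calc M * (q : ℝ) ^ (-(1 / 2) : ℝ) * (Real.pi ^ 2 / 6)
      ≤ M * (q : ℝ) ^ (-(1 / 2) : ℝ) * 2 := mul_le_mul_of_nonneg_left hpi h3
    _ = 2 * M * (q : ℝ) ^ (-(1 / 2) : ℝ) := by ring

/-- The series of the approximate functional equation converges absolutely.

Proof. `VV e x ≤ C x^(-2)` for `x > 0` (moments of `nu e`: `cut_nu`, `Cut.mom`, Markov as in
`First_markov`), so the term is at most `C q / n^(5/2)`. -/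
theorem summable_PW {q : ℕ} [NeZero q] {e : ℕ} (he : e ≤ 1) :
    Summable (fun n : ℕ => |PW q e n|) := by
  obtain ⟨M, hM, hVM⟩ := WTail_mom 1
  have hq0 : (0 : ℝ) < q := by exact_mod_cast Nat.pos_of_ne_zero (NeZero.ne q)
  have hs : Summable fun n : ℕ => M * q * (1 / (n : ℝ) ^ 2) :=
    hasSum_zeta_two.summable.mul_left _
  refine Summable.of_nonneg_of_le (fun n => abs_nonneg _) (fun n => ?_) hs
  rw [abs_of_nonneg (PW_nonneg q e n)]
  rcases Nat.eq_zero_or_pos n with rfl | hn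
  · simp [PW]
  · have hn0 : (0 : ℝ) < n := by exact_mod_cast hn
    refine (WTail_PW_le_VV hn).trans ?_
    refine (hVM e he _ (by positivity)).trans (le_of_eq ?_)
    rw [mul_one, div_pow, Real.sq_sqrt hq0.le]
    field_simp

end Pool.Agent.NVW
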