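import Pool.Agent.Lib.MP_afd523_nt_W.WLin
import Pool.Agent.Lib.MP_afd523_nt_W.WAbel
import Pool.Agent.Lib.MP_afd523_nt_W.WTail

set_option autoImplicit false

/-!
Project W: the smoothed sum over one residue class.
-/

namespace Pool.Agent.NVW

open Finset Complex MeasureTheory Pool.Agent.NV

/-- The smoothed sum of `ψ` over the residue class of `u` modulo `p ^ j`. -/
noncomputable def CS {p k : ℕ} (ψ : DirichletCharacter ℂ (p ^ k)) (j e : ℕ) (u : ZMod (p ^ j)) :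
    ℂ :=
  ∑' n : ℕ, (if (n : ZMod (p ^ j)) = u then (PW (p ^ k) e n : ℂ) * ψ (n : ZMod (p ^ k)) else 0)

/-- The sum over one class, from bounds for the partial sums.

Proof. The `n` with `n = u` modulo `p^j` are the numbers `u + p^j t`, `t ≥ 0` (`0 < u < p^j`). The
term `t = 0` is `PW u ψ u`. For the terms `t + 1`, `t < N`, apply `abel_le` with
`f t = ft ψ j (u + p^j) t`, `W t = PW (p^k) e (u + p^j (t + 1))`, `d = p^j` (`PW_anti`, `PW_le`,
and `u + p^j (t+1) ≥ p^j (t + 1)`). The terms with `t ≥ N` have `n ≥ p^j (N + 1) ≥ q^(1/2+θ)`, so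
their sum is at most the far tail (`far`). -/
theorem class_sum {θ : ℝ} (hθ : 0 < θ) : ∃ C : ℝ, 0 < C ∧ ∀ (p j k e : ℕ) [Fact p.Prime],
    1 ≤ j → j ≤ k → e ≤ 1 → ∀ (ψ : DirichletCharacter ℂ (p ^ k)) (u : ℕ), 0 < u → u < p ^ j →
    ∀ (N : ℕ) (η : ℝ), 0 ≤ η → ((p : ℝ) ^ k) ^ (1 / 2 + θ) ≤ (p : ℝ) ^ j * (N + 1) →
    (∀ t, t ≤ N → ‖∑ s ∈ range t, ft ψ j (u + p ^ j) s‖ ≤ η * √((p : ℝ) ^ j * t)) →
    ‖CS ψ j e (u : ZMod (p ^ j)) - (PW (p ^ k) e u : ℂ) * ψ (u : ZMod (p ^ k))‖ ≤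
      η * (1 + Real.log N) + C * ((p : ℝ) ^ k) ^ (-(1 / 2) : ℝ) := by
  obtain ⟨C, hC, hfar⟩ := far hθ
  refine ⟨C, hC, ?_⟩
  intro p j k e hp hj hjk he ψ u hu hup N η hη hN hS
  have hpp : p.Prime := hp.out
  have hp0 : 0 < p := hpp.pos
  have hpj : 0 < p ^ j := pow_pos hp0 j
  have : NeZero (p ^ k) := ⟨pow_ne_zero _ hpp.ne_zero⟩
  have : NeZero (p ^ j) := ⟨pow_ne_zero _ hpp.ne_zero⟩
  have hq1 : 1 ≤ p ^ k := Nat.one_le_pow _ _ hp0
  obtain ⟨hfs, hft⟩ := hfar (p ^ k) e hq1 he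
  have hcast : ((p ^ k : ℕ) : ℝ) = (p : ℝ) ^ k := by push_cast; ring
  rw [hcast] at hfs hft
  obtain ⟨a, ha⟩ : ∃ a : ℕ → ℂ, ∀ n : ℕ,
      a n = (PW (p ^ k) e n : ℂ) * ψ (n : ZMod (p ^ k)) := ⟨_, fun n => rfl⟩
  have han : ∀ n : ℕ, ‖a n‖ ≤ PW (p ^ k) e n := by
    intro n
    rw [ha, norm_mul, Complex.norm_real, Real.norm_of_nonneg (PW_nonneg _ _ _)]
    exact mul_le_of_le_one_right (PW_nonneg _ _ _) (DirichletCharacter.norm_le_one ψ _)
  have has : Summable a := by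
    refine Summable.of_norm_bounded (summable_PW (q := p ^ k) he) fun n => ?_
    exact (han n).trans (le_abs_self _)
  have hinj : Function.Injective (fun t : ℕ => u + p ^ j * t) := by
    intro s t hst
    have h1 : p ^ j * s = p ^ j * t := Nat.add_left_cancel hst
    exact Nat.eq_of_mul_eq_mul_left hpj h1
  have hCS : CS ψ j e (u : ZMod (p ^ j)) = ∑' t : ℕ, a (u + p ^ j * t) := by
    unfold CS
    rw [← hinj.tsum_eq (f := fun n : ℕ => (if (n : ZMod (p ^ j)) = (u : ZMod (p ^ j)) then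
      (PW (p ^ k) e n : ℂ) * ψ (n : ZMod (p ^ k)) else 0))]
    · refine tsum_congr fun t => ?_
      have h1 : (((u + p ^ j * t : ℕ)) : ZMod (p ^ j)) = (u : ZMod (p ^ j)) := by
        rw [ZMod.natCast_eq_natCast_iff]
        simp [Nat.ModEq]
      show (if (((u + p ^ j * t : ℕ)) : ZMod (p ^ j)) = (u : ZMod (p ^ j)) then _ else _) = _
      rw [if_pos h1, ha]
    · intro n hn
      have h1 : (n : ZMod (p ^ j)) = (u : ZMod (p ^ j)) := by
        by_contra h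
        exact hn (if_neg h)
      rw [ZMod.natCast_eq_natCast_iff] at h1
      have h2 : n % p ^ j = u := by
        have h3 : n % p ^ j = u % p ^ j := h1
        rw [h3, Nat.mod_eq_of_lt hup]
      refine ⟨n / p ^ j, ?_⟩
      show u + p ^ j * (n / p ^ j) = n
      have h4 := Nat.mod_add_div n (p ^ j)
      rw [h2] at h4
      exact h4
  have hb : Summable (fun t : ℕ => a (u + p ^ j * t)) := has.comp_injective hinj
  have hsplit := hb.sum_add_tsum_nat_add (N + 1)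
  rw [hCS, ← hsplit, Finset.sum_range_succ']
  have h0 : a (u + p ^ j * 0) = (PW (p ^ k) e u : ℂ) * ψ (u : ZMod (p ^ k)) := by
    rw [ha, Nat.mul_zero, Nat.add_zero]
  rw [h0]
  have hrw : ∀ A B T : ℂ, A + B + T - B = A + T := by intro A B T; ring
  rw [hrw]
  refine (norm_add_le _ _).trans (add_le_add ?_ ?_)
  · obtain ⟨W, hW⟩ : ∃ W : ℕ → ℝ, ∀ t, W t = PW (p ^ k) e (u + p ^ j * (t + 1)) :=
      ⟨_, fun t => rfl⟩
    have hd : (0 : ℝ) < (p : ℝ) ^ j := by positivity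
    have hmain := abel_le (fun t => ft ψ j (u + p ^ j) t) W hd hη N
      (fun t => by rw [hW]; exact PW_nonneg _ _ _)
      (fun s t hst => by
        rw [hW, hW]
        refine PW_anti he (by omega) ?_
        have : p ^ j * (s + 1) ≤ p ^ j * (t + 1) := Nat.mul_le_mul_left _ (by omega)
        omega)
      (fun t => by
        rw [hW]
        refine (PW_le he _).trans ?_
        refine one_div_le_one_div_of_le (Real.sqrt_pos.2 (by positivity)) ?_
        refine Real.sqrt_le_sqrt ?_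
        push_cast
        have : (0 : ℝ) ≤ (u : ℝ) := Nat.cast_nonneg u
        linarith) hS
    refine le_trans (le_of_eq ?_) hmain
    congr 1
    refine Finset.sum_congr rfl fun t _ => ?_
    rw [ha, hW]
    unfold ft
    congr 3
    ring
  · have hF : ∀ n : ℕ, 0 ≤ (if ((p : ℝ) ^ k) ^ (1 / 2 + θ) ≤ n then PW (p ^ k) e n else 0) := by
      intro n
      split_ifs
      · exact PW_nonneg _ _ _
      · exact le_rfl
    have hinj2 : Function.Injective (fun t : ℕ => u + p ^ j * (t + (N + 1))) := by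
      intro s t hst
      have h1 := hinj (a₁ := s + (N + 1)) (a₂ := t + (N + 1)) hst
      exact Nat.add_right_cancel h1
    have hle : ∀ t : ℕ, ‖a (u + p ^ j * (t + (N + 1)))‖ ≤
        (if ((p : ℝ) ^ k) ^ (1 / 2 + θ) ≤ ((u + p ^ j * (t + (N + 1)) : ℕ) : ℝ) then
          PW (p ^ k) e (u + p ^ j * (t + (N + 1))) else 0) := by
      intro t
      have h1 : ((p : ℝ) ^ k) ^ (1 / 2 + θ) ≤ ((u + p ^ j * (t + (N + 1)) : ℕ) : ℝ) := by
        refine hN.trans ?_
        push_cast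
        have h2 : (0 : ℝ) ≤ (u : ℝ) := Nat.cast_nonneg u
        have h3 : (0 : ℝ) ≤ (p : ℝ) ^ j * t := by positivity
        nlinarith
      rw [if_pos h1]
      exact han _
    have hs2 : Summable (fun t : ℕ =>
        (if ((p : ℝ) ^ k) ^ (1 / 2 + θ) ≤ ((u + p ^ j * (t + (N + 1)) : ℕ) : ℝ) then
          PW (p ^ k) e (u + p ^ j * (t + (N + 1))) else 0)) := hfs.comp_injective hinj2
    have hs1 : Summable (fun t : ℕ => ‖a (u + p ^ j * (t + (N + 1)))‖) :=
      Summable.of_nonneg_of_le (fun _ => norm_nonneg _) hle hs2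
    calc ‖∑' t : ℕ, a (u + p ^ j * (t + (N + 1)))‖
        ≤ ∑' t : ℕ, ‖a (u + p ^ j * (t + (N + 1)))‖ := norm_tsum_le_tsum_norm hs1
      _ ≤ ∑' t : ℕ,
          (if ((p : ℝ) ^ k) ^ (1 / 2 + θ) ≤ ((u + p ^ j * (t + (N + 1)) : ℕ) : ℝ) then
            PW (p ^ k) e (u + p ^ j * (t + (N + 1))) else 0) := hs1.tsum_le_tsum hle hs2
      _ ≤ ∑' n : ℕ, (if ((p : ℝ) ^ k) ^ (1 / 2 + θ) ≤ n then PW (p ^ k) e n else 0) :=
          tsum_comp_le_tsum_of_inj hfs hF hinj2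
      _ ≤ C * ((p : ℝ) ^ k) ^ (-(1 / 2) : ℝ) := hft

end Pool.Agent.NVW
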