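import Pool.Agent.Lib.MP_afd523_nt_W.WLin

set_option autoImplicit false

/-!
Project W: the ratios lie on a coset of the roots of unity.
-/

namespace Pool.Agent.NVW

open Finset Complex MeasureTheory Pool.Agent.NV

private theorem WCos_unit2 {p k j i u : ℕ} [Fact p.Prime] (hp2 : p ≠ 2) (hj : 1 ≤ j)
    (hu : u.Coprime p) (h t t' : ℕ) :
    IsUnit (x0 p k j u t + x0 p k j u t' + (p : ZMod (p ^ k)) ^ (j + i) * h) := by
  have hp : p.Prime := Fact.out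
  have e : x0 p k j u t + x0 p k j u t' + (p : ZMod (p ^ k)) ^ (j + i) * h =
      ((2 * u + p * (p ^ (j - 1) * (t + t') + p ^ (j + i - 1) * h) : ℕ) : ZMod (p ^ k)) := by
    obtain ⟨j', rfl⟩ : ∃ j', j = j' + 1 := ⟨j - 1, by omega⟩
    have h1 : j' + 1 + i - 1 = j' + i := by omega
    rw [h1]
    simp only [x0, Nat.add_sub_cancel]
    push_cast
    ring
  rw [e, ZMod.isUnit_iff_coprime]
  refine Nat.Coprime.pow_right k ?_
  rw [Nat.coprime_add_mul_left_left]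
  refine Nat.Coprime.mul_left ?_ hu
  exact (Nat.coprime_primes Nat.prime_two hp).2 (Ne.symm hp2)

private theorem WCos_pow {p k S b : ℕ} [Fact p.Prime] (hk : k = S + b) (hS : k ≤ 2 * S)
    (ψ : DirichletCharacter ℂ (p ^ k)) (a : ZMod (p ^ k)) :
    ψ (1 + (p : ZMod (p ^ k)) ^ S * a) = ψ (1 + (p : ZMod (p ^ k)) ^ S) ^ a.val := by
  have h := psi_pow hS ψ 1 a.val
  have hv : ((a.val : ℕ) : ZMod (p ^ k)) = a := ZMod.natCast_zmod_val a
  rw [one_mul, hv, mul_one] at h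
  exact h

private theorem pow_mod_natCard_WCos {n : ℕ} {ζ : ℂ} (h : IsPrimitiveRoot ζ n) (a : ℕ) :
    ζ ^ (a % n) = ζ ^ a := by
  conv_rhs => rw [← Nat.mod_add_div a n, pow_add, pow_mul, h.pow_eq_one, one_pow, mul_one]

/-- The comparison of two points. -/
private theorem WCos_cmp {p k j i m b u : ℕ} [Fact p.Prime] (hp2 : p ≠ 2) (hj : 1 ≤ j)
    (hbm : b ≤ m) (hk : k = 3 * j + i + m + b) (hu : u.Coprime p)
    (ψ : DirichletCharacter ℂ (p ^ k)) (h t t' : ℕ) :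
    ∃ ν : ZMod (p ^ k), IsUnit ν ∧ zz ψ j i m u h t = zz ψ j i m u h t' *
      ψ (1 + (p : ZMod (p ^ k)) ^ (3 * j + i + m)) ^
        ((h : ZMod (p ^ k)) * ((t : ZMod (p ^ k)) - t') * ν).val := by
  obtain ⟨hx, hy⟩ := x0_unit (k := k) (i := i) hj hu h t
  obtain ⟨hx', hy'⟩ := x0_unit (k := k) (i := i) hj hu h t'
  have h2 := WCos_unit2 (k := k) (i := i) hp2 hj hu h t t'
  have ex := ZMod.mul_inv_of_unit _ hx
  have ey := ZMod.mul_inv_of_unit _ hy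
  have ex' := ZMod.mul_inv_of_unit _ hx'
  have ey' := ZMod.mul_inv_of_unit _ hy'
  have hdiff : x0 p k j u t - x0 p k j u t' =
      (p : ZMod (p ^ k)) ^ j * ((t : ZMod (p ^ k)) - t') := by
    simp only [x0]
    push_cast
    ring
  set x := x0 p k j u t with hxd
  set x' := x0 p k j u t' with hxd'
  set D : ZMod (p ^ k) := (p : ZMod (p ^ k)) ^ (j + i) * h with hD
  have ux : IsUnit x⁻¹ := IsUnit.of_mul_eq_one_right _ ex
  have uy : IsUnit (x + D)⁻¹ := IsUnit.of_mul_eq_one_right _ ey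
  have ux' : IsUnit x'⁻¹ := IsUnit.of_mul_eq_one_right _ ex'
  have uy' : IsUnit (x' + D)⁻¹ := IsUnit.of_mul_eq_one_right _ ey'
  refine ⟨(x + x' + D) * (x⁻¹ * (x + D)⁻¹ * (x'⁻¹ * (x' + D)⁻¹)),
    h2.mul ((ux.mul uy).mul (ux'.mul uy')), ?_⟩
  rw [← WCos_pow (b := b) (by omega) (by omega)]
  have key : -(h : ZMod (p ^ k)) * x⁻¹ * (x + D)⁻¹ = -(h : ZMod (p ^ k)) * x'⁻¹ * (x' + D)⁻¹ +
      (p : ZMod (p ^ k)) ^ j * ((h : ZMod (p ^ k)) * ((t : ZMod (p ^ k)) - t') *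
        ((x + x' + D) * (x⁻¹ * (x + D)⁻¹ * (x'⁻¹ * (x' + D)⁻¹)))) := by
    have e1 : (p : ZMod (p ^ k)) ^ j * ((h : ZMod (p ^ k)) * ((t : ZMod (p ^ k)) - t') *
        ((x + x' + D) * (x⁻¹ * (x + D)⁻¹ * (x'⁻¹ * (x' + D)⁻¹)))) =
        (h : ZMod (p ^ k)) * ((x - x') * (x + x' + D)) *
          (x⁻¹ * (x + D)⁻¹ * (x'⁻¹ * (x' + D)⁻¹)) := by
      rw [hdiff]
      ring
    rw [e1]
    have e2 : (x - x') * (x + x' + D) = x * (x + D) - x' * (x' + D) := by ring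
    rw [e2]
    linear_combination
      (-(h : ZMod (p ^ k)) * (x + D) * (x + D)⁻¹ * x'⁻¹ * (x' + D)⁻¹) * ex -
      ((h : ZMod (p ^ k)) * x'⁻¹ * (x' + D)⁻¹) * ey +
      ((h : ZMod (p ^ k)) * (x' + D) * (x' + D)⁻¹ * x⁻¹ * (x + D)⁻¹) * ex' +
      ((h : ZMod (p ^ k)) * x⁻¹ * (x + D)⁻¹) * ey'
  have hs : k ≤ 2 * (2 * j + i + m) := by omega
  have := psi_add hs ψ (-(h : ZMod (p ^ k)) * x'⁻¹ * (x' + D)⁻¹)
    ((p : ZMod (p ^ k)) ^ j * ((h : ZMod (p ^ k)) * ((t : ZMod (p ^ k)) - t') *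
        ((x + x' + D) * (x⁻¹ * (x + D)⁻¹ * (x'⁻¹ * (x' + D)⁻¹)))))
  rw [← key] at this
  have hpw : (p : ZMod (p ^ k)) ^ (3 * j + i + m) =
      (p : ZMod (p ^ k)) ^ (2 * j + i + m) * (p : ZMod (p ^ k)) ^ j := by
    rw [← pow_add]
    congr 1
    omega
  rw [hpw, mul_assoc]
  exact this

/-- The ratios lie on one coset of the group of the roots of unity of order `p^b`.

Proof. `w(t) = (x₀ (x₀ + D))⁻¹`, `w(t) - w(0) = -(x₀(t) - x₀(0)) (x₀(t) + x₀(0) + D) w(t) w(0)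
= -p^j t ν`, with a unit `ν` (`p` odd, `x₀(t) + x₀(0) + D ≡ 2 u`). So by `psi_add`
(`s = 2 j + i + m`) `zz t = zz 0 * ψ (1 + p^(3j+i+m) (h t ν))`, and
`ψ (1 + p^(3j+i+m) y) = ζ ^ (y.val)` (`psi_pow`), `ζ = ψ (1 + p^(3j+i+m))` a primitive root of
order `p^b` (`psi_root`, `k - (3j+i+m) = b`). The exponent is `h t ν`, `ν.val` mod `p^b`; two
numbers `t, t'` have the same value iff `p^b ∣ h (t - t')` (the same argument with `t'` in place
of `0`: the unit `ν` then depends on both). -/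
theorem zz_coset {p k j i m b u : ℕ} [Fact p.Prime] (hp2 : p ≠ 2) (hj : 1 ≤ j) (hbm : b ≤ m)
    (hk : k = 3 * j + i + m + b) (hu : u.Coprime p) {ψ : DirichletCharacter ℂ (p ^ k)}
    (hψ : ψ.IsPrimitive) (h : ℕ) :
    ∃ z ζ : ℂ, ‖z‖ = 1 ∧ IsPrimitiveRoot ζ (p ^ b) ∧
      (∀ t, ∃ r, r < p ^ b ∧ zz ψ j i m u h t = z * ζ ^ r) ∧
      ∀ t t' : ℕ, zz ψ j i m u h t = zz ψ j i m u h t' → (p ^ b : ℤ) ∣ h * ((t : ℤ) - t') := by
  have hp : p.Prime := Fact.out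
  have hz : ∀ t, ‖zz ψ j i m u h t‖ = 1 := by
    intro t
    have hs : k ≤ 2 * (2 * j + i + m) := by omega
    refine norm_eq_one_of_pow_eq_one (n := p ^ k) ?_ (pow_pos hp.pos k).ne'
    rw [zz, ← psi_pow hs]
    have : ((p ^ k : ℕ) : ZMod (p ^ k)) = 0 := ZMod.natCast_self _
    rw [this, mul_zero, mul_zero, add_zero, map_one]
  have hroot : IsPrimitiveRoot (ψ (1 + (p : ZMod (p ^ k)) ^ (3 * j + i + m))) (p ^ b) := by
    have h1 := psi_root (s := 3 * j + i + m) (by omega) (by omega) (by omega) hψ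
    have h2 : k - (3 * j + i + m) = b := by omega
    rwa [h2] at h1
  refine ⟨zz ψ j i m u h 0, ψ (1 + (p : ZMod (p ^ k)) ^ (3 * j + i + m)), hz 0, hroot, ?_, ?_⟩
  · intro t
    obtain ⟨ν, -, hν⟩ := WCos_cmp hp2 hj hbm hk hu ψ h t 0
    refine ⟨((h : ZMod (p ^ k)) * ((t : ZMod (p ^ k)) - ((0 : ℕ) : ZMod (p ^ k))) * ν).val %
      p ^ b, Nat.mod_lt _ (pow_pos hp.pos b), ?_⟩
    rw [hν, pow_mod_natCard_WCos hroot]
  · intro t t' htt
    obtain ⟨ν, hu', hν⟩ := WCos_cmp hp2 hj hbm hk hu ψ h t t'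
    rw [htt] at hν
    have hne : zz ψ j i m u h t' ≠ 0 := by
      intro h0
      have := hz t'
      rw [h0, norm_zero] at this
      exact zero_ne_one this
    have h1 : ψ (1 + (p : ZMod (p ^ k)) ^ (3 * j + i + m)) ^
        ((h : ZMod (p ^ k)) * ((t : ZMod (p ^ k)) - (t' : ZMod (p ^ k))) * ν).val = 1 := by
      have := mul_left_cancel₀ hne ((mul_one _).trans hν)
      exact this.symm
    have h2 := hroot.dvd_of_pow_eq_one _ h1
    obtain ⟨c, hc⟩ := h2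
    have h3 : (h : ZMod (p ^ k)) * ((t : ZMod (p ^ k)) - (t' : ZMod (p ^ k))) * ν =
        (p : ZMod (p ^ k)) ^ b * c := by
      have := ZMod.natCast_zmod_val
        ((h : ZMod (p ^ k)) * ((t : ZMod (p ^ k)) - (t' : ZMod (p ^ k))) * ν)
      rw [← this, hc]
      push_cast
      ring
    have h4 : (h : ZMod (p ^ k)) * ((t : ZMod (p ^ k)) - (t' : ZMod (p ^ k))) =
        (p : ZMod (p ^ k)) ^ b * (c * ν⁻¹) := by
      have e := ZMod.mul_inv_of_unit _ hu'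
      linear_combination ν⁻¹ * h3 -
        (h : ZMod (p ^ k)) * ((t : ZMod (p ^ k)) - (t' : ZMod (p ^ k))) * e
    have h5 : ((h * ((t : ℤ) - t') : ℤ) : ZMod (p ^ k)) =
        (((p : ℤ) ^ b * ((c * ν⁻¹ : ZMod (p ^ k)).val : ℤ) : ℤ) : ZMod (p ^ k)) := by
      push_cast
      rw [h4, ZMod.natCast_zmod_val]
    have h6 := (ZMod.intCast_eq_intCast_iff_dvd_sub _ _ _).1 h5
    have h7 : (p ^ b : ℤ) ∣ ((p ^ k : ℕ) : ℤ) := by
      push_cast
      exact pow_dvd_pow _ (by omega)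
    have h8 := h7.trans h6
    have h9 : (p ^ b : ℤ) ∣ (p : ℤ) ^ b * ((c * ν⁻¹ : ZMod (p ^ k)).val : ℤ) := dvd_mul_right _ _
    have := dvd_sub h9 h8
    simpa using this

end Pool.Agent.NVW
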