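import Pool.Agent.Lib.MP_afd523_nt_W.WSpace
import Pool.Agent.Lib.MP_afd523_nt_W.WCos

set_option autoImplicit false

/-!
Project W: the correlation sums.
-/

namespace Pool.Agent.NVW

open Finset Complex MeasureTheory Pool.Agent.NV

/-- A set of numbers below `n * N` which are all congruent modulo `n` has at most `N` elements. -/
private theorem WCorr_card {n N : ℕ} {S : Finset ℕ} (hS : ∀ t ∈ S, t < n * N)
    (hc : ∀ t ∈ S, ∀ t' ∈ S, (n : ℤ) ∣ (t : ℤ) - t') : S.card ≤ N := by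
  rw [← Finset.card_range N]
  refine Finset.card_le_card_of_injOn (fun t => t / n) ?_ ?_
  · intro t ht
    rw [Finset.coe_range, Set.mem_Iio]
    exact Nat.div_lt_of_lt_mul (hS t ht)
  · intro t ht t' ht' h
    simp only at h
    have h1 : t % n = t' % n := by
      have h2 : t' ≡ t [MOD n] := (Nat.modEq_iff_dvd).2 (hc t ht t' ht')
      exact h2.symm
    rw [← Nat.div_add_mod t n, ← Nat.div_add_mod t' n, h, h1]

/-- The sum over the ratios.

Proof. `z`, `ζ` from `zz_coset`. For every `r < p^b` the number of `t < p^m` with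
`zz t = z ζ^r` is at most `p^(m-b) * g`, `g = gcd (h, p^b)`: all such `t` are congruent modulo
`p^b / g` (`p^b ∣ h (t - t')` iff `p^b / g ∣ t - t'`), and `p^m = p^(m-b) g (p^b / g)`. So the sum
is at most `p^(m-b) g ∑_{r < p^b} gb L (z ζ^r)` (`Finset.sum_fiberwise` or
`Finset.sum_comp`-like arguments; the `r` with `zz t = z ζ^r` is unique); `space`. -/
theorem sum_zz {p k j i m b u : ℕ} [Fact p.Prime] (hp2 : p ≠ 2) (hj : 1 ≤ j) (hbm : b ≤ m)
    (hk : k = 3 * j + i + m + b) (hu : u.Coprime p) {ψ : DirichletCharacter ℂ (p ^ k)}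
    (hψ : ψ.IsPrimitive) (h : ℕ) {L : ℝ} (hL : 0 ≤ L) :
    ∑ t ∈ range (p ^ m), gb L (zz ψ j i m u h t) ≤
      (p : ℝ) ^ (m - b) * (Nat.gcd h (p ^ b) : ℝ) *
        (2 * L + (p : ℝ) ^ b * (1 + Real.log ((p : ℝ) ^ b))) := by
  have hp : p.Prime := Fact.out
  obtain ⟨z, ζ, hz, hζ, hr, hcong⟩ := zz_coset hp2 hj hbm hk hu hψ h
  choose r hrlt hreq using hr
  have hpb : 0 < p ^ b := pow_pos hp.pos b
  set g := Nat.gcd h (p ^ b) with hg
  have hg0 : 0 < g := Nat.gcd_pos_of_pos_right _ hpb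
  obtain ⟨n, hn⟩ : g ∣ p ^ b := Nat.gcd_dvd_right _ _
  obtain ⟨h', hh'⟩ : g ∣ h := Nat.gcd_dvd_left _ _
  have hn0 : 0 < n := by
    rcases Nat.eq_zero_or_pos n with h0 | h0
    · rw [h0, mul_zero] at hn; omega
    · exact h0
  have hcop : Nat.Coprime n h' := by
    have h1 : Nat.gcd h (p ^ b) = g * Nat.gcd h' n := by
      conv_lhs => rw [hh', hn, Nat.gcd_mul_left]
    rw [← hg] at h1
    have h2 : Nat.gcd h' n = 1 := by
      have h3 : g * Nat.gcd h' n = g * 1 := by rw [← h1, mul_one]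
      exact Nat.eq_of_mul_eq_mul_left hg0 h3
    exact (Nat.coprime_comm).1 h2
  have hmb : p ^ m = n * (p ^ (m - b) * g) := by
    have h1 : p ^ m = p ^ (m - b) * p ^ b := by
      rw [← pow_add, Nat.sub_add_cancel hbm]
    rw [h1, hn]; ring
  -- the fibres
  have hfib : ∀ s, ((range (p ^ m)).filter (fun t => r t = s)).card ≤ p ^ (m - b) * g := by
    intro s
    refine WCorr_card (n := n) ?_ ?_
    · intro t ht
      rw [Finset.mem_filter, Finset.mem_range] at ht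
      rw [← hmb]; exact ht.1
    · intro t ht t' ht'
      rw [Finset.mem_filter] at ht ht'
      have h1 : zz ψ j i m u h t = zz ψ j i m u h t' := by
        rw [hreq t, hreq t', ht.2, ht'.2]
      have h2 := hcong t t' h1
      have h3 : ((g * n : ℕ) : ℤ) ∣ ((g * h' : ℕ) : ℤ) * ((t : ℤ) - t') := by
        rw [← hn, ← hh']
        push_cast at h2 ⊢
        exact h2
      push_cast at h3
      rw [mul_assoc] at h3
      have hgz : (g : ℤ) ≠ 0 := by exact_mod_cast hg0.ne'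
      have h4 : (n : ℤ) ∣ (h' : ℤ) * ((t : ℤ) - t') := Int.dvd_of_mul_dvd_mul_left hgz h3
      have h5 : IsCoprime (n : ℤ) (h' : ℤ) := Nat.isCoprime_iff_coprime.2 hcop
      exact h5.dvd_of_dvd_mul_left h4
  calc ∑ t ∈ range (p ^ m), gb L (zz ψ j i m u h t)
      = ∑ s ∈ range (p ^ b), ∑ t ∈ (range (p ^ m)).filter (fun t => r t = s),
          gb L (zz ψ j i m u h t) :=
        (Finset.sum_fiberwise_of_maps_to (fun t _ => Finset.mem_range.2 (hrlt t)) _).symm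
    _ = ∑ s ∈ range (p ^ b), ∑ t ∈ (range (p ^ m)).filter (fun t => r t = s),
          gb L (z * ζ ^ s) := by
        refine Finset.sum_congr rfl fun s _ => Finset.sum_congr rfl fun t ht => ?_
        rw [hreq t, (Finset.mem_filter.1 ht).2]
    _ = ∑ s ∈ range (p ^ b), (((range (p ^ m)).filter (fun t => r t = s)).card : ℝ) *
          gb L (z * ζ ^ s) := by
        refine Finset.sum_congr rfl fun s _ => ?_
        rw [Finset.sum_const, nsmul_eq_mul]
    _ ≤ ∑ s ∈ range (p ^ b), ((p : ℝ) ^ (m - b) * (g : ℝ)) * gb L (z * ζ ^ s) := by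
        refine Finset.sum_le_sum fun s _ => ?_
        refine mul_le_mul_of_nonneg_right ?_ (gb_nonneg hL _).1
        have h1 := hfib s
        exact_mod_cast h1
    _ = ((p : ℝ) ^ (m - b) * (g : ℝ)) * ∑ s ∈ range (p ^ b), gb L (z * ζ ^ s) := by
        rw [Finset.mul_sum]
    _ ≤ ((p : ℝ) ^ (m - b) * (g : ℝ)) * (2 * L + (p ^ b : ℕ) * (1 + Real.log ((p ^ b : ℕ)))) := by
        refine mul_le_mul_of_nonneg_left ?_ (by positivity)
        exact space hpb hz hζ hL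
    _ = _ := by push_cast; ring

/-- The correlation sums.

Proof. Split `t = t₀ + p^m t₁`, `t₀ < p^m`, `t₁ < n(t₀)` with `n(t₀) ≤ T / p^m + 1`; `lin`,
`‖ft‖ ≤ 1`, `geo_le` with `L = T / p^m + 1`, then `sum_zz`. -/
theorem corr_le {p k j i m b u : ℕ} [Fact p.Prime] (hp2 : p ≠ 2) (hj : 1 ≤ j) (hbm : b ≤ m)
    (hk : k = 3 * j + i + m + b) (hu : u.Coprime p) {ψ : DirichletCharacter ℂ (p ^ k)}
    (hψ : ψ.IsPrimitive) (h T : ℕ) :
    ‖∑ t ∈ range T, ft ψ j u (t + h * p ^ i) * (starRingEnd ℂ) (ft ψ j u t)‖ ≤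
      (p : ℝ) ^ (m - b) * (Nat.gcd h (p ^ b) : ℝ) *
        (2 * ((T : ℝ) / (p : ℝ) ^ m + 1) + (p : ℝ) ^ b * (1 + Real.log ((p : ℝ) ^ b))) := by
  have hp : p.Prime := Fact.out
  set M := p ^ m with hM
  have hM0 : 0 < M := pow_pos hp.pos m
  set F : ℕ → ℂ := fun t => ft ψ j u (t + h * p ^ i) * (starRingEnd ℂ) (ft ψ j u t) with hF
  set L : ℝ := (T : ℝ) / (p : ℝ) ^ m + 1 with hLdef
  have hL : 0 ≤ L := by positivity
  -- number of terms of a progression
  set N : ℕ → ℕ := fun t₀ => if t₀ < T then (T - 1 - t₀) / M + 1 else 0 with hN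
  have hNiff : ∀ t₀ t₁ : ℕ, t₁ < N t₀ ↔ t₀ + M * t₁ < T := by
    intro t₀ t₁
    simp only [hN]
    split_ifs with h1
    · rw [Nat.lt_add_one_iff, Nat.le_div_iff_mul_le hM0, mul_comm t₁ M]
      omega
    · constructor
      · intro h2; omega
      · intro h2
        have : 0 ≤ M * t₁ := Nat.zero_le _
        omega
  have hNle : ∀ t₀, (N t₀ : ℝ) ≤ L := by
    intro t₀
    simp only [hN]
    split_ifs with h1
    · push_cast
      rw [hLdef]
      have h2 : (((T - 1 - t₀) / M : ℕ) : ℝ) ≤ ((T - 1 - t₀ : ℕ) : ℝ) / (M : ℝ) := Nat.cast_div_le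
      have h3 : ((T - 1 - t₀ : ℕ) : ℝ) / (M : ℝ) ≤ (T : ℝ) / (M : ℝ) := by
        have h4 : ((T - 1 - t₀ : ℕ) : ℝ) ≤ T := by exact_mod_cast (by omega : T - 1 - t₀ ≤ T)
        gcongr
      have h5 : (M : ℝ) = (p : ℝ) ^ m := by rw [hM]; push_cast; rfl
      rw [h5] at h2 h3
      linarith
    · simp only [Nat.cast_zero]; exact hL
  have hsplit : ∑ t ∈ range T, F t = ∑ t₀ ∈ range M, ∑ t₁ ∈ range (N t₀), F (t₀ + M * t₁) := by
    rw [← Finset.sum_fiberwise_of_maps_to (s := range T) (t := range M) (g := fun t => t % M)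
      (fun t _ => Finset.mem_range.2 (Nat.mod_lt t hM0))]
    refine Finset.sum_congr rfl fun t₀ ht₀ => ?_
    rw [Finset.mem_range] at ht₀
    refine Finset.sum_nbij' (fun t => t / M) (fun t₁ => t₀ + M * t₁) ?_ ?_ ?_ ?_ ?_
    · intro t ht
      rw [Finset.mem_filter, Finset.mem_range] at ht
      rw [Finset.mem_range, hNiff, ← ht.2, Nat.mod_add_div]
      exact ht.1
    · intro t₁ ht₁
      rw [Finset.mem_range, hNiff] at ht₁
      rw [Finset.mem_filter, Finset.mem_range]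
      refine ⟨ht₁, ?_⟩
      rw [Nat.add_mul_mod_self_left, Nat.mod_eq_of_lt ht₀]
    · intro t ht
      rw [Finset.mem_filter] at ht
      rw [← ht.2, Nat.mod_add_div]
    · intro t₁ _
      rw [Nat.add_mul_div_left _ _ hM0, Nat.div_eq_of_lt ht₀, zero_add]
    · intro t ht
      rw [Finset.mem_filter] at ht
      rw [← ht.2, Nat.mod_add_div]
  have hk' : k ≤ 3 * j + i + 2 * m := by omega
  obtain ⟨z, ζ, hz, hζ, hr, -⟩ := zz_coset hp2 hj hbm hk hu hψ h
  have hzz1 : ∀ t, ‖zz ψ j i m u h t‖ = 1 := by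
    intro t
    obtain ⟨r, -, hr⟩ := hr t
    have h1 : ‖ζ‖ = 1 := hζ.norm'_eq_one (pow_pos hp.pos b).ne'
    rw [hr, norm_mul, norm_pow, hz, h1, one_pow, one_mul]
  have hin : ∀ t₀ : ℕ, ‖∑ t₁ ∈ range (N t₀), F (t₀ + M * t₁)‖ ≤ gb L (zz ψ j i m u h t₀) := by
    intro t₀
    have h1 : ∑ t₁ ∈ range (N t₀), F (t₀ + M * t₁) =
        F t₀ * ∑ t₁ ∈ range (N t₀), zz ψ j i m u h t₀ ^ t₁ := by
      rw [Finset.mul_sum]
      refine Finset.sum_congr rfl fun t₁ _ => ?_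
      simp only [hF, hM]
      exact lin hj hk' hu ψ h t₀ t₁
    rw [h1, norm_mul]
    have h2 : ‖F t₀‖ ≤ 1 := by
      simp only [hF]
      rw [norm_mul, RCLike.norm_conj]
      exact mul_le_one₀ (ψ.norm_le_one _) (norm_nonneg _) (ψ.norm_le_one _)
    calc ‖F t₀‖ * ‖∑ t₁ ∈ range (N t₀), zz ψ j i m u h t₀ ^ t₁‖
        ≤ 1 * ‖∑ t₁ ∈ range (N t₀), zz ψ j i m u h t₀ ^ t₁‖ :=
          mul_le_mul_of_nonneg_right h2 (norm_nonneg _)
      _ = ‖∑ t₁ ∈ range (N t₀), zz ψ j i m u h t₀ ^ t₁‖ := one_mul _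
      _ ≤ gb L (zz ψ j i m u h t₀) := geo_le (hzz1 t₀) (N t₀) (hNle t₀)
  rw [hsplit]
  calc ‖∑ t₀ ∈ range M, ∑ t₁ ∈ range (N t₀), F (t₀ + M * t₁)‖
      ≤ ∑ t₀ ∈ range M, ‖∑ t₁ ∈ range (N t₀), F (t₀ + M * t₁)‖ := norm_sum_le _ _
    _ ≤ ∑ t₀ ∈ range M, gb L (zz ψ j i m u h t₀) := Finset.sum_le_sum fun t₀ _ => hin t₀
    _ ≤ _ := sum_zz hp2 hj hbm hk hu hψ h hL

end Pool.Agent.NVW
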