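import Pool.Agent.Lib.MP_afd523_nt.Defs

set_option autoImplicit false

/-!
Project W (MP_afd523_nt): non-vanishing of `L(1/2, χ)` in thin cosets modulo prime powers.
Definitions. Everywhere `q = p ^ k`; `nu e` is the cut-off measure of project NV.
-/

namespace Pool.Agent.NVW

open Finset Complex MeasureTheory Pool.Agent.NV

noncomputable section

/-- The root number of a character with the parity `e`. -/
def eps {q : ℕ} [NeZero q] (χ : DirichletCharacter ℂ q) (e : ℕ) : ℂ :=
  (-I) ^ e * gaussSum χ (ZMod.stdAddChar : AddChar (ZMod q) ℂ) / (√q : ℝ)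

/-- The cut-off function. -/
def VV (e : ℕ) (x : ℝ) : ℝ := (nu e).real (Set.Ioi x)

/-- The weight of `n` in the approximate functional equation. -/
def PW (q e n : ℕ) : ℝ := VV e (n / √q) / √n

/-- The twist of a character modulo `p ^ k` by a character modulo `p ^ j`. -/
def tw {p j k : ℕ} (h : j ≤ k) (ψ : DirichletCharacter ℂ (p ^ k))
    (ξ : DirichletCharacter ℂ (p ^ j)) : DirichletCharacter ℂ (p ^ k) :=
  ψ * DirichletCharacter.changeLevel (pow_dvd_pow p h) ξ

/-- The bound for a geometric sum with ratio `w` and at most `L` terms. -/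
def gb (L : ℝ) (w : ℂ) : ℝ := if ‖1 - w‖ * L ≤ 2 then L else 2 / ‖1 - w‖

end

end Pool.Agent.NVW
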