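import Mathlib

set_option autoImplicit false

/-!
Project W: the inequality of van der Corput, and a sum of greatest common divisors.
-/

namespace Pool.Agent.NVW

open Finset Complex

/-- The function of the proof of `vdc`, shifted by `M`. -/
private noncomputable def wVdcG (f : ℕ → ℂ) (T M u : ℕ) : ℂ :=
  if M ≤ u ∧ u < T + M then f (u - M) else 0

private theorem wVdcG_pos (f : ℕ → ℂ) {T M u : ℕ} (h : M ≤ u ∧ u < T + M) :
    wVdcG f T M u = f (u - M) := if_pos h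

private theorem wVdcG_neg (f : ℕ → ℂ) {T M u : ℕ} (h : ¬(M ≤ u ∧ u < T + M)) :
    wVdcG f T M u = 0 := if_neg h

private theorem wVdc_sum (f : ℕ → ℂ) {T M a : ℕ} (ha : a ≤ M) :
    ∑ s ∈ range (T + M), wVdcG f T M (s + a) = ∑ t ∈ range T, f t := by
  symm
  refine Finset.sum_of_injOn (fun t => t + (M - a)) ?_ ?_ ?_ ?_
  · intro x _ y _ hxy
    simpa using hxy
  · intro t ht
    simp only [Finset.coe_range, Set.mem_Iio] at ht ⊢
    omega
  · intro s hs hs'
    refine wVdcG_neg f fun h => hs' ⟨s + a - M, ?_, ?_⟩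
    · simp only [Finset.coe_range, Set.mem_Iio]
      omega
    · simp only
      omega
  · intro t ht
    rw [Finset.mem_range] at ht
    rw [wVdcG_pos f (by constructor <;> omega)]
    congr 1
    omega

private theorem wVdc_corr (f : ℕ → ℂ) {T M a b : ℕ} (hba : b ≤ a) (ha : a ≤ M) :
    ∑ s ∈ range (T + M), wVdcG f T M (s + a) * (starRingEnd ℂ) (wVdcG f T M (s + b)) =
      ∑ t ∈ range (T - (a - b)), f (t + (a - b)) * (starRingEnd ℂ) (f t) := by
  symm
  refine Finset.sum_of_injOn (fun t => t + (M - b)) ?_ ?_ ?_ ?_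
  · intro x _ y _ hxy
    simpa using hxy
  · intro t ht
    simp only [Finset.coe_range, Set.mem_Iio] at ht ⊢
    omega
  · intro s hs hs'
    by_cases h1 : M ≤ s + a ∧ s + a < T + M
    · by_cases h2 : M ≤ s + b ∧ s + b < T + M
      · exact absurd ⟨s + b - M, by
          simp only [Finset.coe_range, Set.mem_Iio]
          omega, by
          simp only
          omega⟩ hs'
      · rw [wVdcG_neg f h2, map_zero, mul_zero]
    · rw [wVdcG_neg f h1, zero_mul]
  · intro t ht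
    rw [Finset.mem_range] at ht
    rw [wVdcG_pos f (u := t + (M - b) + a) (by constructor <;> omega),
      wVdcG_pos f (u := t + (M - b) + b) (by constructor <;> omega)]
    congr 3 <;> omega

private theorem wVdc_row (c : ℕ → ℝ) (hc : ∀ d, 0 ≤ c d) {h H : ℕ} (hh : h < H) :
    ∑ h' ∈ range H, (if h' ≤ h then c (h - h') else c (h' - h)) ≤
      c 0 + 2 * ∑ d ∈ Ico 1 H, c d := by
  rw [Finset.range_eq_Ico, ← Finset.sum_Ico_consecutive _ (Nat.zero_le (h + 1)) hh]
  have h1 : ∑ h' ∈ Ico 0 (h + 1), (if h' ≤ h then c (h - h') else c (h' - h)) ≤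
      c 0 + ∑ d ∈ Ico 1 H, c d := by
    have e1 : ∑ h' ∈ Ico 0 (h + 1), (if h' ≤ h then c (h - h') else c (h' - h)) =
        ∑ d ∈ range (h + 1), c d := by
      rw [← Finset.range_eq_Ico, ← Finset.sum_range_reflect (fun d => c d) (h + 1)]
      refine Finset.sum_congr rfl fun x hx => ?_
      rw [Finset.mem_range] at hx
      rw [if_pos (by omega)]
      congr 1
    rw [e1, Finset.sum_range_succ', add_comm]
    refine add_le_add le_rfl ?_
    rw [Finset.range_eq_Ico, Finset.sum_Ico_add' (fun d => c d) 0 h 1]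
    refine Finset.sum_le_sum_of_subset_of_nonneg ?_ fun d _ _ => hc d
    intro d hd
    rw [Finset.mem_Ico] at hd ⊢
    omega
  have h2 : ∑ h' ∈ Ico (h + 1) H, (if h' ≤ h then c (h - h') else c (h' - h)) ≤
      ∑ d ∈ Ico 1 H, c d := by
    have e2 : ∑ h' ∈ Ico (h + 1) H, (if h' ≤ h then c (h - h') else c (h' - h)) =
        ∑ d ∈ Ico 1 (H - h), c d := by
      have e3 : ∑ d ∈ Ico 1 (H - h), c d = ∑ d ∈ Ico 1 (H - h), c (d + h - h) := by simp
      rw [e3, Finset.sum_Ico_add' (fun d => c (d - h)) 1 (H - h) h, Nat.sub_add_cancel hh.le,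
        add_comm 1 h]
      refine Finset.sum_congr rfl fun x hx => ?_
      rw [Finset.mem_Ico] at hx
      rw [if_neg (by omega)]
    rw [e2]
    refine Finset.sum_le_sum_of_subset_of_nonneg ?_ fun d _ _ => hc d
    intro d hd
    rw [Finset.mem_Ico] at hd ⊢
    omega
  linarith

/-- The inequality of van der Corput with the shifts `h P`, `h < H`.

Proof. Let `g t = f t` for `t < T` and `0` otherwise, for integers `t` (`0` for `t < 0`).
`H ∑ f = ∑_{t} ∑_{h < H} g (t + h P)`, where `t` runs over the at most `T + H P ≤ 2 T` integers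
`-(H-1) P ≤ t < T`. Cauchy-Schwarz: `H² ‖∑ f‖² ≤ 2 T ∑_t ‖∑_h g (t + h P)‖²
= 2 T ∑_{h, h'} ∑_t g (t + h P) conj g (t + h' P)`. The terms with `h = h'` give `H T` at most; a
term with `h ≠ h'` has the norm `‖∑_{t < T - |h-h'| P} f (t + |h - h'| P) conj f t‖`, and each
difference `d = |h - h'|`, `1 ≤ d < H`, occurs at most `2 H` times. Divide by `H²`. -/
theorem vdc (f : ℕ → ℂ) (hf : ∀ t, ‖f t‖ ≤ 1) {T P H : ℕ} (hH : 1 ≤ H) (hHP : H * P ≤ T) :
    ‖∑ t ∈ range T, f t‖ ^ 2 ≤ 2 * T * (T / H + 2 / H *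
      ∑ h ∈ Ico 1 H, ‖∑ t ∈ range (T - h * P), f (t + h * P) * (starRingEnd ℂ) (f t)‖) := by
  have hM : ∀ h ∈ range H, h * P ≤ (H - 1) * P := fun h hh =>
    Nat.mul_le_mul_right _ (Nat.le_sub_one_of_lt (Finset.mem_range.1 hh))
  have hMT : (H - 1) * P ≤ T := (Nat.mul_le_mul_right P (Nat.sub_le H 1)).trans hHP
  obtain ⟨M, hMdef⟩ : ∃ M, M = (H - 1) * P := ⟨_, rfl⟩
  rw [← hMdef] at hM hMT
  have hH0 : (0 : ℝ) < H := by exact_mod_cast hH
  -- the correlations
  obtain ⟨C, hC⟩ : ∃ C : ℕ → ℂ, ∀ d, C d =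
      ∑ t ∈ range (T - d * P), f (t + d * P) * (starRingEnd ℂ) (f t) := ⟨_, fun _ => rfl⟩
  simp_rw [← hC]
  have hcorr : ∀ h ∈ range H, ∀ h' ∈ range H,
      ‖∑ s ∈ range (T + M), wVdcG f T M (s + h * P) *
        (starRingEnd ℂ) (wVdcG f T M (s + h' * P))‖ =
      if h' ≤ h then ‖C (h - h')‖ else ‖C (h' - h)‖ := by
    intro h hh h' hh'
    by_cases hle : h' ≤ h
    · rw [if_pos hle, wVdc_corr f (Nat.mul_le_mul_right P hle) (hM h hh), hC, Nat.sub_mul]
    · rw [if_neg hle, hC, Nat.sub_mul,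
        ← wVdc_corr f (Nat.mul_le_mul_right P (le_of_not_ge hle)) (hM h' hh')]
      rw [← Complex.norm_conj (∑ s ∈ range (T + M), wVdcG f T M (s + h' * P) *
        (starRingEnd ℂ) (wVdcG f T M (s + h * P))), map_sum]
      congr 1
      refine Finset.sum_congr rfl fun s _ => ?_
      rw [map_mul, Complex.conj_conj, mul_comm]
  have hC0 : ‖C 0‖ ≤ T := by
    rw [hC]
    refine (norm_sum_le _ _).trans ?_
    refine (Finset.sum_le_card_nsmul _ _ 1 fun t _ => ?_).trans ?_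
    · rw [norm_mul, Complex.norm_conj]
      exact mul_le_one₀ (hf _) (norm_nonneg _) (hf _)
    · simp
  -- the sum of the squares
  have hsq : ∑ s ∈ range (T + M), ‖∑ h ∈ range H, wVdcG f T M (s + h * P)‖ ^ 2 ≤
      H * (T + 2 * ∑ d ∈ Ico 1 H, ‖C d‖) := by
    have e1 : ((∑ s ∈ range (T + M), ‖∑ h ∈ range H, wVdcG f T M (s + h * P)‖ ^ 2 : ℝ) : ℂ) =
        ∑ h ∈ range H, ∑ h' ∈ range H, ∑ s ∈ range (T + M), wVdcG f T M (s + h * P) *
          (starRingEnd ℂ) (wVdcG f T M (s + h' * P)) := by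
      rw [Complex.ofReal_sum]
      have e2 : ∀ s : ℕ, ((‖∑ h ∈ range H, wVdcG f T M (s + h * P)‖ ^ 2 : ℝ) : ℂ) =
          ∑ h ∈ range H, ∑ h' ∈ range H, wVdcG f T M (s + h * P) *
            (starRingEnd ℂ) (wVdcG f T M (s + h' * P)) := by
        intro s
        rw [Complex.ofReal_pow, ← Complex.mul_conj', map_sum, Finset.sum_mul_sum]
      simp_rw [e2]
      rw [Finset.sum_comm]
      refine Finset.sum_congr rfl fun h _ => ?_
      rw [Finset.sum_comm]
    have e3 : ∑ s ∈ range (T + M), ‖∑ h ∈ range H, wVdcG f T M (s + h * P)‖ ^ 2 =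
        ‖((∑ s ∈ range (T + M), ‖∑ h ∈ range H, wVdcG f T M (s + h * P)‖ ^ 2 : ℝ) : ℂ)‖ := by
      rw [Complex.norm_real, Real.norm_of_nonneg (Finset.sum_nonneg fun s _ => sq_nonneg _)]
    rw [e3, e1]
    refine (norm_sum_le _ _).trans ?_
    refine (Finset.sum_le_card_nsmul _ _ (T + 2 * ∑ d ∈ Ico 1 H, ‖C d‖) fun h hh => ?_).trans ?_
    · refine (norm_sum_le _ _).trans ?_
      rw [Finset.sum_congr rfl fun h' hh' => hcorr h hh h' hh']
      refine (wVdc_row (fun d => ‖C d‖) (fun d => norm_nonneg _) (Finset.mem_range.1 hh)).trans ?_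
      linarith
    · rw [Finset.card_range, nsmul_eq_mul]
  -- the averaged sum
  have havg : (H : ℂ) * ∑ t ∈ range T, f t =
      ∑ s ∈ range (T + M), ∑ h ∈ range H, wVdcG f T M (s + h * P) := by
    rw [Finset.sum_comm, Finset.sum_congr rfl fun h hh => wVdc_sum f (hM h hh),
      Finset.sum_const, Finset.card_range, nsmul_eq_mul]
  have hcs : ((H : ℝ) * ‖∑ t ∈ range T, f t‖) ^ 2 ≤
      (T + M : ℕ) * (H * (T + 2 * ∑ d ∈ Ico 1 H, ‖C d‖)) := by
    have e4 : (H : ℝ) * ‖∑ t ∈ range T, f t‖ ≤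
        ∑ s ∈ range (T + M), ‖∑ h ∈ range H, wVdcG f T M (s + h * P)‖ := by
      have := norm_sum_le (range (T + M)) fun s => ∑ h ∈ range H, wVdcG f T M (s + h * P)
      rw [← havg, norm_mul, Complex.norm_natCast] at this
      exact this
    have e5 := sq_sum_le_card_mul_sum_sq (s := range (T + M))
      (f := fun s => ‖∑ h ∈ range H, wVdcG f T M (s + h * P)‖)
    rw [Finset.card_range] at e5
    calc ((H : ℝ) * ‖∑ t ∈ range T, f t‖) ^ 2
        ≤ (∑ s ∈ range (T + M), ‖∑ h ∈ range H, wVdcG f T M (s + h * P)‖) ^ 2 := by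
          refine pow_le_pow_left₀ (by positivity) e4 2
      _ ≤ _ := e5
      _ ≤ _ := mul_le_mul_of_nonneg_left hsq (Nat.cast_nonneg _)
  have hS0 : 0 ≤ ∑ d ∈ Ico 1 H, ‖C d‖ := Finset.sum_nonneg fun _ _ => norm_nonneg _
  have hTM : ((T + M : ℕ) : ℝ) ≤ 2 * T := by
    have : T + M ≤ 2 * T := by omega
    exact_mod_cast this
  have h6 : (H : ℝ) ^ 2 * ‖∑ t ∈ range T, f t‖ ^ 2 ≤
      2 * T * (H * (T + 2 * ∑ d ∈ Ico 1 H, ‖C d‖)) := by
    rw [← mul_pow]
    refine hcs.trans (mul_le_mul_of_nonneg_right hTM ?_)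
    positivity
  have h7 : 2 * (T : ℝ) * (T / H + 2 / H * ∑ d ∈ Ico 1 H, ‖C d‖) =
      2 * T * (H * (T + 2 * ∑ d ∈ Ico 1 H, ‖C d‖)) / (H : ℝ) ^ 2 := by
    field_simp
  rw [h7, le_div_iff₀ (by positivity)]
  linarith

/-- Proof. `gcd (h, p^b) ≤ ∑_{l ≤ b, p^l ∣ h} p^l`, and there are at most `H / p^l` multiples of
`p^l` in `[1, H)`. -/
theorem gcd_sum {p b H : ℕ} (hp : p.Prime) :
    ∑ h ∈ Ico 1 H, (Nat.gcd h (p ^ b) : ℝ) ≤ (b + 1) * H := by
  have h1 : ∀ h ∈ Ico 1 H, (Nat.gcd h (p ^ b) : ℝ) ≤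
      ∑ l ∈ range (b + 1), if p ^ l ∣ h then ((p ^ l : ℕ) : ℝ) else 0 := by
    intro h _
    obtain ⟨l, hl, hg⟩ := (Nat.dvd_prime_pow hp).1 (Nat.gcd_dvd_right h (p ^ b))
    have hd : p ^ l ∣ h := hg ▸ Nat.gcd_dvd_left h (p ^ b)
    rw [hg]
    have := Finset.single_le_sum (f := fun l => if p ^ l ∣ h then ((p ^ l : ℕ) : ℝ) else 0)
      (fun i _ => by
        split_ifs
        · exact Nat.cast_nonneg _
        · exact le_rfl) (Finset.mem_range.2 (Nat.lt_succ_of_le hl))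
    simpa only [if_pos hd] using this
  refine (Finset.sum_le_sum h1).trans ?_
  rw [Finset.sum_comm]
  have h2 : ∀ l ∈ range (b + 1),
      ∑ h ∈ Ico 1 H, (if p ^ l ∣ h then ((p ^ l : ℕ) : ℝ) else 0) ≤ H := by
    intro l _
    rw [← Finset.sum_filter, Finset.sum_const, nsmul_eq_mul]
    have h3 : ((Ico 1 H).filter fun h => p ^ l ∣ h).card ≤ H / p ^ l := by
      rw [← Nat.Ioc_filter_dvd_card_eq_div]
      refine Finset.card_le_card fun h hh => ?_
      rw [Finset.mem_filter, Finset.mem_Ico] at hh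
      rw [Finset.mem_filter, Finset.mem_Ioc]
      exact ⟨⟨by omega, by omega⟩, hh.2⟩
    have h4 : ((Ico 1 H).filter fun h => p ^ l ∣ h).card * p ^ l ≤ H :=
      (Nat.mul_le_mul_right _ h3).trans (Nat.div_mul_le_self H (p ^ l))
    exact_mod_cast h4
  refine (Finset.sum_le_card_nsmul _ _ _ h2).trans ?_
  rw [Finset.card_range, nsmul_eq_mul]
  push_cast
  exact le_rfl

end Pool.Agent.NVW
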