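import Pool.Agent.Lib.MP_afd523_nt_W.WCorr
import Pool.Agent.Lib.MP_afd523_nt_W.WVdc

set_option autoImplicit false

/-!
Project W: the Weyl bound for the sums over a residue class.
-/

namespace Pool.Agent.NVW

open Finset Complex MeasureTheory Pool.Agent.NV

/-- The Weyl bound.

Proof. `vdc` with `P = p^i`, `H = T / p^i` (`≥ 1`, `T / H ≤ 2 p^i` in the reals); `corr_le` with
`T - h P ≤ T` and `gcd_sum`:
`(2 / H) ∑_h ... ≤ 2 (b + 1) p^(m-b) (2 (T / p^m + 1) + p^b (1 + log))`. -/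
theorem weyl {p k j i m b u : ℕ} [Fact p.Prime] (hp2 : p ≠ 2) (hj : 1 ≤ j) (hbm : b ≤ m)
    (hk : k = 3 * j + i + m + b) (hu : u.Coprime p) {ψ : DirichletCharacter ℂ (p ^ k)}
    (hψ : ψ.IsPrimitive) {T : ℕ} (hT : p ^ i ≤ T) :
    ‖∑ t ∈ range T, ft ψ j u t‖ ^ 2 ≤ 2 * T * (2 * (p : ℝ) ^ i + 2 * (b + 1) * (p : ℝ) ^ (m - b) *
      (2 * ((T : ℝ) / (p : ℝ) ^ m + 1) + (p : ℝ) ^ b * (1 + Real.log ((p : ℝ) ^ b)))) := by
  have hp : p.Prime := Fact.out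
  have hP : 0 < p ^ i := pow_pos hp.pos i
  have hp1 : (1 : ℝ) ≤ p := by exact_mod_cast hp.one_lt.le
  have hp0 : (0 : ℝ) < p := by linarith
  set H : ℕ := T / p ^ i with hH
  have hH1 : 1 ≤ H := (Nat.one_le_div_iff hP).mpr hT
  have hHP : H * p ^ i ≤ T := Nat.div_mul_le_self T (p ^ i)
  have hHr : (0 : ℝ) < H := by exact_mod_cast hH1
  have hft : ∀ t, ‖ft ψ j u t‖ ≤ 1 := fun t => by
    unfold ft
    exact DirichletCharacter.norm_le_one _ _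
  have h1 := vdc (ft ψ j u) hft hH1 hHP
  set X : ℝ := 2 * ((T : ℝ) / (p : ℝ) ^ m + 1) + (p : ℝ) ^ b * (1 + Real.log ((p : ℝ) ^ b)) with hX
  have hlog : 0 ≤ Real.log ((p : ℝ) ^ b) := Real.log_nonneg (one_le_pow₀ hp1)
  have hX0 : 0 ≤ X := by positivity
  have hTH : (T : ℝ) / H ≤ 2 * (p : ℝ) ^ i := by
    rw [div_le_iff₀ hHr]
    have h2 : T < (H + 1) * p ^ i := by
      have := Nat.lt_div_mul_add (a := T) hP
      calc T < H * p ^ i + p ^ i := this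
        _ = (H + 1) * p ^ i := by ring
    have h3 : (T : ℝ) < ((H : ℝ) + 1) * (p : ℝ) ^ i := by exact_mod_cast h2
    have h4 : (1 : ℝ) ≤ H := by exact_mod_cast hH1
    have h5 : (0 : ℝ) < (p : ℝ) ^ i := by positivity
    nlinarith
  have hsum : ∑ h ∈ Ico 1 H, ‖∑ t ∈ range (T - h * p ^ i), ft ψ j u (t + h * p ^ i) *
      (starRingEnd ℂ) (ft ψ j u t)‖ ≤ (p : ℝ) ^ (m - b) * ((b + 1) * H) * X := by
    calc ∑ h ∈ Ico 1 H, ‖∑ t ∈ range (T - h * p ^ i), ft ψ j u (t + h * p ^ i) *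
          (starRingEnd ℂ) (ft ψ j u t)‖
        ≤ ∑ h ∈ Ico 1 H, (p : ℝ) ^ (m - b) * (Nat.gcd h (p ^ b) : ℝ) * X := by
          refine sum_le_sum fun h _ => ?_
          refine (corr_le hp2 hj hbm hk hu hψ h (T - h * p ^ i)).trans ?_
          refine mul_le_mul_of_nonneg_left ?_ (by positivity)
          have h6 : ((T - h * p ^ i : ℕ) : ℝ) ≤ T := by exact_mod_cast Nat.sub_le _ _
          have h7 : ((T - h * p ^ i : ℕ) : ℝ) / (p : ℝ) ^ m ≤ (T : ℝ) / (p : ℝ) ^ m := by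
            gcongr
          rw [hX]
          linarith
      _ = (p : ℝ) ^ (m - b) * (∑ h ∈ Ico 1 H, (Nat.gcd h (p ^ b) : ℝ)) * X := by
          rw [Finset.mul_sum, Finset.sum_mul]
      _ ≤ (p : ℝ) ^ (m - b) * ((b + 1) * H) * X := by
          refine mul_le_mul_of_nonneg_right ?_ hX0
          exact mul_le_mul_of_nonneg_left (gcd_sum hp) (by positivity)
  refine h1.trans ?_
  refine mul_le_mul_of_nonneg_left ?_ (by positivity)
  have h8 : 2 / (H : ℝ) * ∑ h ∈ Ico 1 H, ‖∑ t ∈ range (T - h * p ^ i), ft ψ j u (t + h * p ^ i) *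
      (starRingEnd ℂ) (ft ψ j u t)‖ ≤ 2 * (b + 1) * (p : ℝ) ^ (m - b) * X := by
    calc 2 / (H : ℝ) * ∑ h ∈ Ico 1 H, ‖∑ t ∈ range (T - h * p ^ i), ft ψ j u (t + h * p ^ i) *
          (starRingEnd ℂ) (ft ψ j u t)‖
        ≤ 2 / (H : ℝ) * ((p : ℝ) ^ (m - b) * ((b + 1) * H) * X) :=
          mul_le_mul_of_nonneg_left hsum (by positivity)
      _ = 2 * (b + 1) * (p : ℝ) ^ (m - b) * X := by
          field_simp
  linarith

end Pool.Agent.NVW
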