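import Pool.Agent.Lib.MP_afd523_nt_W.WPar
import Pool.Agent.Lib.MP_afd523_nt_W.WWeyl
import Pool.Agent.Lib.MP_afd523_nt_W.WClass

set_option autoImplicit false

/-!
Project W: the bound for one residue class.
-/

namespace Pool.Agent.NVW

open Finset Complex MeasureTheory Pool.Agent.NV

/-- the error terms are small -/
private theorem wsm_small {ε C : ℝ} (hε : 0 < ε) : ∃ Q₀ : ℝ, ∀ x : ℝ, Q₀ ≤ x →
    x ^ (-(ε / 8)) * (1 + Real.log x) + C * x ^ (-(1 / 2) : ℝ) ≤ 1 / 100 := by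
  have h8 : 0 < ε / 8 := by positivity
  have h1 : Filter.Tendsto (fun x : ℝ => x ^ (-(ε / 8))) Filter.atTop (nhds 0) :=
    tendsto_rpow_neg_atTop h8
  have h2 : Filter.Tendsto (fun x : ℝ => Real.log x / x ^ (ε / 8)) Filter.atTop (nhds 0) :=
    (isLittleO_log_rpow_atTop h8).tendsto_div_nhds_zero
  have h3 : Filter.Tendsto (fun x : ℝ => x ^ (-(1 / 2) : ℝ)) Filter.atTop (nhds 0) :=
    tendsto_rpow_neg_atTop (by norm_num)
  have h4 : Filter.Tendsto (fun x : ℝ => x ^ (-(ε / 8)) + Real.log x / x ^ (ε / 8) +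
      C * x ^ (-(1 / 2) : ℝ)) Filter.atTop (nhds 0) := by
    simpa using (h1.add h2).add (h3.const_mul C)
  have h5 : ∀ᶠ x : ℝ in Filter.atTop, x ^ (-(ε / 8)) + Real.log x / x ^ (ε / 8) +
      C * x ^ (-(1 / 2) : ℝ) < 1 / 100 := h4.eventually (gt_mem_nhds (by norm_num))
  obtain ⟨Q, hQ⟩ := Filter.eventually_atTop.1 (h5.and (Filter.eventually_gt_atTop (0 : ℝ)))
  refine ⟨Q, fun x hx => ?_⟩
  obtain ⟨h6, h7⟩ := hQ x hx
  have h8' : x ^ (-(ε / 8)) * (1 + Real.log x) =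
      x ^ (-(ε / 8)) + Real.log x / x ^ (ε / 8) := by
    rw [Real.rpow_neg h7.le]
    field_simp
  rw [h8']
  exact h6.le

/-- The bound for one class.

Proof. `params`, `weyl` (for `p^i ≤ t`), the trivial bound (for `t < p^i`), `class_sum` with
`θ = ε / 4`, `N = ⌊q^(1/2+θ) / p^j⌋₊`, `η = q^(-ε/8)`; `u + p^j` is coprime to `p`. The result is at
most `q^(-ε/8) (1 + log q) + C q^(-1/2) ≤ 1/100` for `q ≥ 3^k₀`, `k₀` large. -/
theorem class_small {ε : ℝ} (hε : 0 < ε) (hε1 : ε ≤ 1 / 100) : ∃ k₀ : ℕ,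
    ∀ (p k : ℕ) [Fact p.Prime], p ≠ 2 → k₀ ≤ k → ∀ j : ℕ, j = ⌈(1 / 6 + ε) * k⌉₊ →
    ∀ ψ : DirichletCharacter ℂ (p ^ k), ψ.IsPrimitive → ∀ e : ℕ, e ≤ 1 → ∀ u : ℕ,
      u.Coprime p → 0 < u → u < p ^ j →
      ‖CS ψ j e (u : ZMod (p ^ j)) - (PW (p ^ k) e u : ℂ) * ψ (u : ZMod (p ^ k))‖ ≤ 1 / 100 := by
  obtain ⟨k₁, hk₁⟩ := params hε hε1
  obtain ⟨C, hC, hcs⟩ := class_sum (θ := ε / 4) (by positivity)
  obtain ⟨Q₀, hQ₀⟩ := wsm_small (C := C) hε
  obtain ⟨k₂, hk₂⟩ : ∃ k₂ : ℕ, ∀ k : ℕ, k₂ ≤ k → Q₀ ≤ (3 : ℝ) ^ k := by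
    have h1 := tendsto_pow_atTop_atTop_of_one_lt (r := (3 : ℝ)) (by norm_num)
    exact Filter.eventually_atTop.1 (h1.eventually_ge_atTop Q₀)
  refine ⟨max k₁ k₂, ?_⟩
  intro p k hpf hp2 hk j hj ψ hψ e he u hup hu0 huj
  have hp : p.Prime := hpf.out
  have hp3 : 3 ≤ p := by
    have := hp.two_le
    omega
  have hP3 : (3 : ℝ) ≤ p := by exact_mod_cast hp3
  have hP0 : (0 : ℝ) < p := by linarith
  have hP1 : (1 : ℝ) ≤ p := by linarith
  obtain ⟨hj1, hjk, i, m, b, hij, hbm, hkeq, hpi, hpar⟩ :=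
    hk₁ p k hp hp2 (le_trans (le_max_left _ _) hk) j hj
  set q : ℝ := (p : ℝ) ^ k with hq
  have hq1 : 1 ≤ q := one_le_pow₀ hP1
  have hq0 : 0 < q := by linarith
  have hqQ : Q₀ ≤ q := (hk₂ k (le_trans (le_max_right _ _) hk)).trans
    (pow_le_pow_left₀ (by norm_num) hP3 k)
  have hPj : (0 : ℝ) < (p : ℝ) ^ j := by positivity
  have hPj1 : (1 : ℝ) ≤ (p : ℝ) ^ j := one_le_pow₀ hP1
  set N : ℕ := ⌊q ^ (1 / 2 + ε / 4) / (p : ℝ) ^ j⌋₊ with hN
  set η : ℝ := q ^ (-(ε / 8)) with hη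
  have hη0 : 0 ≤ η := by positivity
  have hη2 : q ^ (-(ε / 4)) = η ^ 2 := by
    rw [hη, ← Real.rpow_natCast, ← Real.rpow_mul hq0.le]
    congr 1
    push_cast
    ring
  have hNle : (N : ℝ) ≤ q ^ (1 / 2 + ε / 4) / (p : ℝ) ^ j :=
    Nat.floor_le (by positivity)
  have hcop : (u + p ^ j).Coprime p := by
    have h1 : p ∣ p ^ j := dvd_pow_self p (by omega)
    obtain ⟨c, hc⟩ := h1
    rw [hc]
    exact (Nat.coprime_add_mul_left_left u p c).2 hup
  have hmain := hcs p j k e hj1 (by omega) he ψ u hu0 huj N η hη0 ?_ ?_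
  · refine hmain.trans ?_
    refine le_trans ?_ (hQ₀ q hqQ)
    have h1 : Real.log N ≤ Real.log q := by
      rcases Nat.eq_zero_or_pos N with h0 | h0
      · rw [h0, Nat.cast_zero, Real.log_zero]
        exact Real.log_nonneg hq1
      · refine Real.log_le_log (by exact_mod_cast h0) ?_
        refine hNle.trans ?_
        rw [div_le_iff₀ hPj]
        have h2 : q ^ (1 / 2 + ε / 4) ≤ q ^ (1 : ℝ) :=
          Real.rpow_le_rpow_of_exponent_le hq1 (by linarith)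
        rw [Real.rpow_one] at h2
        nlinarith
    have h2 : η * (1 + Real.log N) ≤ η * (1 + Real.log q) :=
      mul_le_mul_of_nonneg_left (by linarith) hη0
    linarith
  · have h1 := (Nat.lt_floor_add_one (q ^ (1 / 2 + ε / 4) / (p : ℝ) ^ j)).le
    rw [div_le_iff₀ hPj] at h1
    rw [hN, mul_comm]
    exact h1
  · intro t ht
    have ht1 : (p : ℝ) ^ j * t ≤ q ^ (1 / 2 + ε / 4) := by
      have h1 : (t : ℝ) ≤ N := by exact_mod_cast ht
      have h2 := h1.trans hNle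
      rw [le_div_iff₀ hPj] at h2
      linarith
    have hfin : ∀ x : ℝ, 0 ≤ x → x ^ 2 ≤ q ^ (-(ε / 4)) * ((p : ℝ) ^ j * t) →
        x ≤ η * √((p : ℝ) ^ j * t) := by
      intro x hx hx2
      have h1 : x ^ 2 ≤ (η * √((p : ℝ) ^ j * t)) ^ 2 := by
        rw [mul_pow, Real.sq_sqrt (by positivity), ← hη2]
        exact hx2
      exact (pow_le_pow_iff_left₀ hx (by positivity) (by norm_num)).1 h1
    refine hfin _ (norm_nonneg _) ?_
    rcases le_or_gt (p ^ i) t with hit | hit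
    · exact (weyl hp2 hj1 hbm hkeq hcop hψ hit).trans (hpar t ht1)
    · have h1 : ‖∑ s ∈ range t, ft ψ j (u + p ^ j) s‖ ≤ t := by
        refine (norm_sum_le _ _).trans ?_
        refine (Finset.sum_le_sum (g := fun _ => (1 : ℝ)) fun s _ => ?_).trans ?_
        · unfold ft
          exact DirichletCharacter.norm_le_one _ _
        · simp
      have h2 : (t : ℝ) ≤ (p : ℝ) ^ i := by exact_mod_cast hit.le
      have ht0 : (0 : ℝ) ≤ t := Nat.cast_nonneg t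
      calc ‖∑ s ∈ range t, ft ψ j (u + p ^ j) s‖ ^ 2 ≤ (t : ℝ) ^ 2 :=
            pow_le_pow_left₀ (norm_nonneg _) h1 2
        _ = t * t := by ring
        _ ≤ (q ^ (-(ε / 4)) * (p : ℝ) ^ j) * t :=
            mul_le_mul_of_nonneg_right (h2.trans hpi) ht0
        _ = q ^ (-(ε / 4)) * ((p : ℝ) ^ j * t) := by ring

end Pool.Agent.NVW
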