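import Pool.Agent.Lib.MP_afd523_nt_W.WFirst
import Pool.Agent.Lib.MP_afd523_nt_W.WSm

set_option autoImplicit false

/-!
Project W: existence in the thin coset, and the count.
-/

namespace Pool.Agent.NVW

open Finset Complex MeasureTheory Pool.Agent.NV

private theorem WEx_split {N : ℕ} {f : ℕ → ℂ} (hf : Summable (fun n => ‖f n‖)) {u v : ZMod N}
    (huv : u ≠ v) :
    ∑' n : ℕ, (if (n : ZMod N) = u ∨ (n : ZMod N) = v then f n else 0) =
      ∑' n : ℕ, (if (n : ZMod N) = u then f n else 0) +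
      ∑' n : ℕ, (if (n : ZMod N) = v then f n else 0) := by
  have h : ∀ w : ZMod N, Summable (fun n : ℕ => if (n : ZMod N) = w then f n else 0) := by
    intro w
    refine Summable.of_norm_bounded hf ?_
    intro n
    split_ifs
    · exact le_rfl
    · simp
  rw [← (h u).tsum_add (h v)]
  refine tsum_congr fun n => ?_
  by_cases h1 : (n : ZMod N) = u
  · have h2 : (n : ZMod N) ≠ v := by
      rw [h1]
      exact huv
    simp [h1, huv]
  · by_cases h2 : (n : ZMod N) = v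
    · simp [h2, huv.symm]
    · simp [h1, h2]

private theorem WEx_sum {p k e : ℕ} [Fact p.Prime] (he : e ≤ 1)
    (ψ : DirichletCharacter ℂ (p ^ k)) :
    Summable (fun n : ℕ => ‖(PW (p ^ k) e n : ℂ) * ψ (n : ZMod (p ^ k))‖) := by
  have : NeZero (p ^ k) := ⟨(pow_pos (Nat.Prime.pos Fact.out) k).ne'⟩
  refine Summable.of_nonneg_of_le (fun n => norm_nonneg _) (fun n => ?_)
    (summable_PW (q := p ^ k) he)
  rw [norm_mul, Complex.norm_real, Real.norm_eq_abs]
  exact mul_le_of_le_one_right (abs_nonneg _) (DirichletCharacter.norm_le_one ψ _)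

/-- The identity of the first moment in terms of the class sums. -/
private theorem WEx_ident {p j k e : ℕ} [Fact p.Prime] (he : e ≤ 1)
    (ψ : DirichletCharacter ℂ (p ^ k)) {a : ℕ} {w c : ZMod (p ^ j)} {δ : ℂ} (hδ : ‖δ‖ = 1)
    (ha : (a : ZMod (p ^ j)) ≠ -a) (hw : w ≠ -w) (hau : IsUnit (a : ZMod (p ^ j)))
    (haw : (a : ZMod (p ^ j)) * w = c)
    (h0 : ∑' n : ℕ, (if (n : ZMod (p ^ j)) = a ∨ (n : ZMod (p ^ j)) = -a then
          (PW (p ^ k) e n : ℂ) * ψ (n : ZMod (p ^ k)) else 0) +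
        δ * ∑' n : ℕ, (if (a : ZMod (p ^ j)) * n = c ∨ (a : ZMod (p ^ j)) * n = -c then
          (PW (p ^ k) e n : ℂ) * (starRingEnd ℂ) (ψ (n : ZMod (p ^ k))) else 0) = 0) :
    ‖CS ψ j e (a : ZMod (p ^ j))‖ ≤
      ‖CS ψ j e (-(a : ZMod (p ^ j)))‖ + ‖CS ψ j e w‖ + ‖CS ψ j e (-w)‖ := by
  have h1 := WEx_split (WEx_sum he ψ) ha
  have h2 := WEx_split (WEx_sum he ψ) hw
  have h3 : ∑' n : ℕ, (if (a : ZMod (p ^ j)) * n = c ∨ (a : ZMod (p ^ j)) * n = -c then
          (PW (p ^ k) e n : ℂ) * (starRingEnd ℂ) (ψ (n : ZMod (p ^ k))) else 0) =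
      (starRingEnd ℂ) (∑' n : ℕ, (if (n : ZMod (p ^ j)) = w ∨ (n : ZMod (p ^ j)) = -w then
          (PW (p ^ k) e n : ℂ) * ψ (n : ZMod (p ^ k)) else 0)) := by
    rw [Complex.conj_tsum]
    refine tsum_congr fun n => ?_
    have e1 : ((a : ZMod (p ^ j)) * n = c ↔ (n : ZMod (p ^ j)) = w) := by
      rw [← haw]
      exact hau.mul_right_inj
    have e2 : ((a : ZMod (p ^ j)) * n = -c ↔ (n : ZMod (p ^ j)) = -w) := by
      rw [← haw, ← mul_neg]
      exact hau.mul_right_inj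
    simp only [e1, e2]
    split_ifs
    · simp
    · simp
  rw [h3, h1, h2] at h0
  change CS ψ j e a + CS ψ j e (-a) + δ * (starRingEnd ℂ) (CS ψ j e w + CS ψ j e (-w)) = 0 at h0
  have h4 : CS ψ j e a = -CS ψ j e (-a) - δ * (starRingEnd ℂ) (CS ψ j e w + CS ψ j e (-w)) := by
    linear_combination h0
  rw [h4]
  calc ‖-CS ψ j e (-a) - δ * (starRingEnd ℂ) (CS ψ j e w + CS ψ j e (-w))‖
      ≤ ‖-CS ψ j e (-a)‖ + ‖δ * (starRingEnd ℂ) (CS ψ j e w + CS ψ j e (-w))‖ := norm_sub_le _ _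
    _ = ‖CS ψ j e (-a)‖ + ‖CS ψ j e w + CS ψ j e (-w)‖ := by
        rw [norm_neg, norm_mul, hδ, one_mul, RCLike.norm_conj]
    _ ≤ _ := by
        have := norm_add_le (CS ψ j e w) (CS ψ j e (-w))
        linarith

private theorem WEx_up {p j k e : ℕ} [Fact p.Prime] (he : e ≤ 1) (hj : 1 ≤ j)
    (ψ : DirichletCharacter ℂ (p ^ k))
    (hcs : ∀ u : ℕ, u.Coprime p → 0 < u → u < p ^ j →
      ‖CS ψ j e (u : ZMod (p ^ j)) - (PW (p ^ k) e u : ℂ) * ψ (u : ZMod (p ^ k))‖ ≤ 1 / 100)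
    (u : ZMod (p ^ j)) (hu : IsUnit u) :
    ‖CS ψ j e u‖ ≤ 1 / √(u.val : ℝ) + 1 / 100 := by
  have : NeZero (p ^ j) := ⟨(pow_pos (Nat.Prime.pos Fact.out) j).ne'⟩
  have hp : p.Prime := Fact.out
  have h1 : (u.val).Coprime (p ^ j) := (ZMod.isUnit_iff_coprime _ _).1 (by
    rwa [ZMod.natCast_zmod_val])
  have h2 : (u.val).Coprime p := Nat.Coprime.coprime_dvd_right (dvd_pow_self p (by omega)) h1
  have h3 : 0 < u.val := by
    rcases Nat.eq_zero_or_pos u.val with h | h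
    · rw [h, Nat.coprime_zero_left] at h2
      exact absurd h2 hp.one_lt.ne'
    · exact h
  have h4 := hcs u.val h2 h3 (ZMod.val_lt u)
  rw [ZMod.natCast_zmod_val] at h4
  have h5 : ‖(PW (p ^ k) e u.val : ℂ) * ψ ((u.val : ℕ) : ZMod (p ^ k))‖ ≤ 1 / √(u.val : ℝ) := by
    rw [norm_mul, Complex.norm_real, Real.norm_eq_abs, abs_of_nonneg (PW_nonneg _ _ _)]
    exact (mul_le_of_le_one_right (PW_nonneg _ _ _) (DirichletCharacter.norm_le_one ψ _)).trans
      (PW_le he _)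
  have h6 := norm_le_norm_add_norm_sub' (CS ψ j e u)
    ((PW (p ^ k) e u.val : ℂ) * ψ ((u.val : ℕ) : ZMod (p ^ k)))
  linarith

private theorem WEx_low {p j k e : ℕ} [Fact p.Prime]
    (ψ : DirichletCharacter ℂ (p ^ k))
    (hcs : ∀ u : ℕ, u.Coprime p → 0 < u → u < p ^ j →
      ‖CS ψ j e (u : ZMod (p ^ j)) - (PW (p ^ k) e u : ℂ) * ψ (u : ZMod (p ^ k))‖ ≤ 1 / 100)
    (a : ℕ) (ha : a.Coprime p) (ha0 : 0 < a) (haj : a < p ^ j)
    (hP : 99 / 100 / √(a : ℝ) ≤ PW (p ^ k) e a) :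
    99 / 100 / √(a : ℝ) - 1 / 100 ≤ ‖CS ψ j e (a : ZMod (p ^ j))‖ := by
  have h4 := hcs a ha ha0 haj
  have h5 : ‖ψ ((a : ℕ) : ZMod (p ^ k))‖ = 1 := by
    have hu : IsUnit ((a : ℕ) : ZMod (p ^ k)) :=
      (ZMod.isUnit_iff_coprime _ _).2 (Nat.Coprime.pow_right k ha)
    obtain ⟨v, hv⟩ := hu
    rw [← hv]
    exact DirichletCharacter.unit_norm_eq_one ψ v
  have h6 : ‖(PW (p ^ k) e a : ℂ) * ψ ((a : ℕ) : ZMod (p ^ k))‖ = PW (p ^ k) e a := by
    rw [norm_mul, Complex.norm_real, Real.norm_eq_abs, abs_of_nonneg (PW_nonneg _ _ _), h5,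
      mul_one]
  have h7 := norm_le_norm_add_norm_sub ((PW (p ^ k) e a : ℂ) * ψ ((a : ℕ) : ZMod (p ^ k)))
    (CS ψ j e a)
  have h8 := norm_sub_norm_le ((PW (p ^ k) e a : ℂ) * ψ ((a : ℕ) : ZMod (p ^ k))) (CS ψ j e a)
  rw [norm_sub_rev] at h8
  linarith

private theorem WEx_sqrt {x : ℝ} (hx : 40000 ≤ x) : 1 / √x ≤ 1 / 200 := by
  have h1 : (200 : ℝ) ≤ √x := by
    rw [Real.le_sqrt' (by norm_num)]
    linarith
  exact one_div_le_one_div_of_le (by norm_num) h1

private theorem WEx_two {x : ℝ} (hx : 2 ≤ x) : 1 / √x ≤ 5 / 7 := by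
  have h1 : (7 / 5 : ℝ) ≤ √x := by
    rw [Real.le_sqrt' (by norm_num)]
    linarith
  calc 1 / √x ≤ 1 / (7 / 5) := one_div_le_one_div_of_le (by norm_num) h1
    _ = 5 / 7 := by norm_num

private theorem WEx_two' : (69 / 100 : ℝ) ≤ 99 / 100 / √2 := by
  have h0 : 0 < √(2 : ℝ) := Real.sqrt_pos.2 (by norm_num)
  rw [le_div_iff₀ h0]
  have h1 : √(2 : ℝ) ≤ 143 / 100 := by
    rw [Real.sqrt_le_left (by norm_num)]
    norm_num
  linarith

/-- A class and its negative. -/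
private theorem WEx_neg {m : ℕ} [NeZero m] {u : ZMod m} (hu : u ≠ 0) :
    (u.val : ℝ) + ((-u).val : ℝ) = m := by
  have : NeZero u := ⟨hu⟩
  have h := ZMod.val_neg_of_ne_zero u
  rw [h]
  have := (ZMod.val_lt u).le
  push_cast [this]
  ring

/-- Existence.

Proof. Suppose all values vanish; `first_moment` gives `e`, `c`, `δ`. The two series for `a` are
`CS (a) + CS (-a)` and the conjugate of `CS (c / a) + CS (-c / a)` (`PW` is real; the classes are
different as `p` is odd; summability from `summable_PW`). Represent the classes by natural numbers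
in `(0, p^j)`; `class_small`. Let `u₁` be the representative of `c / a`, `p^j - u₁` the one of
`-c / a`. First case: `u₁ ≠ 1`, `u₁ ≠ p^j - 1` for `a = 1`. Then
`‖CS 1 - PW 1‖ ≤ 1/100`, `PW 1 ≥ 99/100`; `‖CS (-1)‖ ≤ 1/√(p^j - 1) + 1/100`; one of `u₁` and
`p^j - u₁` is at least `p^j / 2`, the other one at least `2`: the second part has norm at most
`1/√2 + 1/√(p^j / 2) + 2/100`. With `p^j ≥ 10^5` (`j ≥ k/6`) this contradicts
`first + δ second = 0`. Second case: `c = 1` or `c = -1`. Take `a = 2` (coprime to `p`): the first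
part has norm at least `99/100/√2 - 1/√(p^j - 2) - 2/100`, and `2 u₁ = ±1` modulo `p^j` gives
`u₁ ≥ (p^j - 1) / 2`, the same for `p^j - u₁`: the second part is at most
`2/√((p^j - 1) / 2) + 2/100`. -/
theorem exists_ne {ε : ℝ} (hε : 0 < ε) (hε1 : ε ≤ 1 / 100) : ∃ k₀ : ℕ,
    ∀ (p k : ℕ) [Fact p.Prime], p ≠ 2 → k₀ ≤ k → ∀ j : ℕ, j = ⌈(1 / 6 + ε) * k⌉₊ →
    ∀ hle : j ≤ k, ∀ ψ : DirichletCharacter ℂ (p ^ k), ψ.IsPrimitive →
      ∃ ξ : DirichletCharacter ℂ (p ^ j),
        DirichletCharacter.LFunction (tw hle ψ ξ) (1 / 2) ≠ 0 := by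
  obtain ⟨k₁, hk₁⟩ := class_small hε hε1
  obtain ⟨q₀, hq₀⟩ := PW_ge
  refine ⟨max (max k₁ q₀) 66, ?_⟩
  intro p k hpf hp2 hk j hj hle ψ hψ
  have hp : p.Prime := hpf.out
  have hkk₁ : k₁ ≤ k := (le_max_left _ _).trans ((le_max_left _ _).trans hk)
  have hkq₀ : q₀ ≤ k := (le_max_right _ _).trans ((le_max_left _ _).trans hk)
  have hk66 : 66 ≤ k := (le_max_right _ _).trans hk
  have hp3 : 3 ≤ p := by
    have := hp.two_le
    omega
  have hkR : (66 : ℝ) ≤ k := by exact_mod_cast hk66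
  have hj11 : 11 ≤ j := by
    have h1 : (1 / 6 + ε) * (k : ℝ) ≤ j := by
      rw [hj]
      exact Nat.le_ceil _
    have h2 : (11 : ℝ) ≤ j := by nlinarith
    exact_mod_cast h2
  have h2j : 2 * j ≤ k := by
    have h1 : (j : ℝ) < (1 / 6 + ε) * (k : ℝ) + 1 := by
      rw [hj]
      exact Nat.ceil_lt_add_one (by positivity)
    have h2 : (2 * j : ℝ) ≤ k := by nlinarith
    exact_mod_cast h2
  have hm : 100000 ≤ p ^ j := by
    calc 100000 ≤ 3 ^ 11 := by norm_num
      _ ≤ p ^ 11 := Nat.pow_le_pow_left hp3 11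
      _ ≤ p ^ j := Nat.pow_le_pow_right hp.pos hj11
  have hq : q₀ ≤ p ^ k := hkq₀.trans (Nat.lt_pow_self hp.one_lt).le
  by_contra hcon
  push Not at hcon
  obtain ⟨e, he, c, hc, δ, hδ, hmom⟩ := first_moment hp2 (by omega) h2j hle hψ hcon
  have : NeZero (p ^ j) := ⟨by omega⟩
  have : Nontrivial (ZMod (p ^ j)) := by
    have : Fact (1 < p ^ j) := ⟨by omega⟩
    infer_instance
  have hcs := fun u : ℕ => hk₁ p k hp2 hkk₁ j hj ψ hψ e he u
  have hup := WEx_up he (by omega) ψ hcs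
  have hcop2 : Nat.Coprime 2 p := (Nat.coprime_primes Nat.prime_two hp).2 (Ne.symm hp2)
  have h2u : IsUnit ((2 : ℕ) : ZMod (p ^ j)) :=
    (ZMod.isUnit_iff_coprime _ _).2 (Nat.Coprime.pow_right j hcop2)
  have hne : ∀ u : ZMod (p ^ j), IsUnit u → u ≠ -u := by
    intro u hu h
    have h1 : ((2 : ℕ) : ZMod (p ^ j)) * u = 0 := by
      push_cast
      rw [two_mul]
      nth_rewrite 2 [h]
      simp
    exact (h2u.mul hu).ne_zero h1
  have hmR : (100000 : ℝ) ≤ ((p ^ j : ℕ) : ℝ) := by exact_mod_cast hm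
  have hunit1 : IsUnit ((1 : ℕ) : ZMod (p ^ j)) := by simp
  have hv1 : ((1 : ℕ) : ZMod (p ^ j)).val = 1 := by
    rw [ZMod.val_natCast]
    exact Nat.mod_eq_of_lt (by omega)
  have hv2 : ((2 : ℕ) : ZMod (p ^ j)).val = 2 := by
    rw [ZMod.val_natCast]
    exact Nat.mod_eq_of_lt (by omega)
  by_cases hc1 : c = 1 ∨ c = -1
  · -- second case
    obtain ⟨w, hw⟩ : ∃ w : ZMod (p ^ j), ((2 : ℕ) : ZMod (p ^ j)) * w = c := by
      obtain ⟨v, hv⟩ := h2u
      exact ⟨(v⁻¹ : (ZMod (p ^ j))ˣ) * c, by rw [← hv]; simp⟩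
    have hwu : IsUnit w := by
      have : IsUnit (((2 : ℕ) : ZMod (p ^ j)) * w) := by rw [hw]; exact hc
      exact isUnit_of_mul_isUnit_right this
    have key : ∀ v : ZMod (p ^ j),
        (((2 : ℕ) : ZMod (p ^ j)) * v = 1 ∨ ((2 : ℕ) : ZMod (p ^ j)) * v = -1) →
        (40000 : ℝ) ≤ (v.val : ℝ) := by
      intro v hv
      have h40 : 40000 ≤ v.val := by
        rcases hv with hv | hv
        · have h1 : ((2 * v.val : ℕ) : ZMod (p ^ j)) = ((1 : ℕ) : ZMod (p ^ j)) := by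
            push_cast
            rw [ZMod.natCast_zmod_val]
            simpa using hv
          rw [ZMod.natCast_eq_natCast_iff] at h1
          by_contra hlt
          have h2 : 2 * v.val < p ^ j := by omega
          have h3 := Nat.ModEq.eq_of_lt_of_lt h1 h2 (by omega)
          omega
        · have h1 : ((2 * v.val + 1 : ℕ) : ZMod (p ^ j)) = 0 := by
            push_cast
            rw [ZMod.natCast_zmod_val]
            have : (2 : ZMod (p ^ j)) * v = -1 := by simpa using hv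
            rw [this]
            ring
          rw [ZMod.natCast_eq_zero_iff] at h1
          have h2 := Nat.le_of_dvd (by omega) h1
          omega
      exact_mod_cast h40
    have hw1 : (40000 : ℝ) ≤ (w.val : ℝ) := key w (by rw [hw]; exact hc1)
    have hw2 : (40000 : ℝ) ≤ ((-w).val : ℝ) := by
      refine key (-w) ?_
      rw [mul_neg, hw]
      rcases hc1 with h | h
      · right
        rw [h]
      · left
        rw [h, neg_neg]
    have h2v : (40000 : ℝ) ≤ ((-((2 : ℕ) : ZMod (p ^ j))).val : ℝ) := by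
      have h := WEx_neg (u := ((2 : ℕ) : ZMod (p ^ j))) h2u.ne_zero
      rw [hv2] at h
      push_cast at h hmR ⊢
      linarith
    have hI := WEx_ident he ψ hδ (hne _ h2u) (hne w hwu) h2u hw (hmom 2 hcop2)
    have hL := WEx_low ψ hcs 2 hcop2 (by norm_num) (by omega)
      (hq₀ (p ^ k) hq e he 2 (by norm_num) (by norm_num))
    have hU1 := hup (-((2 : ℕ) : ZMod (p ^ j))) h2u.neg
    have hU2 := hup w hwu
    have hU3 := hup (-w) hwu.neg
    have hs1 := WEx_sqrt h2v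
    have hs2 := WEx_sqrt hw1
    have hs3 := WEx_sqrt hw2
    have hs4 := WEx_two'
    have hs5 : ((2 : ℕ) : ℝ) = 2 := by norm_num
    rw [hs5] at hL
    have hF := hL.trans (hI.trans (add_le_add (add_le_add (hU1.trans (add_le_add_left hs1 _))
      (hU2.trans (add_le_add_left hs2 _))) (hU3.trans (add_le_add_left hs3 _))))
    linarith
  · -- first case
    push Not at hc1
    have hcv0 : c ≠ 0 := hc.ne_zero
    have key : ∀ v : ZMod (p ^ j), v ≠ 0 → v ≠ 1 → (2 : ℝ) ≤ (v.val : ℝ) := by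
      intro v hv0 hv1'
      have h2 : 2 ≤ v.val := by
        by_contra hlt
        have h3 : v.val = 0 ∨ v.val = 1 := by omega
        rcases h3 with h3 | h3
        · exact hv0 ((ZMod.val_eq_zero v).1 h3)
        · apply hv1'
          rw [← ZMod.natCast_zmod_val v, h3]
          simp
      exact_mod_cast h2
    have hw1 : (2 : ℝ) ≤ (c.val : ℝ) := key c hcv0 hc1.1
    have hw2 : (2 : ℝ) ≤ ((-c).val : ℝ) := by
      refine key (-c) (neg_ne_zero.2 hcv0) ?_
      intro h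
      exact hc1.2 (by rw [← h, neg_neg])
    have hsum := WEx_neg hcv0
    have h1v : (40000 : ℝ) ≤ ((-((1 : ℕ) : ZMod (p ^ j))).val : ℝ) := by
      have h := WEx_neg (u := ((1 : ℕ) : ZMod (p ^ j))) hunit1.ne_zero
      rw [hv1] at h
      push_cast at h hmR ⊢
      linarith
    have hI := WEx_ident he ψ hδ (hne _ hunit1) (hne c hc) hunit1 (c := c) (by simp)
      (hmom 1 (Nat.coprime_one_left p))
    have hL := WEx_low ψ hcs 1 (Nat.coprime_one_left p) (by norm_num) (by omega)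
      (hq₀ (p ^ k) hq e he 1 (by norm_num) (by norm_num))
    have hU1 := hup (-((1 : ℕ) : ZMod (p ^ j))) hunit1.neg
    have hU2 := hup c hc
    have hU3 := hup (-c) hc.neg
    have hs1 := WEx_sqrt h1v
    have hs5 : √((1 : ℕ) : ℝ) = 1 := by simp
    rw [hs5] at hL
    rcases le_total (c.val : ℝ) ((-c).val : ℝ) with hcc | hcc
    · have hs2 := WEx_two hw1
      have hs3 := WEx_sqrt (x := ((-c).val : ℝ)) (by linarith)
      have hF := hL.trans (hI.trans (add_le_add (add_le_add (hU1.trans (add_le_add_left hs1 _))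
        (hU2.trans (add_le_add_left hs2 _))) (hU3.trans (add_le_add_left hs3 _))))
      norm_num at hF
    · have hs2 := WEx_two hw2
      have hs3 := WEx_sqrt (x := (c.val : ℝ)) (by linarith)
      have hF := hL.trans (hI.trans (add_le_add (add_le_add (hU1.trans (add_le_add_left hs1 _))
        (hU2.trans (add_le_add_left hs3 _))) (hU3.trans (add_le_add_left hs2 _))))
      norm_num at hF

end Pool.Agent.NVW
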