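import Pool.Agent.Lib.MP_afd523_nt_W.WOrth
import Pool.Agent.Lib.MP_afd523_nt_W.WAfe
import Pool.Agent.Lib.MP_afd523_nt_W.WTail

set_option autoImplicit false

/-!
Project W: the first moment.
-/

namespace Pool.Agent.NVW

open Finset Complex MeasureTheory Pool.Agent.NV

/-- If all central values of the coset vanish, the first moments vanish.

Proof. Let `e` be the parity of `ψ` (`e ≤ 1`, `ψ (-1) = (-1) ^ e`); all `χ = tw ψ ξ`, `ξ ∈ evn`,
have the parity `e` and are primitive (`tw_prim`, `j < k`). Sum `ξ⁻¹ a * L(1/2, χ) = 0` over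
`ξ ∈ evn (p ^ j)` and insert `afe'` with `T = √q` (then `n T / q = n / √q`, so both weights are
`PW q e n`). Exchange the finite sum with the series (`summable_PW`, `tsum_sum`,
`Summable.tsum_finsetSum`):
first part: `∑' n, PW n ψ(n) ∑ ξ, ξ⁻¹ a ξ n` (`tw_apply`, `evn_orth`; for `p ∣ n` the term is `0`);
second part: `∑' n, PW n conj ψ(n) ∑ ξ, eps (tw ψ ξ) ξ⁻¹ (a n)` (`conj (ξ n) = ξ⁻¹ n`,
`eps_avg` with `y = a n`). Divide by `φ(p^j) / 2 ≠ 0`; `δ = eps ψ e`, `norm_eps`. -/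
theorem first_moment {p j k : ℕ} [Fact p.Prime] (hp2 : p ≠ 2) (hj : 1 ≤ j) (hjk : 2 * j ≤ k)
    (hle : j ≤ k) {ψ : DirichletCharacter ℂ (p ^ k)} (hψ : ψ.IsPrimitive)
    (h0 : ∀ ξ : DirichletCharacter ℂ (p ^ j),
      DirichletCharacter.LFunction (tw hle ψ ξ) (1 / 2) = 0) :
    ∃ e : ℕ, e ≤ 1 ∧ ∃ c : ZMod (p ^ j), IsUnit c ∧ ∃ δ : ℂ, ‖δ‖ = 1 ∧
      ∀ a : ℕ, a.Coprime p →
        ∑' n : ℕ, (if (n : ZMod (p ^ j)) = a ∨ (n : ZMod (p ^ j)) = -a then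
          (PW (p ^ k) e n : ℂ) * ψ (n : ZMod (p ^ k)) else 0) +
        δ * ∑' n : ℕ, (if (a : ZMod (p ^ j)) * n = c ∨ (a : ZMod (p ^ j)) * n = -c then
          (PW (p ^ k) e n : ℂ) * (starRingEnd ℂ) (ψ (n : ZMod (p ^ k))) else 0) = 0 := by
  have hp := (Fact.out : p.Prime)
  have hp3 : 3 ≤ p := by
    have h2 := hp.two_le
    omega
  have hk2 : 2 ≤ k := by omega
  have hjk' : j < k := by omega
  have hq1 : 1 < p ^ k := Nat.one_lt_pow (by omega) (by omega)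
  have hN3 : 3 ≤ p ^ j := le_trans hp3 (Nat.le_self_pow (by omega) p)
  obtain ⟨e, he, hpar⟩ : ∃ e : ℕ, e ≤ 1 ∧ ψ (-1) = (-1) ^ e := by
    rcases ψ.even_or_odd with h | h
    · exact ⟨0, by norm_num, by rw [pow_zero]; exact h⟩
    · exact ⟨1, le_rfl, by rw [pow_one]; exact h⟩
  obtain ⟨c, hc, havg⟩ := eps_avg hp2 hj hjk hle hψ e
  refine ⟨e, he, c, hc, eps ψ e, norm_eps ψ hψ e, fun a ha => ?_⟩
  have haU : IsUnit (a : ZMod (p ^ j)) :=
    (ZMod.isUnit_iff_coprime a (p ^ j)).2 (Nat.Coprime.pow_right j ha)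
  have hsW : Summable (fun n : ℕ => |PW (p ^ k) e n|) := summable_PW he
  -- the values at multiples of `p`
  have hdiv : ∀ n : ℕ, ¬ IsUnit (n : ZMod (p ^ j)) → ψ (n : ZMod (p ^ k)) = 0 := by
    intro n hn
    apply MulChar.map_nonunit
    intro h
    apply hn
    rw [ZMod.isUnit_iff_coprime] at h ⊢
    exact Nat.Coprime.pow_right j (Nat.Coprime.coprime_dvd_right (dvd_pow_self p (by omega)) h)
  have htw : ∀ ξ : DirichletCharacter ℂ (p ^ j), ∀ n : ℕ,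
      tw hle ψ ξ (n : ZMod (p ^ k)) = ψ (n : ZMod (p ^ k)) * ξ (n : ZMod (p ^ j)) := by
    intro ξ n
    have h := tw_apply hle (by omega) ψ ξ (n : ℤ)
    simpa using h
  have hconj : ∀ ξ : DirichletCharacter ℂ (p ^ j), ∀ n : ℕ,
      (starRingEnd ℂ) (ξ (n : ZMod (p ^ j))) = ξ⁻¹ (n : ZMod (p ^ j)) := by
    intro ξ n
    rw [← MulChar.star_eq_inv, MulChar.star_apply]
    rfl
  -- summability
  have hs1 : ∀ ξ : DirichletCharacter ℂ (p ^ j), Summable (fun n : ℕ =>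
      (PW (p ^ k) e n : ℂ) * ψ (n : ZMod (p ^ k)) * ξ (n : ZMod (p ^ j))) := by
    intro ξ
    refine Summable.of_norm_bounded hsW (fun n => ?_)
    rw [norm_mul, norm_mul, Complex.norm_real, Real.norm_eq_abs]
    have h1 := ψ.norm_le_one (n : ZMod (p ^ k))
    have h2 := ξ.norm_le_one (n : ZMod (p ^ j))
    calc |PW (p ^ k) e n| * ‖ψ (n : ZMod (p ^ k))‖ * ‖ξ (n : ZMod (p ^ j))‖
        ≤ |PW (p ^ k) e n| * 1 * 1 := by gcongr
      _ = |PW (p ^ k) e n| := by ring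
  have hs2 : ∀ ξ : DirichletCharacter ℂ (p ^ j), Summable (fun n : ℕ =>
      (PW (p ^ k) e n : ℂ) * (starRingEnd ℂ) (ψ (n : ZMod (p ^ k))) *
        ξ⁻¹ (n : ZMod (p ^ j))) := by
    intro ξ
    refine Summable.of_norm_bounded hsW (fun n => ?_)
    rw [norm_mul, norm_mul, Complex.norm_real, Real.norm_eq_abs, RCLike.norm_conj]
    have h1 := ψ.norm_le_one (n : ZMod (p ^ k))
    have h2 := ξ⁻¹.norm_le_one (n : ZMod (p ^ j))
    calc |PW (p ^ k) e n| * ‖ψ (n : ZMod (p ^ k))‖ * ‖ξ⁻¹ (n : ZMod (p ^ j))‖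
        ≤ |PW (p ^ k) e n| * 1 * 1 := by gcongr
      _ = |PW (p ^ k) e n| := by ring
  -- the approximate functional equation
  have key : ∀ ξ ∈ evn (p ^ j),
      ∑' n : ℕ, (PW (p ^ k) e n : ℂ) * ψ (n : ZMod (p ^ k)) * ξ (n : ZMod (p ^ j)) +
        eps (tw hle ψ ξ) e * ∑' n : ℕ, (PW (p ^ k) e n : ℂ) *
          (starRingEnd ℂ) (ψ (n : ZMod (p ^ k))) * ξ⁻¹ (n : ZMod (p ^ j)) = 0 := by
    intro ξ hξ
    have hξ1 : ξ (-1) = 1 := by
      unfold evn at hξ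
      exact (Finset.mem_filter.1 hξ).2
    have hpar' : tw hle ψ ξ (-1) = (-1) ^ e := by
      have h := tw_apply hle (by omega) ψ ξ (-1)
      push_cast at h
      rw [h, hξ1, mul_one, hpar]
    have hq0 : (0 : ℝ) < ((p ^ k : ℕ) : ℝ) := by exact_mod_cast (zero_lt_one.trans hq1)
    have hT : (0 : ℝ) < √((p ^ k : ℕ) : ℝ) := Real.sqrt_pos.2 hq0
    have h := afe' hq1 (tw hle ψ ξ) (tw_prim hk2 hjk' hψ ξ) he hpar' hT
    rw [h0 ξ] at h
    rw [h]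
    congr 1
    · refine tsum_congr fun n => ?_
      rw [htw, PW, VV]
      push_cast
      ring
    · congr 1
      refine tsum_congr fun n => ?_
      have h3 : (n : ℝ) * √((p ^ k : ℕ) : ℝ) / ((p ^ k : ℕ) : ℝ) =
          n / √((p ^ k : ℕ) : ℝ) := by
        rw [mul_div_assoc, Real.sqrt_div_self', mul_one_div]
      rw [htw, map_mul, hconj, h3, PW, VV]
      push_cast
      ring
  have hS : ∑ ξ ∈ evn (p ^ j), ξ⁻¹ (a : ZMod (p ^ j)) *
      (∑' n : ℕ, (PW (p ^ k) e n : ℂ) * ψ (n : ZMod (p ^ k)) * ξ (n : ZMod (p ^ j)) +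
        eps (tw hle ψ ξ) e * ∑' n : ℕ, (PW (p ^ k) e n : ℂ) *
          (starRingEnd ℂ) (ψ (n : ZMod (p ^ k))) * ξ⁻¹ (n : ZMod (p ^ j))) = 0 :=
    Finset.sum_eq_zero fun ξ hξ => by rw [key ξ hξ, mul_zero]
  simp only [mul_add] at hS
  rw [Finset.sum_add_distrib] at hS
  have hA : ∑ ξ ∈ evn (p ^ j), ξ⁻¹ (a : ZMod (p ^ j)) *
      ∑' n : ℕ, (PW (p ^ k) e n : ℂ) * ψ (n : ZMod (p ^ k)) * ξ (n : ZMod (p ^ j)) =
      ((p ^ j).totient : ℂ) / 2 * ∑' n : ℕ,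
        (if (n : ZMod (p ^ j)) = a ∨ (n : ZMod (p ^ j)) = -a then
          (PW (p ^ k) e n : ℂ) * ψ (n : ZMod (p ^ k)) else 0) := by
    simp only [← tsum_mul_left]
    rw [← Summable.tsum_finsetSum (fun ξ _ => (hs1 ξ).mul_left _)]
    refine tsum_congr fun n => ?_
    have h1 : ∑ ξ ∈ evn (p ^ j), ξ⁻¹ (a : ZMod (p ^ j)) * ((PW (p ^ k) e n : ℂ) *
        ψ (n : ZMod (p ^ k)) * ξ (n : ZMod (p ^ j))) =
        (PW (p ^ k) e n : ℂ) * ψ (n : ZMod (p ^ k)) *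
          ∑ ξ ∈ evn (p ^ j), ξ⁻¹ (a : ZMod (p ^ j)) * ξ (n : ZMod (p ^ j)) := by
      rw [Finset.mul_sum]
      refine Finset.sum_congr rfl fun ξ _ => ?_
      ring
    rw [h1, evn_orth hN3 haU]
    split_ifs
    · ring
    · ring
  have hB : ∑ ξ ∈ evn (p ^ j), ξ⁻¹ (a : ZMod (p ^ j)) *
      (eps (tw hle ψ ξ) e * ∑' n : ℕ, (PW (p ^ k) e n : ℂ) *
          (starRingEnd ℂ) (ψ (n : ZMod (p ^ k))) * ξ⁻¹ (n : ZMod (p ^ j))) =
      ((p ^ j).totient : ℂ) / 2 * (eps ψ e * ∑' n : ℕ,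
        (if (a : ZMod (p ^ j)) * n = c ∨ (a : ZMod (p ^ j)) * n = -c then
          (PW (p ^ k) e n : ℂ) * (starRingEnd ℂ) (ψ (n : ZMod (p ^ k))) else 0)) := by
    simp only [← tsum_mul_left]
    rw [← Summable.tsum_finsetSum (fun ξ _ => ((hs2 ξ).mul_left _).mul_left _)]
    refine tsum_congr fun n => ?_
    by_cases hn : IsUnit (n : ZMod (p ^ j))
    · have h1 : ∑ ξ ∈ evn (p ^ j), ξ⁻¹ (a : ZMod (p ^ j)) * (eps (tw hle ψ ξ) e *
          ((PW (p ^ k) e n : ℂ) * (starRingEnd ℂ) (ψ (n : ZMod (p ^ k))) *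
            ξ⁻¹ (n : ZMod (p ^ j)))) =
          (PW (p ^ k) e n : ℂ) * (starRingEnd ℂ) (ψ (n : ZMod (p ^ k))) *
            ∑ ξ ∈ evn (p ^ j), eps (tw hle ψ ξ) e * ξ⁻¹ ((a : ZMod (p ^ j)) * n) := by
        rw [Finset.mul_sum]
        refine Finset.sum_congr rfl fun ξ _ => ?_
        rw [map_mul]
        ring
      rw [h1, havg _ (haU.mul hn)]
      split_ifs
      · ring
      · ring
    · rw [hdiv n hn]
      simp
  rw [hA, hB, ← mul_add] at hS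
  have hφ : ((p ^ j).totient : ℂ) / 2 ≠ 0 := by
    have h1 : 0 < (p ^ j).totient := Nat.totient_pos.2 (by omega)
    have h2 : ((p ^ j).totient : ℂ) ≠ 0 := by exact_mod_cast h1.ne'
    exact div_ne_zero h2 two_ne_zero
  exact (mul_eq_zero.1 hS).resolve_left hφ

end Pool.Agent.NVW
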