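import Pool.Agent.Lib.MP_afd523_nt_W.WTw

set_option autoImplicit false

/-!
Project W: local linearisation of the differenced phase.

`ft ψ j u t = ψ (u + p^j t)` and `zz` is the ratio of the geometric progressions.
-/

namespace Pool.Agent.NVW

open Finset Complex MeasureTheory Pool.Agent.NV

noncomputable section

/-- The function of the residue class. -/
def ft {p k : ℕ} (ψ : DirichletCharacter ℂ (p ^ k)) (j u t : ℕ) : ℂ :=
  ψ ((u + p ^ j * t : ℕ) : ZMod (p ^ k))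

/-- The point `x₀ = u + p^j t₀`. -/
def x0 (p k j u t : ℕ) : ZMod (p ^ k) := ((u + p ^ j * t : ℕ) : ZMod (p ^ k))

/-- The ratio: `ψ (1 - p^(2 j + i + m) h / (x₀ (x₀ + p^(j+i) h)))`. -/
def zz {p k : ℕ} (ψ : DirichletCharacter ℂ (p ^ k)) (j i m u h t : ℕ) : ℂ :=
  ψ (1 + (p : ZMod (p ^ k)) ^ (2 * j + i + m) *
    (-(h : ZMod (p ^ k)) * (x0 p k j u t)⁻¹ * (x0 p k j u t + (p : ZMod (p ^ k)) ^ (j + i) * h)⁻¹))

/-- The elements involved are units. Proof. `u` is coprime to `p`, `j ≥ 1`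
(`ZMod.isUnit_iff_coprime`). -/
theorem x0_unit {p k j i u : ℕ} [Fact p.Prime] (hj : 1 ≤ j) (hu : u.Coprime p) (h t : ℕ) :
    IsUnit (x0 p k j u t) ∧ IsUnit (x0 p k j u t + (p : ZMod (p ^ k)) ^ (j + i) * h) := by
  obtain ⟨n, rfl⟩ : ∃ n, j = n + 1 := ⟨j - 1, by omega⟩
  have key : ∀ y : ℕ, IsUnit ((u + p ^ (n + 1) * y : ℕ) : ZMod (p ^ k)) := by
    intro y
    rw [ZMod.isUnit_iff_coprime]
    apply Nat.Coprime.pow_right
    have e : u + p ^ (n + 1) * y = u + (p ^ n * y) * p := by rw [pow_succ]; ring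
    rw [e]
    exact (Nat.coprime_add_mul_right_left u p (p ^ n * y)).2 hu
  refine ⟨key t, ?_⟩
  have h1 := key (t + p ^ i * h)
  have e : x0 p k (n + 1) u t + (p : ZMod (p ^ k)) ^ (n + 1 + i) * h =
      ((u + p ^ (n + 1) * (t + p ^ i * h) : ℕ) : ZMod (p ^ k)) := by
    rw [x0]
    push_cast
    ring
  rw [e]
  exact h1

private theorem WLin_conj {p k : ℕ} (ψ : DirichletCharacter ℂ (p ^ k)) {x : ZMod (p ^ k)}
    (hx : IsUnit x) : ψ x ≠ 0 ∧ (starRingEnd ℂ) (ψ x) = (ψ x)⁻¹ := by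
  obtain ⟨y, rfl⟩ := hx
  have h1 : ‖ψ (y : ZMod (p ^ k))‖ = 1 := ψ.unit_norm_eq_one y
  refine ⟨fun h0 => ?_, (Complex.inv_eq_conj h1).symm⟩
  rw [h0, norm_zero] at h1
  exact zero_ne_one h1

/-- Local linearisation: `ft (t + h p^i) * conj (ft t)` is, on `t = t₀ + p^m t₁`, a geometric
progression in `t₁`.

Proof. Let `x = x₀ + p^(j+m) t₁`, `D = p^(j+i) h`. `conj (ψ x) = ψ x⁻¹` for the unit `x`. In
`ZMod (p ^ k)`: `(x + D) x⁻¹ = (x₀ + D) x₀⁻¹ (1 - D (x - x₀) x⁻¹ (x₀ + D)⁻¹)`, and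
`D (x - x₀) = p^(2j+i+m) h t₁`; here `x⁻¹` may be replaced by `x₀⁻¹` as
`x⁻¹ - x₀⁻¹ = -p^(j+m) t₁ x⁻¹ x₀⁻¹` and `p^(2j+i+m) p^(j+m) = 0` (`k ≤ 3 j + i + 2 m`). Then
`psi_pow` with `s = 2 j + i + m`. -/
theorem lin {p k j i m u : ℕ} [Fact p.Prime] (hj : 1 ≤ j) (hk : k ≤ 3 * j + i + 2 * m)
    (hu : u.Coprime p) (ψ : DirichletCharacter ℂ (p ^ k)) (h t₀ t₁ : ℕ) :
    ft ψ j u (t₀ + p ^ m * t₁ + h * p ^ i) * (starRingEnd ℂ) (ft ψ j u (t₀ + p ^ m * t₁)) =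
      ft ψ j u (t₀ + h * p ^ i) * (starRingEnd ℂ) (ft ψ j u t₀) * zz ψ j i m u h t₀ ^ t₁ := by
  obtain ⟨ux0, uD0⟩ := x0_unit (k := k) (i := i) hj hu h t₀
  obtain ⟨ux, -⟩ := x0_unit (k := k) (i := i) hj hu h (t₀ + p ^ m * t₁)
  obtain ⟨nx0, cx0⟩ := WLin_conj ψ ux0
  obtain ⟨nx, cx⟩ := WLin_conj ψ ux
  have e1 : ft ψ j u (t₀ + p ^ m * t₁ + h * p ^ i) =
      ψ (x0 p k j u (t₀ + p ^ m * t₁) + (p : ZMod (p ^ k)) ^ (j + i) * h) := by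
    rw [ft, x0]
    push_cast
    ring_nf
  have e2 : ft ψ j u (t₀ + h * p ^ i) =
      ψ (x0 p k j u t₀ + (p : ZMod (p ^ k)) ^ (j + i) * h) := by
    rw [ft, x0]
    push_cast
    ring_nf
  have e3 : ft ψ j u (t₀ + p ^ m * t₁) = ψ (x0 p k j u (t₀ + p ^ m * t₁)) := rfl
  have e4 : ft ψ j u t₀ = ψ (x0 p k j u t₀) := rfl
  have hs : k ≤ 2 * (2 * j + i + m) := by omega
  have e5 : zz ψ j i m u h t₀ ^ t₁ = ψ (1 + (p : ZMod (p ^ k)) ^ (2 * j + i + m) *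
      ((-(h : ZMod (p ^ k)) * (x0 p k j u t₀)⁻¹ *
        (x0 p k j u t₀ + (p : ZMod (p ^ k)) ^ (j + i) * h)⁻¹) * t₁)) := by
    rw [zz, psi_pow hs]
  rw [e1, e2, e3, e4, e5, cx, cx0]
  have e6 : x0 p k j u (t₀ + p ^ m * t₁) = x0 p k j u t₀ + (p : ZMod (p ^ k)) ^ (j + m) * t₁ := by
    rw [x0, x0]
    push_cast
    ring
  have hz : (p : ZMod (p ^ k)) ^ (2 * j + i + m) * (p : ZMod (p ^ k)) ^ (j + m) = 0 := by
    obtain ⟨c, hc⟩ : ∃ c, 2 * j + i + m + (j + m) = k + c :=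
      ⟨2 * j + i + m + (j + m) - k, by omega⟩
    rw [← pow_add, hc, pow_add, ← Nat.cast_pow, ZMod.natCast_self, zero_mul]
  have hi0 : x0 p k j u t₀ * (x0 p k j u t₀)⁻¹ = 1 := ZMod.mul_inv_of_unit _ ux0
  have hiD : (x0 p k j u t₀ + (p : ZMod (p ^ k)) ^ (j + i) * h) *
      (x0 p k j u t₀ + (p : ZMod (p ^ k)) ^ (j + i) * h)⁻¹ = 1 := ZMod.mul_inv_of_unit _ uD0
  have key : (x0 p k j u (t₀ + p ^ m * t₁) + (p : ZMod (p ^ k)) ^ (j + i) * h) * x0 p k j u t₀ =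
      (x0 p k j u t₀ + (p : ZMod (p ^ k)) ^ (j + i) * h) * x0 p k j u (t₀ + p ^ m * t₁) *
      (1 + (p : ZMod (p ^ k)) ^ (2 * j + i + m) *
      ((-(h : ZMod (p ^ k)) * (x0 p k j u t₀)⁻¹ *
        (x0 p k j u t₀ + (p : ZMod (p ^ k)) ^ (j + i) * h)⁻¹) * t₁)) := by
    rw [e6]
    have hp : (p : ZMod (p ^ k)) ^ (2 * j + i + m) =
      (p : ZMod (p ^ k)) ^ (j + i) * (p : ZMod (p ^ k)) ^ (j + m) := by
      rw [← pow_add]
      congr 1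
      omega
    generalize (x0 p k j u t₀ + (p : ZMod (p ^ k)) ^ (j + i) * h)⁻¹ = Y' at *
    generalize (x0 p k j u t₀)⁻¹ = X' at *
    generalize x0 p k j u t₀ = X at *
    generalize (p : ZMod (p ^ k)) ^ (2 * j + i + m) = S at *
    generalize (p : ZMod (p ^ k)) ^ (j + m) = Q at *
    generalize (p : ZMod (p ^ k)) ^ (j + i) = R at *
    linear_combination (h * t₁ : ZMod (p ^ k)) * hp + S * h * t₁ * (X * X') * hiD +
      S * h * t₁ * hi0 + h * t₁ * t₁ * (X + R * h) * Y' * X' * hz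
  have key2 := congrArg ψ key
  rw [map_mul, map_mul, map_mul] at key2
  field_simp
  linear_combination key2

end

end Pool.Agent.NVW
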