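import Pool.Agent.Lib.MP_afd523_nt_W.WEx

set_option autoImplicit false

/-!
Project W: the count.
-/

namespace Pool.Agent.NVW

open Finset Complex MeasureTheory Pool.Agent.NV

private theorem WMain_tw_tw {p i j k : ℕ} (hij : i ≤ j) (hjk : j ≤ k)
    (ψ : DirichletCharacter ℂ (p ^ k)) (ξ : DirichletCharacter ℂ (p ^ j))
    (ζ : DirichletCharacter ℂ (p ^ i)) :
    tw (hij.trans hjk) (tw hjk ψ ξ) ζ =
      tw hjk ψ (ξ * DirichletCharacter.changeLevel (pow_dvd_pow p hij) ζ) := by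
  unfold tw
  rw [map_mul, mul_assoc, ← DirichletCharacter.changeLevel_trans]

private theorem WMain_card {p i j k : ℕ} [Fact p.Prime] (hi : 1 ≤ i) (hij : i ≤ j)
    (hjk : j ≤ k) (ψ : DirichletCharacter ℂ (p ^ k))
    (h : ∀ ξ : DirichletCharacter ℂ (p ^ j), ∃ ζ : DirichletCharacter ℂ (p ^ i),
      DirichletCharacter.LFunction (tw (hij.trans hjk) (tw hjk ψ ξ) ζ) (1 / 2) ≠ 0) :
    p ^ j ≤ p ^ i * Nat.card {ξ : DirichletCharacter ℂ (p ^ j) //
      DirichletCharacter.LFunction (tw hjk ψ ξ) (1 / 2) ≠ 0} := by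
  classical
  have hp : p.Prime := Fact.out
  choose Z hZ using h
  have hZ' : ∀ ξ : DirichletCharacter ℂ (p ^ j), DirichletCharacter.LFunction
      (tw hjk ψ (ξ * DirichletCharacter.changeLevel (pow_dvd_pow p hij) (Z ξ))) (1 / 2) ≠ 0 := by
    intro ξ
    rw [← WMain_tw_tw hij hjk]
    exact hZ ξ
  let F : DirichletCharacter ℂ (p ^ j) → DirichletCharacter ℂ (p ^ i) ×
      {ξ : DirichletCharacter ℂ (p ^ j) //
        DirichletCharacter.LFunction (tw hjk ψ ξ) (1 / 2) ≠ 0} := fun ξ => (Z ξ, ⟨_, hZ' ξ⟩)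
  have hF : Function.Injective F := by
    intro ξ₁ ξ₂ h12
    have h1 : Z ξ₁ = Z ξ₂ := congrArg Prod.fst h12
    have h2 : ξ₁ * DirichletCharacter.changeLevel (pow_dvd_pow p hij) (Z ξ₁) =
        ξ₂ * DirichletCharacter.changeLevel (pow_dvd_pow p hij) (Z ξ₂) :=
      congrArg Subtype.val (congrArg Prod.snd h12)
    rw [h1] at h2
    exact mul_right_cancel h2
  have hc := Nat.card_le_card_of_injective F hF
  rw [Nat.card_prod, DirichletCharacter.card_eq_totient_of_hasEnoughRootsOfUnity,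
    DirichletCharacter.card_eq_totient_of_hasEnoughRootsOfUnity,
    Nat.totient_prime_pow hp (lt_of_lt_of_le hi hij), Nat.totient_prime_pow hp hi] at hc
  have hp1 : 0 < p - 1 := Nat.sub_pos_of_lt hp.one_lt
  have hc' : p ^ (j - 1) * (p - 1) ≤ (p ^ (i - 1) * Nat.card {ξ : DirichletCharacter ℂ (p ^ j) //
      DirichletCharacter.LFunction (tw hjk ψ ξ) (1 / 2) ≠ 0}) * (p - 1) := by
    calc _ ≤ _ := hc
      _ = _ := by ring
  have hc2 := Nat.le_of_mul_le_mul_right hc' hp1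
  calc p ^ j = p * p ^ (j - 1) := by
        rw [← pow_succ', Nat.sub_add_cancel (hi.trans hij)]
    _ ≤ p * (p ^ (i - 1) * _) := Nat.mul_le_mul_left p hc2
    _ = p ^ i * _ := by
        rw [← mul_assoc, ← pow_succ', Nat.sub_add_cancel hi]

/-- The count.

Proof. Let `ε' = min (ε / 2) (1 / 100)`, `j₀ = ⌈(1/6 + ε') k⌉ ≤ j` (for `k` large `j₀ ≤
(1/6 + ε) k ≤ j`). For every `ξ` modulo `p^j` apply `exists_ne` to the primitive character
`tw ψ ξ` (`tw_prim` if `j < k`; if `j = k` apply it only to those `ξ` with `tw ψ ξ` primitive: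
for `j = k` use `j = k - 1` first and that the twists by characters modulo `p^(k-1)` are among
those by characters modulo `p^k`; or restrict the count to `j < k` and treat `j = k` by the
inclusion, losing a factor `p` in the count, which is absorbed by `q^(ε - ε')`): there is `ζ`
modulo `p^j₀` with `L(1/2, tw (tw ψ ξ) ζ) ≠ 0`, and `tw (tw ψ ξ) ζ = tw ψ (ξ ζ')` with
`ζ' = changeLevel ζ` modulo `p^j` (`DirichletCharacter.changeLevel_trans`). So the pairs `(ξ, ζ)`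
with `ξ ζ'` good number at least `φ(p^j)`, and they number `φ(p^j₀) * (number of good ξ)`. So
`good ≥ φ(p^j) / φ(p^j₀) = p^(j - j₀)` and `p^j₀ ≤ p q^(1/6+ε') ≤ q^(1/6+ε)` for `k` large. -/
theorem count {ε : ℝ} (hε : 0 < ε) : ∃ k₀ : ℕ,
    ∀ (p k : ℕ) [Fact p.Prime], p ≠ 2 → k₀ ≤ k → ∀ (j : ℕ) (hle : j ≤ k),
    (1 / 6 + ε) * k ≤ j → ∀ ψ : DirichletCharacter ℂ (p ^ k), ψ.IsPrimitive →
      (p : ℝ) ^ j / ((p : ℝ) ^ k) ^ (1 / 6 + ε) ≤
        Nat.card {ξ : DirichletCharacter ℂ (p ^ j) //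
          DirichletCharacter.LFunction (tw hle ψ ξ) (1 / 2) ≠ 0} := by
  classical
  set ε' : ℝ := min (ε / 2) (1 / 100) with hε'
  have hε'0 : 0 < ε' := lt_min (by linarith) (by norm_num)
  have hε'1 : ε' ≤ 1 / 100 := min_le_right _ _
  have hε'2 : ε' ≤ ε / 2 := min_le_left _ _
  obtain ⟨k₁, hk₁⟩ := exists_ne hε'0 hε'1
  obtain ⟨k₂, hk₂⟩ := exists_nat_ge (4 / ε)
  refine ⟨max k₁ (max k₂ 2), fun p k _ hp2 hk j hle hj ψ hψ => ?_⟩
  have hp : p.Prime := Fact.out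
  have hkk₁ : k₁ ≤ k := (le_max_left _ _).trans hk
  have hkk₂ : k₂ ≤ k := ((le_max_left _ _).trans (le_max_right _ _)).trans hk
  have hk2 : 2 ≤ k := ((le_max_right _ _).trans (le_max_right _ _)).trans hk
  have hkR : 4 / ε ≤ (k : ℝ) := hk₂.trans (by exact_mod_cast hkk₂)
  have hk4 : 4 ≤ (k : ℝ) * ε := (div_le_iff₀ hε).mp hkR
  have hkpos : (0 : ℝ) < k := by positivity
  set j₀ : ℕ := ⌈(1 / 6 + ε') * k⌉₊ with hj₀
  have hj₀1 : 1 ≤ j₀ := Nat.one_le_iff_ne_zero.mpr (Nat.ceil_pos.mpr (by positivity)).ne'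
  have hj₀2 : (j₀ : ℝ) < (1 / 6 + ε') * k + 1 := Nat.ceil_lt_add_one (by positivity)
  have hj₀3 : (j₀ : ℝ) + 1 ≤ (1 / 6 + ε) * k := by nlinarith
  have hj₀4 : j₀ + 1 ≤ j := by
    have : ((j₀ + 1 : ℕ) : ℝ) ≤ j := by push_cast; linarith
    exact_mod_cast this
  have hp1 : (1 : ℝ) ≤ p := by exact_mod_cast hp.one_lt.le
  have hp0 : (0 : ℝ) < p := by linarith
  have hq : (p : ℝ) ^ (j₀ + 1) ≤ ((p : ℝ) ^ k) ^ (1 / 6 + ε) := by
    rw [← Real.rpow_natCast (p : ℝ) k, ← Real.rpow_mul hp0.le, ← Real.rpow_natCast]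
    apply Real.rpow_le_rpow_of_exponent_le hp1
    push_cast
    linarith
  have hqpos : (0 : ℝ) < ((p : ℝ) ^ k) ^ (1 / 6 + ε) := by positivity
  have hkey : ∀ (i : ℕ) (hi : j₀ ≤ i) (hik : i < k),
      p ^ i ≤ p ^ j₀ * Nat.card {ξ : DirichletCharacter ℂ (p ^ i) //
        DirichletCharacter.LFunction (tw hik.le ψ ξ) (1 / 2) ≠ 0} := by
    intro i hi hik
    refine WMain_card hj₀1 hi hik.le ψ (fun ξ => ?_)
    exact hk₁ p k hp2 hkk₁ j₀ hj₀ (hi.trans hik.le) _ (tw_prim hk2 hik hψ ξ)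
  rw [div_le_iff₀ hqpos]
  rcases Nat.lt_or_ge j k with hjk | hjk
  · have h1 := hkey j (by omega) hjk
    have h1' : (p : ℝ) ^ j ≤ (p : ℝ) ^ j₀ * Nat.card {ξ : DirichletCharacter ℂ (p ^ j) //
        DirichletCharacter.LFunction (tw hle ψ ξ) (1 / 2) ≠ 0} := by exact_mod_cast h1
    refine h1'.trans ?_
    rw [mul_comm]
    refine mul_le_mul_of_nonneg_left ?_ (by positivity)
    refine le_trans ?_ hq
    exact pow_le_pow_right₀ hp1 (by omega)
  · obtain rfl : j = k := le_antisymm hle hjk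
    have h1 := hkey (j - 1) (by omega) (by omega)
    have hinj : Nat.card {ξ : DirichletCharacter ℂ (p ^ (j - 1)) //
        DirichletCharacter.LFunction (tw (by omega : j - 1 ≤ j) ψ ξ) (1 / 2) ≠ 0} ≤
        Nat.card {ξ : DirichletCharacter ℂ (p ^ j) //
        DirichletCharacter.LFunction (tw hle ψ ξ) (1 / 2) ≠ 0} := by
      have hne : NeZero (p ^ j) := ⟨(pow_pos hp.pos j).ne'⟩
      have hval : ∀ ξ : {ξ : DirichletCharacter ℂ (p ^ (j - 1)) //
          DirichletCharacter.LFunction (tw (by omega : j - 1 ≤ j) ψ ξ) (1 / 2) ≠ 0},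
          DirichletCharacter.LFunction (tw hle ψ (DirichletCharacter.changeLevel
            (pow_dvd_pow p (by omega : j - 1 ≤ j)) ξ.1)) (1 / 2) ≠ 0 := by
        intro ξ
        have h := ξ.2
        unfold tw at h ⊢
        rw [← DirichletCharacter.changeLevel_trans]
        exact h
      refine Nat.card_le_card_of_injective (fun ξ => ⟨DirichletCharacter.changeLevel
            (pow_dvd_pow p (by omega : j - 1 ≤ j)) ξ.1, hval ξ⟩) ?_
      intro ξ₁ ξ₂ h12
      exact Subtype.ext (DirichletCharacter.changeLevel_injective _ (congrArg Subtype.val h12))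
    have h2 : p ^ j ≤ p ^ (j₀ + 1) * Nat.card {ξ : DirichletCharacter ℂ (p ^ j) //
        DirichletCharacter.LFunction (tw hle ψ ξ) (1 / 2) ≠ 0} := by
      calc p ^ j = p * p ^ (j - 1) := by rw [← pow_succ', Nat.sub_add_cancel (by omega)]
        _ ≤ p * (p ^ j₀ * _) := Nat.mul_le_mul_left p h1
        _ = p ^ (j₀ + 1) * _ := by rw [pow_succ]; ring
        _ ≤ _ := Nat.mul_le_mul_left _ hinj
    have h2' : (p : ℝ) ^ j ≤ (p : ℝ) ^ (j₀ + 1) * Nat.card {ξ : DirichletCharacter ℂ (p ^ j) //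
        DirichletCharacter.LFunction (tw hle ψ ξ) (1 / 2) ≠ 0} := by exact_mod_cast h2
    refine h2'.trans ?_
    rw [mul_comm]
    exact mul_le_mul_of_nonneg_left hq (by positivity)

end Pool.Agent.NVW
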