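import Pool.Agent.Lib.MP_afd523_nt_W.WRoot

set_option autoImplicit false

/-!
Project W: averages over the even characters modulo `p ^ j`.
-/

namespace Pool.Agent.NVW

open Finset Complex MeasureTheory Pool.Agent.NV

/-- The even characters modulo `N`. -/
noncomputable def evn (N : ℕ) [NeZero N] : Finset (DirichletCharacter ℂ N) := by
  classical
  exact Finset.univ.filter (fun ξ => ξ (-1) = 1)

private theorem WOrth_inv {N : ℕ} {y : ZMod N} (hy : IsUnit y)
    (ξ : DirichletCharacter ℂ N) : ξ⁻¹ y = ξ y⁻¹ := by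
  obtain ⟨u, rfl⟩ := hy
  rw [MulChar.inv_apply, Ring.inverse_unit, ZMod.inv_coe_unit]

private theorem WOrth_ne {N : ℕ} (hN : 3 ≤ N) {y : ZMod N} (hy : IsUnit y) : y ≠ -y := by
  intro h
  have h1 : y * 2 = 0 := by linear_combination h
  have h2 : (2 : ZMod N) = 0 := hy.mul_right_eq_zero.1 h1
  have h3 : ((2 : ℕ) : ZMod N) = 0 := by exact_mod_cast h2
  have h4 := (ZMod.natCast_eq_zero_iff 2 N).1 h3
  have h5 := Nat.le_of_dvd (by norm_num) h4
  omega

/-- Orthogonality of the even characters.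

Proof. `1_{ξ (-1) = 1} = (1 + ξ (-1)) / 2`, so the sum is
`(1/2) (∑ ξ, ξ (x y⁻¹) + ∑ ξ, ξ (-x y⁻¹))`; `DirichletCharacter.sum_char_inv_mul_char_eq` (the sum
over all characters of `ξ a⁻¹ * ξ b` is `φ(N)` if `a = b` and `0` otherwise). As `N ≥ 3` and `y` is
a unit, `y ≠ -y`. -/
theorem evn_orth {N : ℕ} [NeZero N] (hN : 3 ≤ N) {y : ZMod N} (hy : IsUnit y) (x : ZMod N) :
    ∑ ξ ∈ evn N, ξ⁻¹ y * ξ x = if x = y ∨ x = -y then (N.totient : ℂ) / 2 else 0 := by
  classical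
  have hne := WOrth_ne hN hy
  have h1 : ∀ ξ : DirichletCharacter ℂ N, ξ (-1) = 1 ∨ ξ (-1) = -1 := by
    intro ξ
    have h : (ξ (-1) - 1) * (ξ (-1) + 1) = 0 := by
      have h2 : ξ (-1) * ξ (-1) = 1 := by rw [← map_mul, neg_one_mul, neg_neg, map_one]
      linear_combination h2
    rcases mul_eq_zero.1 h with h | h
    · exact Or.inl (sub_eq_zero.1 h)
    · exact Or.inr (eq_neg_of_add_eq_zero_left h)
  have h2 : ∑ ξ ∈ evn N, ξ⁻¹ y * ξ x = ∑ ξ : DirichletCharacter ℂ N,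
      (1 / 2 : ℂ) * (ξ y⁻¹ * ξ x + ξ y⁻¹ * ξ (-x)) := by
    unfold evn
    rw [Finset.sum_filter]
    refine Finset.sum_congr rfl fun ξ _ => ?_
    have hx : ξ (-x) = ξ (-1) * ξ x := by rw [← map_mul, neg_one_mul]
    rw [WOrth_inv hy ξ, hx]
    rcases h1 ξ with h | h
    · rw [if_pos h, h]
      ring
    · rw [if_neg (by rw [h]; norm_num), h]
      ring
  rw [h2, ← Finset.mul_sum, Finset.sum_add_distrib,
    DirichletCharacter.sum_char_inv_mul_char_eq ℂ hy x,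
    DirichletCharacter.sum_char_inv_mul_char_eq ℂ hy (-x)]
  by_cases hx1 : x = y
  · have h3 : y ≠ -x := by
      rw [hx1]
      exact hne
    rw [if_pos hx1.symm, if_neg h3, if_pos (Or.inl hx1)]
    ring
  · by_cases hx2 : x = -y
    · have h3 : y = -x := by rw [hx2, neg_neg]
      rw [if_neg (fun h => hx1 h.symm), if_pos h3, if_pos (Or.inr hx2)]
      ring
    · rw [if_neg (fun h => hx1 h.symm), if_neg (fun h => hx2 (by rw [h, neg_neg])),
        if_neg (by tauto)]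
      ring

/-- The average of the root numbers.

Proof. `tw hle ψ ξ` has the parity of `ψ` for `ξ ∈ evn`. Unfold `eps` and the Gauss sum:
`gaussSum (tw ψ ξ) stdAddChar = ∑ x, ψ x ξ(x mod p^j) stdAddChar x` (`tw_apply`), exchange the sums;
`∑ ξ, ξ⁻¹ (n a) ξ(x) = φ/2` if `x = ± n a` modulo `p^j` (`evn_orth`); then `gauss_class` for the two
classes `y = n a` and `y = - n a` (they are different), which are `-c` iff `n a = -c` resp.
`n a = c`. -/
theorem eps_avg {p j k : ℕ} [Fact p.Prime] (hp2 : p ≠ 2) (hj : 1 ≤ j) (hjk : 2 * j ≤ k)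
    (hle : j ≤ k) {ψ : DirichletCharacter ℂ (p ^ k)} (hψ : ψ.IsPrimitive) (e : ℕ) :
    ∃ c : ZMod (p ^ j), IsUnit c ∧ ∀ y : ZMod (p ^ j), IsUnit y →
      ∑ ξ ∈ evn (p ^ j), eps (tw hle ψ ξ) e * ξ⁻¹ y =
        if y = c ∨ y = -c then ((p ^ j).totient : ℂ) / 2 * eps ψ e else 0 := by
  classical
  obtain ⟨c, hc, hS⟩ := gauss_class (p := p) hj hjk hle hψ
  refine ⟨c, hc, fun y hy => ?_⟩
  have hN3 : 3 ≤ p ^ j := by
    have h1 : 3 ≤ p := by
      have := (Fact.out : p.Prime).two_le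
      omega
    calc 3 ≤ p := h1
      _ = p ^ 1 := (pow_one p).symm
      _ ≤ p ^ j := Nat.pow_le_pow_right (by omega) hj
  have hcne := WOrth_ne hN3 hc
  have hyne := WOrth_ne hN3 hy
  have htw : ∀ (ξ : DirichletCharacter ℂ (p ^ j)) (x : ZMod (p ^ k)), tw hle ψ ξ x =
      ψ x * ξ (ZMod.castHom (pow_dvd_pow p hle) (ZMod (p ^ j)) x) := by
    intro ξ x
    have hx : ((x.val : ℤ) : ZMod (p ^ k)) = x := by
      push_cast
      exact ZMod.natCast_zmod_val x
    have hx2 : ((x.val : ℤ) : ZMod (p ^ j)) =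
        ZMod.castHom (pow_dvd_pow p hle) (ZMod (p ^ j)) x := by
      push_cast
      rw [ZMod.castHom_apply, ZMod.natCast_val]
    have h := tw_apply hle (by omega) ψ ξ (x.val : ℤ)
    rw [hx, hx2] at h
    exact h
  have e1 : ∑ ξ ∈ evn (p ^ j), eps (tw hle ψ ξ) e * ξ⁻¹ y =
      (-I) ^ e / ((√((p ^ k : ℕ) : ℝ) : ℝ) : ℂ) * ∑ x : ZMod (p ^ k),
      ψ x * (ZMod.stdAddChar x : ℂ) * ∑ ξ ∈ evn (p ^ j), ξ⁻¹ y *
        ξ (ZMod.castHom (pow_dvd_pow p hle) (ZMod (p ^ j)) x) := by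
    have h1 : ∀ ξ ∈ evn (p ^ j), eps (tw hle ψ ξ) e * ξ⁻¹ y = ∑ x : ZMod (p ^ k),
        (-I) ^ e / ((√((p ^ k : ℕ) : ℝ) : ℝ) : ℂ) * (ψ x * (ZMod.stdAddChar x : ℂ) *
        (ξ⁻¹ y * ξ (ZMod.castHom (pow_dvd_pow p hle) (ZMod (p ^ j)) x))) := by
      intro ξ _
      unfold eps gaussSum
      rw [Finset.mul_sum, Finset.sum_div, Finset.sum_mul]
      refine Finset.sum_congr rfl fun x _ => ?_
      rw [htw]
      ring
    rw [Finset.sum_congr rfl h1, Finset.sum_comm, Finset.mul_sum]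
    refine Finset.sum_congr rfl fun x _ => ?_
    rw [Finset.mul_sum, Finset.mul_sum]
  have e2 : ∀ x : ZMod (p ^ k), ψ x * (ZMod.stdAddChar x : ℂ) * ∑ ξ ∈ evn (p ^ j), ξ⁻¹ y *
        ξ (ZMod.castHom (pow_dvd_pow p hle) (ZMod (p ^ j)) x) =
      ((p ^ j).totient : ℂ) / 2 *
        ((if ZMod.castHom (pow_dvd_pow p hle) (ZMod (p ^ j)) x = y then
          ψ x * (ZMod.stdAddChar x : ℂ) else 0) +
        (if ZMod.castHom (pow_dvd_pow p hle) (ZMod (p ^ j)) x = -y then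
          ψ x * (ZMod.stdAddChar x : ℂ) else 0)) := by
    intro x
    rw [evn_orth hN3 hy]
    by_cases h1 : ZMod.castHom (pow_dvd_pow p hle) (ZMod (p ^ j)) x = y
    · rw [if_pos (Or.inl h1), if_pos h1, if_neg (by rw [h1]; exact hyne)]
      ring
    · by_cases h2 : ZMod.castHom (pow_dvd_pow p hle) (ZMod (p ^ j)) x = -y
      · rw [if_pos (Or.inr h2), if_neg h1, if_pos h2]
        ring
      · rw [if_neg (by tauto), if_neg h1, if_neg h2]
        ring
  rw [e1, Finset.sum_congr rfl fun x _ => e2 x, ← Finset.mul_sum, Finset.sum_add_distrib,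
    ← Finset.sum_filter, ← Finset.sum_filter, hS, hS]
  unfold eps
  by_cases h1 : y = c
  · have h2 : y ≠ -c := by
      rw [h1]
      exact hcne
    rw [if_neg h2, if_pos (by rw [h1]), if_pos (Or.inl h1)]
    ring
  · have h3 : ¬ (-y = -c) := fun h => h1 (neg_injective h)
    by_cases h2 : y = -c
    · rw [if_pos h2, if_neg h3, if_pos (Or.inr h2)]
      ring
    · rw [if_neg h2, if_neg h3, if_neg (by tauto)]
      ring

end Pool.Agent.NVW
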