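import Mathlib

set_option autoImplicit false

/-!
Project W: choice of the parameters.
-/

namespace Pool.Agent.NVW

open Finset

/-- the threshold for `k` -/
private theorem wpar_thr {ε : ℝ} (hε : 0 < ε) : ∃ k₀ : ℕ, ∀ k : ℕ, k₀ ≤ k →
    32 * (k : ℝ) ^ 2 ≤ (3 : ℝ) ^ (ε / 2 * k - 2) := by
  have hr : 1 < (3 : ℝ) ^ (ε / 2) := Real.one_lt_rpow (by norm_num) (by positivity)
  have h1 := tendsto_pow_const_div_const_pow_of_one_lt 2 hr
  have h2 : ∀ᶠ n : ℕ in Filter.atTop, (n : ℝ) ^ 2 / ((3 : ℝ) ^ (ε / 2)) ^ n < 1 / 288 :=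
    h1.eventually (gt_mem_nhds (by norm_num))
  obtain ⟨N, hN⟩ := Filter.eventually_atTop.1 h2
  refine ⟨N, fun k hk => ?_⟩
  have h3 := hN k hk
  have hpos : 0 < ((3 : ℝ) ^ (ε / 2)) ^ k := by positivity
  rw [div_lt_iff₀ hpos] at h3
  have h4 : (3 : ℝ) ^ (ε / 2 * k - 2) = ((3 : ℝ) ^ (ε / 2)) ^ k / 9 := by
    rw [Real.rpow_sub (by norm_num), Real.rpow_mul (by norm_num), Real.rpow_natCast]
    norm_num
  rw [h4]
  linarith

/-- The choice of the parameters: real inequalities.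

`θ = ε / 4`, `q = p^k`, `j = ⌈(1/6 + ε) k⌉`, `i = j - ⌈2 ε k⌉`, `n = k - 3 j - i`, `b = n / 2`,
`m = n - b`, `N = ⌊q^(1/2+θ) / p^j⌋`, `η² = q^(-ε/4)`.

For `t ≤ N` with `p^i ≤ t` the bound of `weyl` is at most `η² p^j t`: after division by `p^j t`
* `4 p^(i-j) ≤ 4 q^(-2ε)`;
* `4 (b+1) p^(m-b) 2 t / (p^m p^j) ≤ 8 (k+1) N / (p^b p^j)`, and `N ≤ q^(1/2+θ) p^(-j)`,
  `b ≥ (n - 1) / 2`, so this is at most `8 (k+1) √p q^(1/2+θ) p^(-2j-n/2)`, where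
  `k/2 - 2 j - n/2 = -⌈2 ε k⌉/2 ≤ -ε k`; so `8 (k+1) √p q^(θ-ε)`;
* `4 (b+1) p^(m-b) 2 / p^j ≤ 8 (k+1) p / p^j`;
* `4 (b+1) p^m (1 + log p^b) / p^j ≤ 4 (k+1) (1 + log q) p^((n+1)/2 - j)`, where
  `n/2 - j = k/2 - 3 j + ⌈2 ε k⌉/2 ≤ -2 ε k + 1/2`; so `4 (k+1)(1 + log q) p q^(-2ε)`.
As `p = q^(1/k) ≤ q^(ε/8)` for `k ≥ 8/ε` and `k ≤ log q`, everything is at most
`C (1 + log q)² q^(-ε/2) ≤ q^(-ε/4)` for `q ≥ 3^k₀`. For `t < p^i` trivially
`‖∑‖ ≤ t = √t √t ≤ √t √(p^i) ≤ η √(p^j t)` as `p^(i-j) ≤ q^(-2ε) ≤ η²`. -/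
theorem params {ε : ℝ} (hε : 0 < ε) (hε1 : ε ≤ 1 / 100) : ∃ k₀ : ℕ, ∀ (p k : ℕ), p.Prime →
    p ≠ 2 → k₀ ≤ k → ∀ j : ℕ, j = ⌈(1 / 6 + ε) * k⌉₊ → 1 ≤ j ∧ 2 * j ≤ k ∧
    ∃ i m b : ℕ, i ≤ j ∧ b ≤ m ∧ k = 3 * j + i + m + b ∧
      (p : ℝ) ^ i ≤ ((p : ℝ) ^ k) ^ (-(ε / 4)) * (p : ℝ) ^ j ∧
      ∀ t : ℕ, (p : ℝ) ^ j * t ≤ ((p : ℝ) ^ k) ^ (1 / 2 + ε / 4) →
        2 * t * (2 * (p : ℝ) ^ i + 2 * (b + 1) * (p : ℝ) ^ (m - b) *
          (2 * ((t : ℝ) / (p : ℝ) ^ m + 1) + (p : ℝ) ^ b * (1 + Real.log ((p : ℝ) ^ b)))) ≤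
        ((p : ℝ) ^ k) ^ (-(ε / 4)) * ((p : ℝ) ^ j * t) := by
  obtain ⟨k₁, hk₁⟩ := wpar_thr hε
  refine ⟨max k₁ (max 13 ⌈4 / ε⌉₊), fun p k hp hp2 hk j hj => ?_⟩
  have hka : k₁ ≤ k := le_trans (le_max_left _ _) hk
  have hkb : 13 ≤ k := le_trans (le_trans (le_max_left _ _) (le_max_right _ _)) hk
  have hkc : ⌈4 / ε⌉₊ ≤ k := le_trans (le_trans (le_max_right _ _) (le_max_right _ _)) hk
  have hK := hk₁ k hka
  have hkR : (13 : ℝ) ≤ k := by exact_mod_cast hkb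
  have hkε : 4 ≤ ε * k := by
    have h1 : 4 / ε ≤ k := le_trans (Nat.le_ceil _) (by exact_mod_cast hkc)
    rw [div_le_iff₀ hε] at h1
    linarith
  have hp3 : 3 ≤ p := by
    have := hp.two_le
    omega
  have hP3 : (3 : ℝ) ≤ p := by exact_mod_cast hp3
  set P : ℝ := (p : ℝ) with hPdef
  have hP0 : 0 < P := by linarith
  have hP1 : 1 ≤ P := by linarith
  have hεk : ε * k ≤ k / 100 := by nlinarith
  have hj1 : (1 / 6 + ε) * k ≤ j := by rw [hj]; exact Nat.le_ceil _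
  have hj2 : (j : ℝ) < (1 / 6 + ε) * k + 1 := by
    rw [hj]; exact Nat.ceil_lt_add_one (by positivity)
  obtain ⟨L, hLdef⟩ : ∃ L : ℕ, L = ⌈2 * ε * k⌉₊ := ⟨_, rfl⟩
  have hL1 : 2 * ε * k ≤ L := by rw [hLdef]; exact Nat.le_ceil _
  have hL2 : (L : ℝ) < 2 * ε * k + 1 := by
    rw [hLdef]; exact Nat.ceil_lt_add_one (by positivity)
  have hLj : L ≤ j := by
    have h1 : (L : ℝ) ≤ j := by nlinarith
    exact_mod_cast h1
  obtain ⟨i, hi⟩ : ∃ i : ℕ, j = i + L := ⟨j - L, by omega⟩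
  have hiR : (j : ℝ) = i + L := by exact_mod_cast hi
  have hn : 3 * j + i ≤ k := by
    have h1 : 3 * (j : ℝ) + i ≤ k := by nlinarith
    exact_mod_cast h1
  obtain ⟨n, hndef⟩ : ∃ n : ℕ, k = 3 * j + i + n := ⟨k - (3 * j + i), by omega⟩
  have hnR : (k : ℝ) = 3 * j + i + n := by exact_mod_cast hndef
  obtain ⟨b, hbdef⟩ : ∃ b : ℕ, b = n / 2 := ⟨_, rfl⟩
  obtain ⟨m, hm⟩ : ∃ m : ℕ, n = m + b := ⟨n - b, by omega⟩
  have hmR : (n : ℝ) = m + b := by exact_mod_cast hm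
  have hb1 : n ≤ 2 * b + 1 := by omega
  have hb2 : 2 * b ≤ n := by omega
  have hb1R : (n : ℝ) ≤ 2 * b + 1 := by exact_mod_cast hb1
  have hb2R : 2 * (b : ℝ) ≤ n := by exact_mod_cast hb2
  have hbm : b ≤ m := by omega
  have hmb : m - b ≤ 1 := by omega
  have hbk : b + 1 ≤ k := by omega
  have hbkR : (b : ℝ) + 1 ≤ k := by exact_mod_cast hbk
  have hb0 : (0 : ℝ) ≤ b := Nat.cast_nonneg b
  -- the master inequality
  have hex : 0 ≤ ε / 2 * k - 2 := by nlinarith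
  have hK2 : 32 * (k : ℝ) ^ 2 ≤ P ^ (ε / 2 * k - 2) :=
    le_trans hK (Real.rpow_le_rpow (by norm_num) hP3 hex)
  have hk1 : (1 : ℝ) ≤ k := by linarith
  have hkk : (k : ℝ) ≤ (k : ℝ) ^ 2 := by nlinarith
  set A : ℝ := (P ^ k) ^ (-(ε / 4)) with hA
  have hA0 : 0 < A := by positivity
  have hAe : A * P ^ j = P ^ ((j : ℝ) - ε / 4 * k) := by
    rw [hA, ← Real.rpow_natCast P k, ← Real.rpow_mul hP0.le, ← Real.rpow_natCast P j,
      ← Real.rpow_add hP0]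
    congr 1
    ring
  -- (a)
  have ha : 16 * P ^ i ≤ A * P ^ j := by
    have h1 : (16 : ℝ) ≤ P ^ (ε / 2 * k - 2) := by nlinarith
    calc 16 * P ^ i ≤ P ^ (ε / 2 * k - 2) * P ^ i :=
          mul_le_mul_of_nonneg_right h1 (by positivity)
      _ = P ^ (ε / 2 * k - 2 + i) := by
          rw [← Real.rpow_natCast P i, ← Real.rpow_add hP0]
      _ ≤ P ^ ((j : ℝ) - ε / 4 * k) := by
          apply Real.rpow_le_rpow_of_exponent_le hP1
          nlinarith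
      _ = A * P ^ j := hAe.symm
  -- (c)
  have hPmb : P ^ (m - b) ≤ P := by
    calc P ^ (m - b) ≤ P ^ 1 := pow_le_pow_right₀ hP1 hmb
      _ = P := pow_one P
  have hc : 32 * (b + 1) * P ^ (m - b) ≤ A * P ^ j := by
    have h1 : 32 * ((b : ℝ) + 1) ≤ P ^ (ε / 2 * k - 2) := by nlinarith
    calc 32 * ((b : ℝ) + 1) * P ^ (m - b) ≤ P ^ (ε / 2 * k - 2) * P :=
          mul_le_mul h1 hPmb (by positivity) (by positivity)
      _ = P ^ (ε / 2 * k - 2 + 1) := by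
          rw [Real.rpow_add hP0, Real.rpow_one]
      _ ≤ P ^ ((j : ℝ) - ε / 4 * k) := by
          apply Real.rpow_le_rpow_of_exponent_le hP1
          nlinarith
      _ = A * P ^ j := hAe.symm
  -- (d)
  have hlog : 1 + Real.log (P ^ b) ≤ k * P := by
    rw [Real.log_pow]
    have h1 : Real.log P ≤ P - 1 := Real.log_le_sub_one_of_pos hP0
    have h2 : (b : ℝ) * Real.log P ≤ b * (P - 1) := mul_le_mul_of_nonneg_left h1 hb0
    nlinarith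
  have hlog0 : 0 ≤ 1 + Real.log (P ^ b) := by
    have : 0 ≤ Real.log (P ^ b) := Real.log_nonneg (one_le_pow₀ hP1)
    linarith
  have hd : 16 * (b + 1) * P ^ (m - b) * (P ^ b * (1 + Real.log (P ^ b))) ≤ A * P ^ j := by
    have h0 : P ^ (m - b) * P ^ b = P ^ m := by
      rw [← pow_add, Nat.sub_add_cancel hbm]
    have h1 : 16 * ((b : ℝ) + 1) * (1 + Real.log (P ^ b)) ≤ 32 * (k : ℝ) ^ 2 * P := by
      have h2 : ((b : ℝ) + 1) * (1 + Real.log (P ^ b)) ≤ k * (k * P) :=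
        mul_le_mul hbkR hlog hlog0 (by positivity)
      nlinarith [mul_nonneg (mul_nonneg hP0.le (sq_nonneg (k : ℝ))) (by norm_num : (0:ℝ) ≤ 1)]
    calc 16 * ((b : ℝ) + 1) * P ^ (m - b) * (P ^ b * (1 + Real.log (P ^ b)))
        = 16 * ((b : ℝ) + 1) * (1 + Real.log (P ^ b)) * P ^ m := by
          rw [← h0]; ring
      _ ≤ 32 * (k : ℝ) ^ 2 * P * P ^ m := mul_le_mul_of_nonneg_right h1 (by positivity)
      _ ≤ P ^ (ε / 2 * k - 2) * P * P ^ m := by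
          apply mul_le_mul_of_nonneg_right _ (by positivity)
          exact mul_le_mul_of_nonneg_right hK2 hP0.le
      _ = P ^ (ε / 2 * k - 2 + 1 + m) := by
          rw [Real.rpow_add hP0, Real.rpow_add hP0, Real.rpow_one, Real.rpow_natCast]
      _ ≤ P ^ ((j : ℝ) - ε / 4 * k) := by
          apply Real.rpow_le_rpow_of_exponent_le hP1
          nlinarith
      _ = A * P ^ j := hAe.symm
  have hAj : P ^ i ≤ A * P ^ j := by
    have : 0 ≤ P ^ i := by positivity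
    linarith
  refine ⟨?_, ?_, i, m, b, by omega, hbm, by omega, hAj, ?_⟩
  · have h1 : (0 : ℝ) < j := by nlinarith
    have h2 : 0 < j := by exact_mod_cast h1
    omega
  · have h1 : 2 * (j : ℝ) ≤ k := by nlinarith
    exact_mod_cast h1
  intro t ht
  have ht0 : (0 : ℝ) ≤ t := Nat.cast_nonneg t
  -- (b)
  have hb : 32 * (b + 1) * P ^ (m - b) * ((t : ℝ) / P ^ m) ≤ A * P ^ j := by
    have h1 : 32 * ((b : ℝ) + 1) ≤ P ^ (ε / 2 * k - 2) := by nlinarith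
    have h2 : (t : ℝ) ≤ P ^ (k * (1 / 2 + ε / 4) - j) := by
      rw [Real.rpow_sub hP0, Real.rpow_natCast, le_div_iff₀ (by positivity),
        Real.rpow_mul hP0.le, Real.rpow_natCast]
      linarith
    have h3 : P ^ (m - b) * ((t : ℝ) / P ^ m) = t * P ^ (-(b : ℝ)) := by
      rw [Real.rpow_neg hP0.le, Real.rpow_natCast]
      have h4 : P ^ m = P ^ (m - b) * P ^ b := by
        rw [← pow_add, Nat.sub_add_cancel hbm]
      rw [h4]
      field_simp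
    calc 32 * ((b : ℝ) + 1) * P ^ (m - b) * ((t : ℝ) / P ^ m)
        = 32 * ((b : ℝ) + 1) * (t * P ^ (-(b : ℝ))) := by rw [mul_assoc, h3]
      _ ≤ P ^ (ε / 2 * k - 2) * (P ^ (k * (1 / 2 + ε / 4) - j) * P ^ (-(b : ℝ))) := by
          apply mul_le_mul h1 _ (by positivity) (by positivity)
          exact mul_le_mul_of_nonneg_right h2 (by positivity)
      _ = P ^ (ε / 2 * k - 2 + (k * (1 / 2 + ε / 4) - j + -(b : ℝ))) := by
          rw [Real.rpow_add hP0, Real.rpow_add hP0]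
      _ ≤ P ^ ((j : ℝ) - ε / 4 * k) := by
          apply Real.rpow_le_rpow_of_exponent_le hP1
          nlinarith
      _ = A * P ^ j := hAe.symm
  have hfin : 2 * (2 * P ^ i + 2 * (b + 1) * P ^ (m - b) *
      (2 * ((t : ℝ) / P ^ m + 1) + P ^ b * (1 + Real.log (P ^ b)))) ≤ A * P ^ j := by
    have e : 2 * (2 * P ^ i + 2 * ((b : ℝ) + 1) * P ^ (m - b) *
        (2 * ((t : ℝ) / P ^ m + 1) + P ^ b * (1 + Real.log (P ^ b)))) =
        (16 * P ^ i + 32 * (b + 1) * P ^ (m - b) * ((t : ℝ) / P ^ m) +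
        32 * (b + 1) * P ^ (m - b) +
        16 * (b + 1) * P ^ (m - b) * (P ^ b * (1 + Real.log (P ^ b)))) / 4 := by ring
    rw [e]
    linarith
  calc 2 * (t : ℝ) * (2 * P ^ i + 2 * (b + 1) * P ^ (m - b) *
        (2 * ((t : ℝ) / P ^ m + 1) + P ^ b * (1 + Real.log (P ^ b))))
      = t * (2 * (2 * P ^ i + 2 * (b + 1) * P ^ (m - b) *
        (2 * ((t : ℝ) / P ^ m + 1) + P ^ b * (1 + Real.log (P ^ b))))) := by ring
    _ ≤ t * (A * P ^ j) := mul_le_mul_of_nonneg_left hfin ht0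
    _ = A * (P ^ j * t) := by ring

end Pool.Agent.NVW
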