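import Pool.Agent.Lib.MP_afd523_nt_W.WTw

set_option autoImplicit false

/-!
Project W: the Gauss sum over one residue class modulo `p ^ j`.
-/

namespace Pool.Agent.NVW

open Finset Complex MeasureTheory Pool.Agent.NV

private theorem WRoot_eta {p k s j : ℕ} [Fact p.Prime] (hsj : s + j = k) :
    IsPrimitiveRoot ((ZMod.stdAddChar ((p : ZMod (p ^ k)) ^ s)) : ℂ) (p ^ j) := by
  have hp : (p : ℂ) ≠ 0 := Nat.cast_ne_zero.2 (Fact.out : p.Prime).ne_zero
  have h1 : ((p : ZMod (p ^ k)) ^ s) = (((p : ℤ) ^ s : ℤ) : ZMod (p ^ k)) := by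
    push_cast
    rfl
  rw [h1, ZMod.stdAddChar_coe]
  have h2 : (2 * (Real.pi : ℂ) * I * (((p : ℤ) ^ s : ℤ) : ℂ) / ((p ^ k : ℕ) : ℂ)) =
      2 * (Real.pi : ℂ) * I / ((p ^ j : ℕ) : ℂ) := by
    have hk : ((p ^ k : ℕ) : ℂ) = (p : ℂ) ^ s * (p : ℂ) ^ j := by
      rw [← hsj]
      push_cast
      rw [pow_add]
    rw [hk]
    push_cast
    field_simp
  rw [h2]
  exact Complex.isPrimitiveRoot_exp _ (pow_ne_zero _ (Fact.out : p.Prime).ne_zero)

private theorem WRoot_mul {p k s j : ℕ} [Fact p.Prime] (hsj : s + j = k) (hle : j ≤ k)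
    {x : ZMod (p ^ k)} {y : ZMod (p ^ j)}
    (h : ZMod.castHom (pow_dvd_pow p hle) (ZMod (p ^ j)) x = y) :
    x * (p : ZMod (p ^ k)) ^ s = y.val • (p : ZMod (p ^ k)) ^ s := by
  have hN : NeZero (p ^ k) := ⟨pow_ne_zero _ (Fact.out : p.Prime).ne_zero⟩
  have hM : NeZero (p ^ j) := ⟨pow_ne_zero _ (Fact.out : p.Prime).ne_zero⟩
  have h1 : ((x.val : ℤ) : ZMod (p ^ j)) = ((y.val : ℤ) : ZMod (p ^ j)) := by
    push_cast
    rw [ZMod.natCast_zmod_val y, ← h, ZMod.castHom_apply, ZMod.natCast_val]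
  have h2 : ((p ^ j : ℕ) : ℤ) ∣ (x.val : ℤ) - (y.val : ℤ) := by
    have h3 := (ZMod.intCast_eq_intCast_iff_dvd_sub _ _ (p ^ j)).1 h1.symm
    exact h3
  obtain ⟨m, hm⟩ := h2
  have h4 : x = ((x.val : ℤ) : ZMod (p ^ k)) := by
    push_cast
    exact (ZMod.natCast_zmod_val x).symm
  have h5 : (x.val : ℤ) = (y.val : ℤ) + ((p ^ j : ℕ) : ℤ) * m := by linarith
  have h6 : ((p : ZMod (p ^ k)) ^ j) * (p : ZMod (p ^ k)) ^ s = 0 := by
    rw [← pow_add, add_comm j s, hsj]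
    have := ZMod.natCast_self (p ^ k)
    rw [Nat.cast_pow] at this
    exact this
  rw [nsmul_eq_mul]
  conv_lhs => rw [h4, h5]
  push_cast
  rw [add_mul, mul_assoc, mul_comm (m : ZMod (p ^ k)), ← mul_assoc, h6, zero_mul, add_zero]

/-- The Gauss sum of a primitive character modulo `p ^ k`, `2 j ≤ k`, restricted to the residue
classes modulo `p ^ j`, is supported on ONE class `-c`.

Proof. `s = k - j`, so `2 s ≥ k` and `s ≥ j`. `ζ = ψ (1 + p^s)` is a primitive `p^j`-th root of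
unity (`psi_root`), and so is `stdAddChar (p^s) = exp (2 π i / p^j)` (`ZMod.stdAddChar_coe`): so
`ζ = stdAddChar (p^s) ^ c₀` with `c₀ < p^j`, and `c₀` is coprime to `p` if `j ≥ 1`
(`IsPrimitiveRoot.eq_pow_of_pow_eq_one`, `IsPrimitiveRoot.pow_iff_coprime`); `c` is the class of
`c₀`. Let `S y` be the sum over the class `y` (represented by the natural number `y.val`). The map
`x ↦ x (1 + p^s)` is a bijection of `ZMod (p ^ k)` (the factor is a unit) preserving the classes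
modulo `p ^ j` (`j ≤ s`). Substituting, and with `x p^s = y.val p^s` in `ZMod (p ^ k)` for `x` in
the class `y` (the difference is divisible by `p^j p^s`),
`S y = ψ (1 + p^s) stdAddChar (p^s y.val) S y = stdAddChar (p^s) ^ (c₀ + y.val) * S y`.
If `S y ≠ 0` then `p^j ∣ c₀ + y.val`, i.e. `y = -c`. Since the sum of all `S y` is the Gauss sum,
`S (-c)` is the Gauss sum. -/
theorem gauss_class {p j k : ℕ} [Fact p.Prime] (hj : 1 ≤ j) (hjk : 2 * j ≤ k) (hle : j ≤ k)
    {ψ : DirichletCharacter ℂ (p ^ k)} (hψ : ψ.IsPrimitive) :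
    ∃ c : ZMod (p ^ j), IsUnit c ∧ ∀ y : ZMod (p ^ j),
      ∑ x ∈ univ.filter (fun x : ZMod (p ^ k) =>
        ZMod.castHom (pow_dvd_pow p hle) (ZMod (p ^ j)) x = y),
        ψ x * (ZMod.stdAddChar x : ℂ) =
      if y = -c then gaussSum ψ (ZMod.stdAddChar : AddChar (ZMod (p ^ k)) ℂ) else 0 := by
  classical
  have hN : NeZero (p ^ k) := ⟨pow_ne_zero _ (Fact.out : p.Prime).ne_zero⟩
  have hM : NeZero (p ^ j) := ⟨pow_ne_zero _ (Fact.out : p.Prime).ne_zero⟩
  obtain ⟨s, hs⟩ : ∃ s, s = k - j := ⟨_, rfl⟩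
  have hsj : s + j = k := by omega
  have hks : k - s = j := by omega
  have hζ := psi_root (p := p) (k := k) (s := s) (by omega) (by omega) (by omega) hψ
  rw [hks] at hζ
  have hη := WRoot_eta (p := p) (k := k) (s := s) (j := j) hsj
  obtain ⟨c₀, hc₀, hc⟩ := hη.eq_pow_of_pow_eq_one hζ.pow_eq_one
  have hcop : c₀.Coprime (p ^ j) := by
    rw [← hη.pow_iff_coprime (NeZero.pos _) c₀, hc]
    exact hζ
  refine ⟨(c₀ : ZMod (p ^ j)), (ZMod.isUnit_iff_coprime c₀ (p ^ j)).2 hcop, ?_⟩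
  have hsq : ((p : ZMod (p ^ k)) ^ s) * (p : ZMod (p ^ k)) ^ s = 0 := by
    have h1 : (p : ZMod (p ^ k)) ^ k = 0 := by
      have := ZMod.natCast_self (p ^ k)
      rw [Nat.cast_pow] at this
      exact this
    rw [← pow_add]
    exact pow_eq_zero_of_le (by omega) h1
  have hu1 : (1 + (p : ZMod (p ^ k)) ^ s) * (1 - (p : ZMod (p ^ k)) ^ s) = 1 := by
    linear_combination -hsq
  let u : (ZMod (p ^ k))ˣ := ⟨1 + (p : ZMod (p ^ k)) ^ s, 1 - (p : ZMod (p ^ k)) ^ s, hu1, by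
    rw [mul_comm]
    exact hu1⟩
  have huv : (u : ZMod (p ^ k)) = 1 + (p : ZMod (p ^ k)) ^ s := rfl
  have hcu : ZMod.castHom (pow_dvd_pow p hle) (ZMod (p ^ j)) (u : ZMod (p ^ k)) = 1 := by
    rw [huv, map_add, map_one, map_pow, map_natCast]
    have h1 : (p : ZMod (p ^ j)) ^ j = 0 := by
      have := ZMod.natCast_self (p ^ j)
      rw [Nat.cast_pow] at this
      exact this
    rw [pow_eq_zero_of_le (by omega : j ≤ s) h1, add_zero]
  have key : ∀ y : ZMod (p ^ j),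
      ∑ x ∈ univ.filter (fun x : ZMod (p ^ k) =>
        ZMod.castHom (pow_dvd_pow p hle) (ZMod (p ^ j)) x = y),
        ψ x * (ZMod.stdAddChar x : ℂ) =
      (ZMod.stdAddChar ((p : ZMod (p ^ k)) ^ s) : ℂ) ^ (c₀ + y.val) *
      ∑ x ∈ univ.filter (fun x : ZMod (p ^ k) =>
        ZMod.castHom (pow_dvd_pow p hle) (ZMod (p ^ j)) x = y),
        ψ x * (ZMod.stdAddChar x : ℂ) := by
    intro y
    rw [Finset.mul_sum]
    symm
    refine Finset.sum_bij (fun x _ => x * (u : ZMod (p ^ k))) ?_ ?_ ?_ ?_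
    · intro x hx
      rw [mem_filter] at hx ⊢
      refine ⟨mem_univ _, ?_⟩
      rw [map_mul, hcu, mul_one]
      exact hx.2
    · intro x _ x' _ hxx
      exact u.isUnit.mul_left_injective hxx
    · intro x hx
      rw [mem_filter] at hx
      refine ⟨x * (↑u⁻¹ : ZMod (p ^ k)), ?_, ?_⟩
      · rw [mem_filter]
        refine ⟨mem_univ _, ?_⟩
        have h1 : ZMod.castHom (pow_dvd_pow p hle) (ZMod (p ^ j))
            ((↑u⁻¹ : ZMod (p ^ k)) * (u : ZMod (p ^ k))) = 1 := by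
          rw [Units.inv_mul, map_one]
        rw [map_mul, hcu, mul_one] at h1
        rw [map_mul, h1, mul_one]
        exact hx.2
      · exact Units.inv_mul_cancel_right x u
    · intro x hx
      rw [mem_filter] at hx
      have h1 : x * (u : ZMod (p ^ k)) = x + y.val • (p : ZMod (p ^ k)) ^ s := by
        rw [huv, mul_add, mul_one, WRoot_mul hsj hle hx.2]
      have h2 : ψ (x * (u : ZMod (p ^ k))) = ψ x *
          (ZMod.stdAddChar ((p : ZMod (p ^ k)) ^ s) : ℂ) ^ c₀ := by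
        rw [map_mul, hc, huv]
      rw [h2, h1, AddChar.map_add_eq_mul, AddChar.map_nsmul_eq_pow, pow_add]
      ring
  have hz : ∀ y : ZMod (p ^ j), y ≠ -(c₀ : ZMod (p ^ j)) →
      ∑ x ∈ univ.filter (fun x : ZMod (p ^ k) =>
        ZMod.castHom (pow_dvd_pow p hle) (ZMod (p ^ j)) x = y),
        ψ x * (ZMod.stdAddChar x : ℂ) = 0 := by
    intro y hy
    have h1 := key y
    have h2 : (ZMod.stdAddChar ((p : ZMod (p ^ k)) ^ s) : ℂ) ^ (c₀ + y.val) ≠ 1 := by
      intro h3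
      rw [hη.pow_eq_one_iff_dvd] at h3
      have h4 := (ZMod.natCast_eq_zero_iff _ _).2 h3
      rw [Nat.cast_add, ZMod.natCast_zmod_val] at h4
      exact hy (eq_neg_of_add_eq_zero_right h4)
    by_contra h5
    refine h2 ?_
    have h6 : ((ZMod.stdAddChar ((p : ZMod (p ^ k)) ^ s) : ℂ) ^ (c₀ + y.val) - 1) *
      ∑ x ∈ univ.filter (fun x : ZMod (p ^ k) =>
        ZMod.castHom (pow_dvd_pow p hle) (ZMod (p ^ j)) x = y),
        ψ x * (ZMod.stdAddChar x : ℂ) = 0 := by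
      rw [sub_mul, one_mul, ← h1, sub_self]
    rcases mul_eq_zero.1 h6 with h7 | h7
    · exact sub_eq_zero.1 h7
    · exact absurd h7 h5
  intro y
  split_ifs with hy
  · have hall : ∑ y : ZMod (p ^ j), ∑ x ∈ univ.filter (fun x : ZMod (p ^ k) =>
        ZMod.castHom (pow_dvd_pow p hle) (ZMod (p ^ j)) x = y),
        ψ x * (ZMod.stdAddChar x : ℂ) =
        gaussSum ψ (ZMod.stdAddChar : AddChar (ZMod (p ^ k)) ℂ) := by
      rw [Finset.sum_fiberwise]
      rfl
    rw [← hall, hy]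
    symm
    refine Finset.sum_eq_single _ (fun b _ hb => hz b hb) ?_
    intro h
    exact absurd (mem_univ _) h
  · exact hz y hy

end Pool.Agent.NVW
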