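import Pool.Agent.Lib.MP_afd523_nt_W.WDefs
import Pool.Agent.Lib.MP_afd523_nt.Theta

set_option autoImplicit false

/-!
Project W: functional equation of the theta series of a primitive character of any modulus, with
the explicit root number.
-/

namespace Pool.Agent.NVW

open Finset Complex MeasureTheory Pool.Agent.NV

/-- The absolute value of the Gauss sum of a primitive character. -/
theorem norm_gauss {q : ℕ} [NeZero q] (χ : DirichletCharacter ℂ q) (hχ : χ.IsPrimitive) :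
    ‖gaussSum χ (ZMod.stdAddChar : AddChar (ZMod q) ℂ)‖ = √q := by
  classical
  obtain ⟨G, hG⟩ : ∃ G : ℂ, G = gaussSum χ (ZMod.stdAddChar : AddChar (ZMod q) ℂ) := ⟨_, rfl⟩
  rw [← hG]
  obtain ⟨S, hS⟩ : ∃ S : ℂ, S = ∑ j : ZMod q, χ j * (starRingEnd ℂ) (χ j) := ⟨_, rfl⟩
  have hinv : ∀ a : ZMod q, (starRingEnd ℂ) (χ a) = χ⁻¹ a := by
    intro a
    rw [← MulChar.star_eq_inv, MulChar.star_apply]
    rfl
  -- Parseval
  have h1 : ∑ a : ZMod q, (gaussSum χ (ZMod.stdAddChar.mulShift a)) *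
      (starRingEnd ℂ) (gaussSum χ (ZMod.stdAddChar.mulShift a)) = q * S := by
    have e1 : ∀ a : ZMod q, (gaussSum χ (ZMod.stdAddChar.mulShift a)) *
        (starRingEnd ℂ) (gaussSum χ (ZMod.stdAddChar.mulShift a)) =
        ∑ j : ZMod q, ∑ i : ZMod q, χ j * (starRingEnd ℂ) (χ i) *
          (ZMod.stdAddChar (a * (j - i)) : ℂ) := by
      intro a
      unfold gaussSum
      rw [map_sum, Finset.sum_mul_sum]
      refine Finset.sum_congr rfl fun j _ => Finset.sum_congr rfl fun i _ => ?_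
      have hstar : (starRingEnd ℂ) ((ZMod.stdAddChar.mulShift a : AddChar (ZMod q) ℂ) i) =
          (ZMod.stdAddChar : AddChar (ZMod q) ℂ) (-(a * i)) := by
        rw [AddChar.mulShift_apply, AddChar.map_neg_eq_inv]
        refine (Complex.inv_eq_conj ?_).symm
        exact AddChar.norm_apply _ _
      have hsplit : (ZMod.stdAddChar (a * (j - i)) : ℂ) =
          (ZMod.stdAddChar : AddChar (ZMod q) ℂ) (a * j) *
          (ZMod.stdAddChar : AddChar (ZMod q) ℂ) (-(a * i)) := by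
        rw [← AddChar.map_add_eq_mul]
        congr 1
        ring
      rw [(starRingEnd ℂ).map_mul, hstar, hsplit, AddChar.mulShift_apply]
      ring
    rw [Finset.sum_congr rfl fun a _ => e1 a, Finset.sum_comm]
    have e2 : ∀ j : ZMod q, ∑ a : ZMod q, ∑ i : ZMod q, χ j * (starRingEnd ℂ) (χ i) *
        (ZMod.stdAddChar (a * (j - i)) : ℂ) = q * (χ j * (starRingEnd ℂ) (χ j)) := by
      intro j
      rw [Finset.sum_comm]
      have e3 : ∀ i : ZMod q, ∑ a : ZMod q, χ j * (starRingEnd ℂ) (χ i) *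
          (ZMod.stdAddChar (a * (j - i)) : ℂ) =
          if i = j then q * (χ j * (starRingEnd ℂ) (χ j)) else 0 := by
        intro i
        rw [← Finset.mul_sum, AddChar.sum_mulShift (j - i) (ZMod.isPrimitive_stdAddChar q)]
        by_cases hij : i = j
        · rw [if_pos hij, if_pos (by rw [hij, sub_self]), hij, ZMod.card]
          ring
        · rw [if_neg hij, if_neg (fun h => hij (sub_eq_zero.1 h).symm)]
          simp
      rw [Finset.sum_congr rfl fun i _ => e3 i, Finset.sum_ite_eq' Finset.univ j]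
      simp
    rw [Finset.sum_congr rfl fun j _ => e2 j, ← Finset.mul_sum, hS]
  have h2 : ∑ a : ZMod q, (gaussSum χ (ZMod.stdAddChar.mulShift a)) *
      (starRingEnd ℂ) (gaussSum χ (ZMod.stdAddChar.mulShift a)) = S * (G * (starRingEnd ℂ) G) := by
    rw [hS, Finset.sum_mul]
    refine Finset.sum_congr rfl fun a _ => ?_
    rw [gaussSum_mulShift_of_isPrimitive _ hχ, ← hG, ← hinv, map_mul, Complex.conj_conj]
    ring
  have hSne : S ≠ 0 := by
    have e1 : S = ((∑ j : ZMod q, Complex.normSq (χ j) : ℝ) : ℂ) := by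
      rw [hS]
      push_cast
      exact Finset.sum_congr rfl fun j _ => Complex.mul_conj _
    rw [e1]
    have e2 : 0 < ∑ j : ZMod q, Complex.normSq (χ j) := by
      refine Finset.sum_pos' (fun j _ => Complex.normSq_nonneg _) ⟨1, Finset.mem_univ _, ?_⟩
      rw [map_one, map_one]
      exact one_pos
    exact_mod_cast e2.ne'
  have h3 : G * (starRingEnd ℂ) G = q := by
    have h4 : S * (G * (starRingEnd ℂ) G) = S * q := by
      rw [← h2, h1]
      ring
    exact mul_left_cancel₀ hSne h4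
  rw [Complex.mul_conj, Complex.normSq_eq_norm_sq] at h3
  have h5 : ‖G‖ ^ 2 = q := by exact_mod_cast h3
  rw [← h5, Real.sqrt_sq (norm_nonneg G)]

private theorem WTheta_half {q : ℕ} [NeZero q] (hq : 1 < q) (χ : DirichletCharacter ℂ q)
    (e : ℕ) (he : χ (-1) = (-1) ^ e) (t : ℝ) (S : ℂ)
    (hS : HasSum (fun n : ℤ => χ (n : ZMod q) *
      ((n : ℂ) ^ e * Complex.exp (-(Real.pi * (n : ℂ) ^ 2 * t / q)))) S) :
    theta χ e t = S / 2 := by
  have : Fact (1 < q) := ⟨hq⟩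
  have h0 : χ (0 : ZMod q) = 0 := χ.map_zero
  have h := hS.nat_add_neg
  have h2 : HasSum (fun n : ℕ => 2 * (χ (n : ZMod q) * (n : ℂ) ^ e *
      Complex.exp (-(Real.pi * n ^ 2 * t / q)))) S := by
    have h3 : S + χ ((0 : ℤ) : ZMod q) * (((0 : ℤ) : ℂ) ^ e *
        Complex.exp (-(Real.pi * ((0 : ℤ) : ℂ) ^ 2 * t / q))) = S := by
      rw [Int.cast_zero, h0]; simp
    rw [h3] at h
    refine h.congr_fun fun n => ?_
    have h4 : χ (((-(n : ℤ) : ℤ)) : ZMod q) = (-1) ^ e * χ (n : ZMod q) := by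
      push_cast
      rw [← neg_one_mul, map_mul, he]
    rw [h4]
    push_cast
    have h5 : (-(n : ℂ)) ^ e = (-1) ^ e * (n : ℂ) ^ e := by
      rw [← mul_pow, neg_one_mul]
    rw [h5, neg_sq]
    have h6 : ((-1 : ℂ) ^ e) * (-1) ^ e = 1 := by
      rw [← mul_pow]; simp
    linear_combination (χ (n : ZMod q) * (n : ℂ) ^ e *
      Complex.exp (-(Real.pi * n ^ 2 * t / q))) * (-h6)
  have h7 := (h2.div_const 2).tsum_eq
  unfold theta
  rw [← h7]
  congr 1
  ext n
  ring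

theorem norm_eps {q : ℕ} [NeZero q] (χ : DirichletCharacter ℂ q) (hχ : χ.IsPrimitive) (e : ℕ) :
    ‖eps χ e‖ = 1 := by
  have hq0 : (0 : ℝ) < q := by exact_mod_cast NeZero.pos q
  have hsq : (0 : ℝ) < √q := Real.sqrt_pos.2 hq0
  unfold eps
  rw [norm_div, norm_mul, norm_pow, norm_neg, norm_I, one_pow, one_mul, norm_gauss χ hχ,
    Complex.norm_real, Real.norm_of_nonneg hsq.le, div_self hsq.ne']

theorem theta_fe' {q : ℕ} [NeZero q] (hq : 1 < q) (χ : DirichletCharacter ℂ q)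
    (hχ : χ.IsPrimitive) {e : ℕ} (he1 : e ≤ 1) (he : χ (-1) = (-1) ^ e) (t : ℝ) (ht : 0 < t) :
    theta χ e (1 / t) = eps χ e * (t : ℂ) ^ (1 / 2 + e : ℂ) * theta χ⁻¹ e t := by
  have hq0 : (0 : ℝ) < q := by exact_mod_cast NeZero.pos q
  have hqc : (q : ℂ) ≠ 0 := by exact_mod_cast hq0.ne'
  have hei : χ⁻¹ (-1) = (-1) ^ e := by
    rw [MulChar.inv_apply_eq_inv', he]
    rw [← inv_pow]
    norm_num
  set G : ℂ := gaussSum χ (ZMod.stdAddChar : AddChar (ZMod q) ℂ) with hG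
  have hGn : ‖G‖ = √q := norm_gauss χ hχ
  obtain ⟨E, C, hE, hC, hEC⟩ := Theta_kernels e he1
  have hsq : (0 : ℝ) < √q := Real.sqrt_pos.2 hq0
  have htq : 0 < t / q := div_pos ht hq0
  -- the sum of characters
  have hgs : ∀ n : ℤ, ∑ j : ZMod q, χ j * Complex.exp (2 * Real.pi * I * ((j.val : ℝ) / q : ℝ) * n)
      = χ⁻¹ (n : ZMod q) * G := by
    intro n
    rw [hG, ← gaussSum_mulShift_of_isPrimitive (e := (ZMod.stdAddChar : AddChar (ZMod q) ℂ))
      hχ (n : ZMod q)]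
    unfold gaussSum
    refine Finset.sum_congr rfl fun j _ => ?_
    congr 1
    rw [AddChar.mulShift_apply]
    have h1 : ((n : ZMod q) * j) = (((n * (j.val : ℤ) : ℤ)) : ZMod q) := by
      push_cast
      simp
    rw [h1, ZMod.stdAddChar_coe]
    congr 1
    push_cast
    field_simp
  -- dual sum
  have hS' : HasSum (fun n : ℤ => (-I) ^ e * G * (χ⁻¹ (n : ZMod q) *
      ((n : ℂ) ^ e * Complex.exp (-(Real.pi * (n : ℂ) ^ 2 * t / q)))))
      (∑ j : ZMod q, χ j * C ((j.val : ℝ) / q) (t / q)) := by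
    have h1 := hasSum_sum (s := (Finset.univ : Finset (ZMod q)))
      (fun j _ => (hC ((j.val : ℝ) / q) (t / q) htq).mul_left (χ j))
    refine h1.congr_fun fun n => ?_
    have h2 : ∀ j : ZMod q, χ j * ((-I) ^ e * (n : ℂ) ^ e *
        Complex.exp (2 * Real.pi * I * ((j.val : ℝ) / q : ℝ) * n) *
        Complex.exp (-(Real.pi * (n : ℂ) ^ 2 * ((t / q : ℝ) : ℂ)))) =
        (χ j * Complex.exp (2 * Real.pi * I * ((j.val : ℝ) / q : ℝ) * n)) * ((-I) ^ e *
          (n : ℂ) ^ e * Complex.exp (-(Real.pi * (n : ℂ) ^ 2 * t / q))) := by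
      intro j
      have h3 : Complex.exp (-(Real.pi * (n : ℂ) ^ 2 * ((t / q : ℝ) : ℂ))) =
          Complex.exp (-(Real.pi * (n : ℂ) ^ 2 * t / q)) := by
        congr 1
        push_cast
        ring
      rw [h3]
      ring
    rw [Finset.sum_congr rfl fun j _ => h2 j, ← Finset.sum_mul, hgs n]
    ring
  have hcne : (-I) ^ e * G ≠ 0 := by
    apply mul_ne_zero (pow_ne_zero _ (neg_ne_zero.2 I_ne_zero))
    intro h
    rw [h, norm_zero] at hGn
    exact hsq.ne hGn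
  have hS'' := (hasSum_mul_left_iff hcne (a₁ := ((-I) ^ e * G)⁻¹ *
    ∑ j : ZMod q, χ j * C ((j.val : ℝ) / q) (t / q))).1 (by
      rw [mul_inv_cancel_left₀ hcne]; exact hS')
  have hθ' := WTheta_half hq χ⁻¹ e hei t _ hS''
  -- the original sum
  have hS1 : HasSum (fun n : ℤ => χ (n : ZMod q) *
      ((n : ℂ) ^ e * Complex.exp (-(Real.pi * (n : ℂ) ^ 2 * ((1 / t : ℝ) : ℂ) / q))))
      (∑ j : ZMod q, χ j * ((q : ℂ) ^ e * E ((j.val : ℝ) / q) (1 / (t / q)))) := by
    refine Theta_residue χ _ _ fun j => ?_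
    have h1 := (hE ((j.val : ℝ) / q) (1 / (t / q)) (by positivity)).mul_left ((q : ℂ) ^ e)
    refine h1.congr_fun fun m => ?_
    push_cast
    have h2 : ((m : ℂ) * q + (j.val : ℂ)) = q * ((m : ℂ) + (j.val : ℂ) / q) := by
      field_simp
    rw [h2, mul_pow, mul_assoc]
    congr 2
    congr 1
    have htc : (t : ℂ) ≠ 0 := by exact_mod_cast ht.ne'
    field_simp
  have hθ := WTheta_half hq χ e he (1 / t) _ hS1
  rw [hθ, hθ']
  have h8 : ∑ j : ZMod q, χ j * ((q : ℂ) ^ e * E ((j.val : ℝ) / q) (1 / (t / q))) =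
      ((q : ℂ) ^ e * ((t / q : ℝ) : ℂ) ^ (1 / 2 + e : ℂ)) *
        ∑ j : ZMod q, χ j * C ((j.val : ℝ) / q) (t / q) := by
    rw [Finset.mul_sum]
    refine Finset.sum_congr rfl fun j _ => ?_
    rw [hEC _ _ htq]
    ring
  have h9 : (q : ℂ) ^ e * ((t / q : ℝ) : ℂ) ^ (1 / 2 + e : ℂ) =
      (t : ℂ) ^ (1 / 2 + e : ℂ) / (√q : ℝ) := by
    have h10 : ((t / q : ℝ) : ℂ) ^ (1 / 2 + e : ℂ) = (((t / q) ^ (1 / 2 + e : ℝ) : ℝ) : ℂ) := by
      rw [Complex.ofReal_cpow htq.le]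
      push_cast
      rfl
    have h11 : (t : ℂ) ^ (1 / 2 + e : ℂ) = ((t ^ (1 / 2 + e : ℝ) : ℝ) : ℂ) := by
      rw [Complex.ofReal_cpow ht.le]
      push_cast
      rfl
    rw [h10, h11, Real.div_rpow ht.le hq0.le, Real.rpow_add hq0, Real.rpow_natCast,
      ← Real.sqrt_eq_rpow]
    have h12 : ((√q : ℝ) : ℂ) ≠ 0 := by exact_mod_cast hsq.ne'
    push_cast
    field_simp
  rw [h8, h9]
  have h13 : ((-I) ^ e * G) * ((-I) ^ e * G)⁻¹ = 1 := mul_inv_cancel₀ hcne
  unfold eps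
  rw [← hG]
  linear_combination (-((t : ℂ) ^ (1 / 2 + e : ℂ) / (√q : ℝ) *
    (∑ j : ZMod q, χ j * C ((j.val : ℝ) / q) (t / q)) / 2)) * h13

end Pool.Agent.NVW
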